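import Pool.Agent.Lib.MP_6e5bed_ag_UD.DsC

set_option autoImplicit false
set_option linter.unusedVariables false

/-!
# MP_6e5bed_ag, universal domains: the unit is the dg algebra of a coherent sheaf of algebras
-/

noncomputable section

namespace Pool.Agent.MP_6e5bed_ag_UD

open MvPolynomial Pool.Agent.MP_6e5bed_ag_NC Pool.Agent.MP_6e5bed_ag_Pn
open Pool.Agent.MP_6e5bed_ag_SP (DG Rep RA repOf)

universe u

private theorem CohBase_eq {k : Type u} [Field k] {d : ℕ} {a : MvPolynomial (Fin (0 + 1)) k}
    (ha : a ∈ homogeneousSubmodule (Fin (0 + 1)) k d) :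
    a = monomial (Finsupp.single 0 d) (aeval (fun _ => (1 : k)) a) := by
  rw [mem_homogeneousSubmodule] at ha
  have h1 : a = monomial (Finsupp.single 0 d) (a.coeff (Finsupp.single 0 d)) := by
    ext s
    rw [coeff_monomial]
    split_ifs with h
    · rw [h]
    · by_contra h2
      apply h
      have h3 : s.degree = d := by
        by_contra h3
        exact h2 (ha.coeff_eq_zero h3)
      ext i
      have hi : i = 0 := Fin.ext (by have := i.2; simp at this ⊢)
      subst hi
      rw [Finsupp.single_eq_same, ← h3, Finsupp.degree_eq_sum]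
      simp
  have h2 : aeval (fun _ => (1 : k)) a = a.coeff (Finsupp.single 0 d) := by
    conv_lhs => rw [h1]
    rw [aeval_monomial]
    simp
  rw [h2]
  exact h1

private theorem CohBase_zero {k : Type u} [Field k] {d : ℕ} {a : MvPolynomial (Fin (0 + 1)) k}
    (ha : a ∈ homogeneousSubmodule (Fin (0 + 1)) k d) (h : aeval (fun _ => (1 : k)) a = 0) :
    a = 0 := by
  rw [CohBase_eq ha, h, monomial_zero]

attribute [local instance] MvPolynomial.gradedAlgebra in
private theorem CohBase_gr (k : Type u) [Field k] :
    IsGr (k := k) (Γ := MvPolynomial (Fin (0 + 1)) k) 0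
      (homogeneousSubmodule (Fin (0 + 1)) k) where
  int := DirectSum.Decomposition.isInternal _
  one := isHomogeneous_one _ _
  mul := fun p q a b ha hb => IsHomogeneous.mul ha hb
  var := fun i => isHomogeneous_X _ _
  fin := Module.Finite.self _

private theorem CohBase_card (I : Finset (Fin (0 + 1))) (h : I ≠ ∅) : I = {0} := by
  obtain ⟨i, hi⟩ := Finset.nonempty_iff_ne_empty.mpr h
  ext j
  have hj : j = i := Fin.ext (by have := i.2; have := j.2; omega)
  have h0 : (0 : Fin (0 + 1)) = i := Fin.ext (by have := i.2; simp at this ⊢)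
  rw [hj, h0, Finset.mem_singleton]
  exact ⟨fun _ => rfl, fun _ => hi⟩

private theorem CohBase_ev {k : Type u} [Field k] (s : Finset (Fin (0 + 1))) :
    aeval (fun _ => (1 : k)) (∏ i ∈ s, X i : MvPolynomial (Fin (0 + 1)) k) = 1 := by
  rw [map_prod]
  exact Finset.prod_eq_one fun i _ => aeval_X _ _

private theorem CohBase_sec (k : Type u) [Field k] :
    IsSec (n := 0) (k := k) (Γ := MvPolynomial (Fin (0 + 1)) k) (B := fun _ => k)
      (homogeneousSubmodule (Fin (0 + 1)) k) (fun _ _ _ => AlgHom.id k k)
      (fun _ _ a => aeval (fun _ => (1 : k)) a) where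
  add := fun I m a b _ _ => map_add _ a b
  mul := fun I l m a b _ _ => map_mul _ a b
  const := fun I c => by
    rw [AlgHom.commutes]
  step := fun I m a _ => by
    rw [smul_eq_mul, map_mul, CohBase_ev, one_mul]
  surj := fun I b => ⟨0, C b, by
    rw [zero_mul]
    exact isHomogeneous_C _ _, by
    rw [← algebraMap_eq, AlgHom.commutes]
    rfl⟩
  zero := fun I m a ha h => ⟨0, by
    rw [CohBase_zero ha h, smul_zero]⟩
  res := fun I J h m a _ => by
    rw [smul_eq_mul, map_mul, map_pow, CohBase_ev, one_pow, one_mul]
    rfl

/-- The family of the element `c`. -/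
private def CohBase_e (k : Type u) [Field k] : RA (base k) →ₗ[k] (Finset (Fin (0 + 1)) → k) where
  toFun := fun c I => if I.card = 1 then (c : k) else 0
  map_add' := fun a b => by
    funext I
    change (if I.card = 1 then ((a : k) + (b : k)) else 0) =
      (if I.card = 1 then (a : k) else 0) + (if I.card = 1 then (b : k) else 0)
    split_ifs
    · rfl
    · rw [add_zero]
  map_smul' := fun c a => by
    funext I
    change (if I.card = 1 then (c • (a : k)) else 0) = c • (if I.card = 1 then (a : k) else 0)
    split_ifs
    · rfl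
    · rw [smul_zero]

private theorem CohBase_e0 {k : Type u} [Field k] (c : RA (base k)) : CohBase_e k c ∅ = 0 := rfl

private theorem CohBase_e1 {k : Type u} [Field k] (c : RA (base k)) :
    CohBase_e k c {0} = (c : k) := rfl

private theorem CohBase_cech (k : Type u) [Field k] :
    IsCech (n := 0) (k := k) (B := fun _ => k) (T := RA (base k)) (fun _ _ _ => AlgHom.id k k)
      (DG.of (base k)) (CohBase_e k) where
  inj := fun a b h => congrFun h {0}
  range := fun c => ⟨fun ⟨a, ha⟩ => by rw [← ha, CohBase_e0], fun h => ⟨(c {0} : k), by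
    funext I
    by_cases hI : I = ∅
    · rw [hI, h, CohBase_e0]
    · rw [CohBase_card I hI, CohBase_e1]⟩⟩
  one := fun I => rfl
  mul := fun a b I => by
    by_cases hI : I = ∅
    · rw [hI, CohBase_e0, Finset.sum_empty]
    · rw [CohBase_card I hI, CohBase_e1, Finset.sum_singleton]
      rfl
  gr := fun m a => by
    refine ((repOf (base k)).rep.mem m a).trans ⟨fun h I hI => ?_, fun h => ?_⟩
    · have hI1 : I ≠ ∅ := fun h1 => hI (by rw [h1, CohBase_e0])
      rw [CohBase_card I hI1] at hI ⊢
      rcases base_deg_cases h with h1 | h1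
      · rw [h1]
        rfl
      · exact absurd h1 hI
    · by_cases ha : (a : k) = 0
      · have h1 : (repOf (base k)).e a = (0 : k) := ha
        rw [h1]
        exact Dg.IsDeg.zero m
      · have h1 := h {0} ha
        have h2 : m = 0 := by
          rw [Finset.card_singleton] at h1
          push_cast at h1
          linarith
        rw [h2]
        rfl
  d := fun a I => by
    have h1 : (DG.of (base k)).d a = (0 : RA (base k)) := by
      apply (repOf (base k)).e.injective
      rw [(repOf (base k)).rep.d, map_zero]
      rfl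
    rw [h1, map_zero]
    by_cases hI : I = ∅
    · rw [hI, Finset.sum_empty]
      rfl
    · rw [CohBase_card I hI, Finset.sum_singleton]
      exact (smul_zero _).symm

/-- The dg algebra `k` is `RΓ(P⁰, k[x]~)`. Take `X = DG.of (base k)` (or any structure `DG k k` with
`gr 0 = ⊤`, `d = 0`) and `repOf (base k)`; `Γ = MvPolynomial (Fin 1) k` with
`𝒢 = homogeneousSubmodule (Fin 1) k` (`Γ` is its own polynomial ring, `n = 0`); `B I = k` for all `I`,
`r I J = AlgHom.id`, `q I m a = aeval (fun _ => 1) a` (the coefficient of the only monomial of degree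
`m * |I|`), and `e c I = c` if `I.card = 1`, `0` otherwise. `IsSec.zero`: a homogeneous polynomial in
one variable with value `0` at `1` is `0`. -/
theorem cohD_base (k : Type u) [Field k] : CohD (base k) := by
  refine ⟨RA (base k), inferInstance, inferInstance, DG.of (base k), ?_, ⟨repOf (base k)⟩⟩
  refine ⟨0, MvPolynomial (Fin (0 + 1)) k, inferInstance, inferInstance, Algebra.id _,
    inferInstance, homogeneousSubmodule (Fin (0 + 1)) k, CohBase_gr k, ?_⟩
  exact ⟨fun _ => k, inferInstance, inferInstance, fun _ _ _ => AlgHom.id k k,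
    fun _ _ a => aeval (fun _ => (1 : k)) a, CohBase_e k, CohBase_sec k, CohBase_cech k⟩

end Pool.Agent.MP_6e5bed_ag_UD
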