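import Mathlib

set_option autoImplicit false

/-!
# MP_6e5bed_ag, universal domains: embeddings
-/

namespace Pool.Agent.MP_6e5bed_ag_UD

universe u

/-- A finitely generated extension of `k` embeds in every algebraically closed field over `k` of
infinite transcendence degree. (`L` has a finite transcendence basis `b` over `k`; choose
algebraically independent elements of `Ω`; `k(b) → Ω` extends to the algebraic extension `L` of
`k(b)`, `IsAlgClosed.lift`.) -/
theorem exists_emb (k L Ω : Type u) [Field k] [Field L] [Algebra k L] [Algebra.EssFiniteType k L]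
    [Field Ω] [Algebra k Ω] [IsAlgClosed Ω]
    (h : ∀ m : ℕ, ∃ t : Fin m → Ω, AlgebraicIndependent k t) : Nonempty (L →ₐ[k] Ω) := by
  obtain ⟨s, hs⟩ := exists_isTranscendenceBasis k L
  have hfin : Finite s := finite_of_isTranscendenceBasis hs
  obtain ⟨m, ⟨e⟩⟩ := Finite.exists_equiv_fin s
  obtain ⟨t, ht⟩ := h m
  have ht' : AlgebraicIndependent k (t ∘ e) := ht.comp e e.injective
  have halg := hs.isAlgebraic_field
  let φ : IntermediateField.adjoin k (Set.range ((↑) : s → L)) →ₐ[k] Ω :=
    (IntermediateField.val _).comp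
      ((hs.1.aevalEquivField.symm.trans ht'.aevalEquivField).toAlgHom)
  obtain ⟨ψ, -⟩ := IsAlgClosed.surjective_domRestrict_of_isAlgebraic (K := k) (M := Ω)
    (E := L) φ
  exact ⟨ψ⟩

/-- There are such fields. (`AlgebraicClosure (FractionRing (MvPolynomial ℕ k))`) -/
theorem exists_ud (k : Type u) [Field k] : ∃ (Ω : Type u) (_ : Field Ω) (_ : Algebra k Ω),
    IsAlgClosed Ω ∧ ∀ m : ℕ, ∃ t : Fin m → Ω, AlgebraicIndependent k t := by
  refine ⟨AlgebraicClosure (FractionRing (MvPolynomial ℕ k)), inferInstance, inferInstance,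
    inferInstance, fun m => ?_⟩
  have h1 : AlgebraicIndependent k (MvPolynomial.X : ℕ → MvPolynomial ℕ k) :=
    MvPolynomial.algebraicIndependent_X ℕ k
  let f1 : MvPolynomial ℕ k →ₐ[k] FractionRing (MvPolynomial ℕ k) :=
    IsScalarTower.toAlgHom k _ _
  let f2 : FractionRing (MvPolynomial ℕ k) →ₐ[k]
      AlgebraicClosure (FractionRing (MvPolynomial ℕ k)) :=
    IsScalarTower.toAlgHom k _ _
  have hf1 : Function.Injective f1 :=
    IsFractionRing.injective (MvPolynomial ℕ k) (FractionRing (MvPolynomial ℕ k))
  have hf2 : Function.Injective f2 := f2.toRingHom.injective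
  have h2 : AlgebraicIndependent k (⇑(f2.comp f1) ∘ (MvPolynomial.X : ℕ → MvPolynomial ℕ k)) :=
    h1.map' (f := f2.comp f1) (hf2.comp hf1)
  exact ⟨_, h2.comp (fun i : Fin m => (i : ℕ)) Fin.val_injective⟩

/-- Zariski's lemma for the descent: `L` and the finitely generated `k`-algebra `U` are contained in
the field `K`; then there are a finite extension `f : L → L'` and a map `g : U → L'` which agree on
the elements of `U ∩ L`. (`R = Algebra.adjoin L U ⊆ K` is a finitely generated `L`-algebra, `L'` is a
residue field of `R`; `finite_of_finite_type_of_isJacobsonRing`.) -/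
theorem exists_finite_point {k L K : Type u} [Field k] [Field L] [Field K] [Algebra k L]
    [Algebra k K] (j : L →ₐ[k] K) (U : Subalgebra k K) (hU : U.FG) :
    ∃ (L' : Type u) (_ : Field L') (_ : Algebra k L') (f : L →ₐ[k] L') (g : U →ₐ[k] L'),
      f.toRingHom.Finite ∧ ∀ (c : L) (x : U), j c = x → f c = g x := by
  letI : Algebra L K := j.toRingHom.toAlgebra
  haveI : IsScalarTower k L K := IsScalarTower.of_algebraMap_eq fun x => (j.commutes x).symm
  obtain ⟨t, ht⟩ := hU
  let R : Subalgebra L K := Algebra.adjoin L (t : Set K)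
  have hUR : ∀ x ∈ U, x ∈ R := by
    intro x hx
    rw [← ht] at hx
    have h1 : Algebra.adjoin k (t : Set K) ≤ R.restrictScalars k :=
      Algebra.adjoin_le fun y hy => Algebra.subset_adjoin hy
    exact h1 hx
  haveI : Algebra.FiniteType L R :=
    (Subalgebra.fg_iff_finiteType R).mp ⟨t, rfl⟩
  obtain ⟨m, hm⟩ := Ideal.exists_maximal R
  letI : Field (R ⧸ m) := Ideal.Quotient.field m
  letI : Algebra k (R ⧸ m) := ((algebraMap L (R ⧸ m)).comp (algebraMap k L)).toAlgebra
  haveI hfin : Module.Finite L (R ⧸ m) := finite_of_finite_type_of_isJacobsonRing L (R ⧸ m)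
  let f : L →ₐ[k] (R ⧸ m) := { algebraMap L (R ⧸ m) with commutes' := fun _ => rfl }
  let g0 : U →+* R :=
    { toFun := fun x => ⟨x, hUR x x.2⟩
      map_one' := rfl
      map_mul' := fun _ _ => rfl
      map_zero' := rfl
      map_add' := fun _ _ => rfl }
  let g : U →ₐ[k] (R ⧸ m) :=
    { (Ideal.Quotient.mk m).comp g0 with
      commutes' := fun r => by
        show Ideal.Quotient.mk m (g0 (algebraMap k U r)) =
          Ideal.Quotient.mk m (algebraMap L R (algebraMap k L r))
        congr 1
        apply Subtype.ext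
        show algebraMap k K r = j (algebraMap k L r)
        exact (j.commutes r).symm }
  refine ⟨R ⧸ m, inferInstance, inferInstance, f, g, ?_, ?_⟩
  · show (algebraMap L (R ⧸ m)).Finite
    exact RingHom.finite_algebraMap.mpr hfin
  · intro c x hcx
    show Ideal.Quotient.mk m (algebraMap L R c) = Ideal.Quotient.mk m (g0 x)
    congr 1
    apply Subtype.ext
    exact hcx

end Pool.Agent.MP_6e5bed_ag_UD
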