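import Pool.Agent.Lib.MP_6e5bed_ag_UD.Tr
import Pool.Agent.Lib.MP_6e5bed_ag_UD.Emb

set_option autoImplicit false
set_option linter.unusedVariables false

/-!
# MP_6e5bed_ag, universal domains: descent to subfields
-/

noncomputable section

namespace Pool.Agent.MP_6e5bed_ag_UD

open Pool.Agent.MP_6e5bed_ag_NC Pool.Agent.MP_6e5bed_ag_WW

universe u

variable {k : Type u} [Field k] {T : DGA k} {ι : Type (u + 1)} {T' : ι → DGA k}
  (hp' : ∀ a, Proper (T' a)) (y : ∀ a, K0Q (T' a) T)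

/-- A class over the field `L` which factors through the `y a` over a larger field `K` factors
through the `y a`. (`K0Q.exists_cf` for `L`: `x = cf x₀` with `x₀` over `S₀ ⊆ L`; transport to the
image `S₁ = S₀.map j ⊆ K`; `spread_JB` gives `U ≥ S₁`; `exists_finite_point` and `cf_mem_JB` give
`cf f x ∈ JB L'`; `mem_JB_of_finite`.) -/
theorem mem_JB_of_field {L K : Type u} [Field L] [Field K] [Algebra k L] [Algebra k K]
    (j : L →ₐ[k] K) (x : K0Q ((base k).bc L) (T.bc L)) (hx : K0Q.cf j x ∈ JB hp' y K) :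
    x ∈ JB hp' y L := by
  obtain ⟨S₀, x₀, rfl⟩ := K0Q.exists_cf x
  obtain ⟨S₁, hS₁⟩ : ∃ S₁ : FGS k K, S₁.1 = S₀.1.map j := ⟨⟨S₀.1.map j, S₀.2.map j⟩, rfl⟩
  have hmem : ∀ s : S₀.1, j s.1 ∈ S₁.1 := fun s => by
    rw [hS₁]
    exact ⟨s.1, s.2, rfl⟩
  obtain ⟨e, he⟩ : ∃ e : S₀.1 →ₐ[k] S₁.1, ∀ s, ((e s : S₁.1) : K) = j s.1 :=
    ⟨(j.comp S₀.1.val).codRestrict S₁.1 hmem, fun s => rfl⟩
  have h1 : K0Q.cf S₁.val (K0Q.cf e x₀) ∈ JB hp' y K := by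
    rw [K0Q.cf_cf' e S₁.val (j.comp S₀.val) (fun s => he s),
      ← K0Q.cf_cf' S₀.val j (j.comp S₀.val) (fun s => rfl)]
    exact hx
  obtain ⟨U, h, h2⟩ := spread_JB hp' y (K0Q.cf e x₀) h1
  obtain ⟨L', i1, i2, f, g, hf, hfg⟩ := exists_finite_point j U.1 U.2
  have h3 := cf_mem_JB hp' y g h2
  refine mem_JB_of_finite hp' y f hf (K0Q.cf S₀.val x₀) ?_
  have h4 : K0Q.cf f (K0Q.cf S₀.val x₀) = K0Q.cf g (K0Q.cf (FGS.inc h) (K0Q.cf e x₀)) := by
    rw [K0Q.cf_cf' S₀.val f (f.comp S₀.val) (fun s => rfl),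
      K0Q.cf_cf' e (FGS.inc h) ((FGS.inc h).comp e) (fun s => rfl),
      K0Q.cf_cf' ((FGS.inc h).comp e) g (f.comp S₀.val) (fun s => ?_)]
    exact (hfg s.1 (FGS.inc h (e s)) (he s).symm).symm
  rw [h4]
  exact h3

/-- The version for `JU`. -/
theorem JU_of_field {L K : Type u} [Field L] [Field K] [Algebra k L] [Algebra k K]
    (j : L →ₐ[k] K) (h : ∀ x : K0Q (ring k K) T, x ∈ JU (ring k K) hp' y)
    (x : K0Q (ring k L) T) : x ∈ JU (ring k L) hp' y := by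
  obtain ⟨x, rfl⟩ := (psiK_bij (k := k) L (B := T)).2 x
  exact (psiK_mem_iff hp' y x).2 (mem_JB_of_field hp' y j x ((psiK_mem_iff hp' y _).1 (h _)))

end Pool.Agent.MP_6e5bed_ag_UD
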