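import Pool.Agent.Lib.MP_6e5bed_ag_UD.DsT

set_option autoImplicit false
set_option linter.unusedVariables false
set_option linter.unusedSectionVars false

/-!
# MP_6e5bed_ag, universal domains: graded algebras are defined over finitely generated subfields
-/

noncomputable section

namespace Pool.Agent.MP_6e5bed_ag_UD

open MvPolynomial Pool.Agent.MP_6e5bed_ag_Pn
open scoped TensorProduct

universe u

variable {ν : ℕ} {K Γ : Type u} [Field K] [Ring Γ] [Algebra K Γ]
  [Algebra (MvPolynomial (Fin (ν + 1)) K) Γ] [IsScalarTower K (MvPolynomial (Fin (ν + 1)) K) Γ]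
  {𝒢 : ℕ → Submodule K Γ}

/-- the element `∑ p i • g i` -/
private def dsaLc (F : Subfield K) {N : ℕ} (g : Fin N → Γ)
    (p : Fin N → MvPolynomial (Fin (ν + 1)) F) : Γ :=
  ∑ i, MvPolynomial.map (algebraMap F K) (p i) • g i

section form

variable {N : ℕ} {g : Fin N → Γ} {d : Fin N → ℕ} {F : Subfield K}

private theorem dsaLc_single (i : Fin N) (q : MvPolynomial (Fin (ν + 1)) F) :
    dsaLc F g (Pi.single i q) = MvPolynomial.map (algebraMap F K) q • g i := by
  unfold dsaLc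
  rw [Finset.sum_eq_single i]
  · rw [Pi.single_eq_same]
  · intro j _ hj
    rw [Pi.single_eq_of_ne hj, map_zero, zero_smul]
  · intro h
    exact absurd (Finset.mem_univ i) h

private theorem dsaLc_add (p q : Fin N → MvPolynomial (Fin (ν + 1)) F) :
    dsaLc F g (p + q) = dsaLc F g p + dsaLc F g q := by
  unfold dsaLc
  rw [← Finset.sum_add_distrib]
  refine Finset.sum_congr rfl (fun i _ => ?_)
  rw [Pi.add_apply, map_add, add_smul]

private theorem dsaLc_smul (q : MvPolynomial (Fin (ν + 1)) F)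
    (p : Fin N → MvPolynomial (Fin (ν + 1)) F) :
    dsaLc F g (fun i => q * p i) = MvPolynomial.map (algebraMap F K) q • dsaLc F g p := by
  unfold dsaLc
  rw [Finset.smul_sum]
  refine Finset.sum_congr rfl (fun i _ => ?_)
  rw [map_mul, mul_smul]

variable (ν F g) in
/-- the elements `∑ p i • g i` -/
private def dsaR : AddSubmonoid Γ where
  carrier := {a | ∃ p : Fin N → MvPolynomial (Fin (ν + 1)) F, dsaLc F g p = a}
  add_mem' := by
    rintro _ _ ⟨p, rfl⟩ ⟨q, rfl⟩
    exact ⟨p + q, dsaLc_add p q⟩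
  zero_mem' := ⟨0, by
    unfold dsaLc
    simp⟩

private theorem dsaR_smul (q : MvPolynomial (Fin (ν + 1)) F) {a : Γ} (ha : a ∈ dsaR ν g F) :
    MvPolynomial.map (algebraMap F K) q • a ∈ dsaR ν g F := by
  obtain ⟨p, rfl⟩ := ha
  exact ⟨_, dsaLc_smul q p⟩

private theorem dsaR_g (i : Fin N) : g i ∈ dsaR ν g F :=
  ⟨Pi.single i 1, by rw [dsaLc_single, map_one, one_smul]⟩

private theorem dsaR_mul (ht : IsTable ν 𝒢 g d F) {a b : Γ} (ha : a ∈ dsaR ν g F)
    (hb : b ∈ dsaR ν g F) : a * b ∈ dsaR ν g F := by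
  obtain ⟨p, rfl⟩ := ha
  obtain ⟨q, rfl⟩ := hb
  unfold dsaLc
  rw [Finset.sum_mul]
  refine AddSubmonoid.sum_mem _ (fun i _ => ?_)
  rw [Finset.mul_sum]
  refine AddSubmonoid.sum_mem _ (fun j _ => ?_)
  rw [smul_mul_smul_comm, ← map_mul]
  refine dsaR_smul _ ?_
  obtain ⟨c, hc⟩ := ht.mul i j
  rw [hc]
  exact ⟨c, rfl⟩

private theorem dsaR_one (ht : IsTable ν 𝒢 g d F) : (1 : Γ) ∈ dsaR ν g F := by
  obtain ⟨i, hi⟩ := ht.one
  rw [← hi]
  exact dsaR_g i

/-- the algebra `Γ₀` -/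
private def dsaG (ht : IsTable ν 𝒢 g d F) : Subring Γ where
  carrier := {a | a ∈ dsaR ν g F}
  mul_mem' := fun ha hb => dsaR_mul ht ha hb
  one_mem' := dsaR_one ht
  add_mem' := fun ha hb => (dsaR ν g F).add_mem ha hb
  zero_mem' := (dsaR ν g F).zero_mem
  neg_mem' := by
    intro a ha
    have h1 := dsaR_smul (-1 : MvPolynomial (Fin (ν + 1)) F) ha
    rwa [map_neg, map_one, neg_smul, one_smul] at h1

private theorem dsaG_alg (ht : IsTable ν 𝒢 g d F) (q : MvPolynomial (Fin (ν + 1)) F) :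
    algebraMap (MvPolynomial (Fin (ν + 1)) K) Γ (MvPolynomial.map (algebraMap F K) q) ∈
      dsaG ht := by
  rw [Algebra.algebraMap_eq_smul_one]
  exact dsaR_smul q (dsaR_one ht)

variable (ht : IsTable ν 𝒢 g d F)

/-- the structure map -/
private def dsaP : MvPolynomial (Fin (ν + 1)) F →+* dsaG ht where
  toFun q := ⟨algebraMap (MvPolynomial (Fin (ν + 1)) K) Γ (MvPolynomial.map (algebraMap F K) q),
    dsaG_alg ht q⟩
  map_one' := Subtype.ext (by
    change algebraMap (MvPolynomial (Fin (ν + 1)) K) Γ (MvPolynomial.map (algebraMap F K) 1) = 1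
    rw [map_one, map_one])
  map_mul' p q := Subtype.ext (by
    change algebraMap (MvPolynomial (Fin (ν + 1)) K) Γ
      (MvPolynomial.map (algebraMap F K) (p * q)) = _
    rw [map_mul, map_mul]
    rfl)
  map_zero' := Subtype.ext (by
    change algebraMap (MvPolynomial (Fin (ν + 1)) K) Γ (MvPolynomial.map (algebraMap F K) 0) = 0
    rw [map_zero, map_zero])
  map_add' p q := Subtype.ext (by
    change algebraMap (MvPolynomial (Fin (ν + 1)) K) Γ
      (MvPolynomial.map (algebraMap F K) (p + q)) = _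
    rw [map_add, map_add]
    rfl)

@[implicit_reducible]
private def dsaIP : Algebra (MvPolynomial (Fin (ν + 1)) F) (dsaG ht) :=
  (dsaP ht).toAlgebra' (fun c x => Subtype.ext (Algebra.commutes _ _))

@[implicit_reducible]
private def dsaIF : Algebra F (dsaG ht) :=
  ((dsaP ht).comp C).toAlgebra' (fun c x => Subtype.ext (Algebra.commutes _ _))

attribute [local instance] dsaIP dsaIF

private theorem dsaTow : IsScalarTower F (MvPolynomial (Fin (ν + 1)) F) (dsaG ht) :=
  IsScalarTower.of_algebraMap_eq (fun c => rfl)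

attribute [local instance] dsaTow

private theorem dsa_smul (q : MvPolynomial (Fin (ν + 1)) F) (y : dsaG ht) :
    ((q • y : dsaG ht) : Γ) = MvPolynomial.map (algebraMap F K) q • (y : Γ) := by
  rw [Algebra.smul_def q y, Algebra.smul_def]
  rfl

/-- the inclusion of `Γ₀` in `Γ` -/
private def dsaV : dsaG ht →ₐ[F] Γ :=
  { (dsaG ht).subtype with
    commutes' := fun c => by
      change algebraMap (MvPolynomial (Fin (ν + 1)) K) Γ
        (MvPolynomial.map (algebraMap F K) (C c)) = _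
      rw [MvPolynomial.map_C, IsScalarTower.algebraMap_apply F K Γ,
        IsScalarTower.algebraMap_apply K (MvPolynomial (Fin (ν + 1)) K) Γ]
      rfl }

private theorem dsaV_apply (y : dsaG ht) : dsaV ht y = (y : Γ) := rfl

/-- the generators -/
private def dsag (i : Fin N) : dsaG ht := ⟨g i, dsaR_g i⟩

private theorem dsa_expand (a : dsaG ht) : ∃ p : Fin N → MvPolynomial (Fin (ν + 1)) F,
    a = ∑ i, p i • dsag ht i := by
  obtain ⟨a, p, rfl⟩ := a
  refine ⟨p, Subtype.ext ?_⟩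
  rw [AddSubmonoidClass.coe_finsetSum]
  change dsaLc F g p = _
  exact Finset.sum_congr rfl (fun i _ => (dsa_smul ht (p i) (dsag ht i)).symm)

/-- the grading of `Γ₀` -/
private def dsaGr (n : ℕ) : Submodule F (dsaG ht) :=
  Submodule.comap (dsaV ht).toLinearMap ((𝒢 n).restrictScalars F)

private theorem mem_dsaGr {n : ℕ} {y : dsaG ht} : y ∈ dsaGr ht n ↔ (y : Γ) ∈ 𝒢 n := Iff.rfl

private theorem dsa_indep (h : IsGr ν 𝒢) : iSupIndep (dsaGr ht) := by
  intro n
  rw [Submodule.disjoint_def]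
  intro x hx hx'
  have h1 : (x : Γ) ∈ 𝒢 n := hx
  have h2 : (⨆ j, ⨆ (_ : j ≠ n), dsaGr ht j) ≤ Submodule.comap (dsaV ht).toLinearMap
      ((⨆ j, ⨆ (_ : j ≠ n), 𝒢 j).restrictScalars F) :=
    iSup₂_le fun j hj y hy => by
      have h3 : (y : Γ) ∈ 𝒢 j := hy
      exact Submodule.mem_iSup_of_mem j (Submodule.mem_iSup_of_mem hj h3)
  have h3 : (x : Γ) ∈ ⨆ j, ⨆ (_ : j ≠ n), 𝒢 j := h2 hx'
  exact Subtype.ext (Submodule.disjoint_def.1 (h.int.submodule_iSupIndep n) x h1 h3)

private theorem dsa_top (h : IsGr ν 𝒢) : (⨆ n, dsaGr ht n) = ⊤ := by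
  have hX : ∀ (i : Fin (ν + 1)) (y : dsaG ht), y ∈ (⨆ n, dsaGr ht n) →
      dsaP ht (X i) * y ∈ (⨆ n, dsaGr ht n) := by
    intro i
    have h1 : (⨆ n, dsaGr ht n) ≤ Submodule.comap (LinearMap.mulLeft F (dsaP ht (X i)))
        (⨆ n, dsaGr ht n) := by
      refine iSup_le fun n y hy => ?_
      refine Submodule.mem_iSup_of_mem (1 + n) ?_
      change ((dsaP ht (X i) * y : dsaG ht) : Γ) ∈ 𝒢 (1 + n)
      refine h.mul 1 n _ _ ?_ hy
      change algebraMap (MvPolynomial (Fin (ν + 1)) K) Γ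
        (MvPolynomial.map (algebraMap F K) (X i)) ∈ 𝒢 1
      rw [MvPolynomial.map_X]
      exact h.var i
    exact fun y hy => h1 hy
  have hq : ∀ (q : MvPolynomial (Fin (ν + 1)) F) (y : dsaG ht), y ∈ (⨆ n, dsaGr ht n) →
      dsaP ht q * y ∈ (⨆ n, dsaGr ht n) := by
    intro q
    induction q using MvPolynomial.induction_on with
    | C c =>
      intro y hy
      have h1 : dsaP ht (C c) * y = c • y := (Algebra.smul_def c y).symm
      rw [h1]
      exact Submodule.smul_mem _ c hy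
    | add p q hp hq =>
      intro y hy
      rw [map_add, add_mul]
      exact Submodule.add_mem _ (hp y hy) (hq y hy)
    | mul_X p i hp =>
      intro y hy
      rw [map_mul, mul_assoc]
      exact hp _ (hX i y hy)
  rw [eq_top_iff]
  intro a _
  obtain ⟨p, rfl⟩ := dsa_expand ht a
  refine Submodule.sum_mem _ (fun i _ => ?_)
  rw [Algebra.smul_def]
  refine hq (p i) _ ?_
  refine Submodule.mem_iSup_of_mem (d i) ?_
  exact ht.hom i

private theorem dsa_isGr (h : IsGr ν 𝒢) : IsGr ν (dsaGr ht) where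
  int := (DirectSum.isInternal_submodule_iff_iSupIndep_and_iSup_eq_top _).2
    ⟨dsa_indep ht h, dsa_top ht h⟩
  one := h.one
  mul p q a b ha hb := h.mul p q _ _ ha hb
  var i := by
    change algebraMap (MvPolynomial (Fin (ν + 1)) K) Γ
      (MvPolynomial.map (algebraMap F K) (X i)) ∈ 𝒢 1
    rw [MvPolynomial.map_X]
    exact h.var i
  fin := by
    refine Module.Finite.of_surjective
      (Fintype.linearCombination (MvPolynomial (Fin (ν + 1)) F) (dsag ht)) (fun a => ?_)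
    obtain ⟨p, hp⟩ := dsa_expand ht a
    exact ⟨p, by rw [Fintype.linearCombination_apply, hp]⟩

/-- the map `c ⊗ a ↦ c a` -/
private def dsaF : GK F K (dsaG ht) →ₐ[K] Γ :=
  (Algebra.TensorProduct.lift (R := F) (S := K) (A := K) (B := dsaG ht) (C := Γ)
    (Algebra.ofId K Γ) (dsaV ht) (fun c a => Algebra.commutes c (a : Γ)) :
    K ⊗[F] (dsaG ht) →ₐ[K] Γ)

private theorem dsaF_tm (c : K) (a : dsaG ht) : dsaF ht (tm (k := F) K c a) = c • (a : Γ) := by
  refine (Algebra.TensorProduct.lift_tmul _ _ _ c a).trans ?_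
  rw [Algebra.smul_def]
  rfl

private theorem dsaF_inc (a : dsaG ht) : dsaF ht (GK.inc (k := F) K (dsaG ht) a) = (a : Γ) := by
  have h1 : GK.inc (k := F) K (dsaG ht) a = tm (k := F) K 1 a := rfl
  rw [h1, dsaF_tm, one_smul]

private theorem dsaF_alg (p : MvPolynomial (Fin (ν + 1)) K) :
    dsaF ht (algebraMap (MvPolynomial (Fin (ν + 1)) K) (GK F K (dsaG ht)) p) =
      algebraMap (MvPolynomial (Fin (ν + 1)) K) Γ p := by
  induction p using MvPolynomial.induction_on with
  | C c =>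
    have h1 : algebraMap (MvPolynomial (Fin (ν + 1)) K) (GK F K (dsaG ht)) (C c) =
        algebraMap K (GK F K (dsaG ht)) c :=
      (IsScalarTower.algebraMap_apply K (MvPolynomial (Fin (ν + 1)) K) (GK F K (dsaG ht)) c).symm
    have h2 : algebraMap (MvPolynomial (Fin (ν + 1)) K) Γ (C c) = algebraMap K Γ c :=
      (IsScalarTower.algebraMap_apply K (MvPolynomial (Fin (ν + 1)) K) Γ c).symm
    rw [h1, h2, AlgHom.commutes]
  | add p q hp hq => rw [map_add, map_add, map_add, hp, hq]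
  | mul_X p i hp =>
    rw [map_mul, map_mul, map_mul, hp, GK.algebraMap_X, dsaF_inc]
    congr 1
    change algebraMap (MvPolynomial (Fin (ν + 1)) K) Γ
      (MvPolynomial.map (algebraMap F K) (X i)) = _
    rw [MvPolynomial.map_X]

private theorem dsaF_smul (p : MvPolynomial (Fin (ν + 1)) K) (z : GK F K (dsaG ht)) :
    dsaF ht (p • z) = p • dsaF ht z := by
  rw [Algebra.smul_def, map_mul, dsaF_alg, Algebra.smul_def]

private theorem dsaF_sum (v : Fin N → MvPolynomial (Fin (ν + 1)) K) :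
    dsaF ht (∑ i, v i • GK.inc (k := F) K (dsaG ht) (dsag ht i)) = ∑ i, v i • g i := by
  rw [map_sum]
  refine Finset.sum_congr rfl (fun i _ => ?_)
  rw [dsaF_smul, dsaF_inc]
  rfl

private theorem dsa_map_smul (p : MvPolynomial (Fin (ν + 1)) F) (y : dsaG ht) :
    MvPolynomial.map (algebraMap F K) p • GK.inc (k := F) K (dsaG ht) y = GK.inc (k := F) K (dsaG ht) (p • y) := by
  exact map_smul_tm K p 1 y

private theorem dsa_span (z : GK F K (dsaG ht)) :
    ∃ v : Fin N → MvPolynomial (Fin (ν + 1)) K,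
      ∑ i, v i • GK.inc (k := F) K (dsaG ht) (dsag ht i) = z := by
  refine (Submodule.mem_span_range_iff_exists_fun (MvPolynomial (Fin (ν + 1)) K)).1 ?_
  have h1 : ∀ a : dsaG ht, GK.inc (k := F) K (dsaG ht) a ∈ Submodule.span (MvPolynomial (Fin (ν + 1)) K)
      (Set.range fun i => GK.inc (k := F) K (dsaG ht) (dsag ht i)) := by
    intro a
    obtain ⟨p, rfl⟩ := dsa_expand ht a
    rw [map_sum]
    refine Submodule.sum_mem _ (fun i _ => ?_)
    rw [← dsa_map_smul]
    exact Submodule.smul_mem _ _ (Submodule.subset_span ⟨i, rfl⟩)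
  have h2 : ∀ w : K ⊗[F] (dsaG ht), (w : GK F K (dsaG ht)) ∈
      Submodule.span (MvPolynomial (Fin (ν + 1)) K)
        (Set.range fun i => GK.inc (k := F) K (dsaG ht) (dsag ht i)) := by
    intro w
    induction w using TensorProduct.induction_on with
    | zero => exact Submodule.zero_mem _
    | tmul c a =>
      have h3 : (c ⊗ₜ[F] a : K ⊗[F] (dsaG ht)) =
          (c • (GK.inc (k := F) K (dsaG ht) a) : GK F K (dsaG ht)) := by
        change c ⊗ₜ[F] a = c • ((1 : K) ⊗ₜ[F] a : K ⊗[F] (dsaG ht))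
        rw [TensorProduct.smul_tmul', smul_eq_mul, mul_one]
      rw [h3, ← algebraMap_smul (MvPolynomial (Fin (ν + 1)) K) c (GK.inc (k := F) K (dsaG ht) a)]
      exact Submodule.smul_mem _ _ (h1 a)
    | add x y hx hy => exact Submodule.add_mem _ hx hy
  exact h2 z

private theorem dsaF_inj : Function.Injective (dsaF ht) := by
  rw [injective_iff_map_eq_zero]
  intro z hz
  obtain ⟨v, rfl⟩ := dsa_span ht z
  rw [dsaF_sum] at hz
  have h1 : v ∈ LinearMap.ker (Fintype.linearCombination (MvPolynomial (Fin (ν + 1)) K)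
      (fun i => GK.inc (k := F) K (dsaG ht) (dsag ht i))) := by
    refine Submodule.span_le.2 ?_ (ht.rel v hz)
    rintro _ ⟨w, hw, rfl⟩
    change Fintype.linearCombination (MvPolynomial (Fin (ν + 1)) K)
      (fun i => GK.inc (k := F) K (dsaG ht) (dsag ht i)) (fun i => MvPolynomial.map (algebraMap F K) (w i))
      = 0
    rw [Fintype.linearCombination_apply]
    have h2 : ∑ i, w i • dsag ht i = 0 := by
      refine Subtype.ext ?_
      rw [AddSubmonoidClass.coe_finsetSum]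
      refine Eq.trans (Finset.sum_congr rfl (fun i _ => dsa_smul ht (w i) (dsag ht i))) ?_
      exact hw
    rw [Finset.sum_congr rfl (fun i _ => dsa_map_smul ht (w i) (dsag ht i)), ← map_sum, h2,
      map_zero]
  rw [LinearMap.mem_ker, Fintype.linearCombination_apply] at h1
  exact h1

private theorem dsaF_surj : Function.Surjective (dsaF ht) := by
  intro a
  have h1 : a ∈ Submodule.span (MvPolynomial (Fin (ν + 1)) K) (Set.range g) := by
    rw [ht.gen]
    trivial
  obtain ⟨v, rfl⟩ := (Submodule.mem_span_range_iff_exists_fun (MvPolynomial (Fin (ν + 1)) K)).1 h1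
  exact ⟨_, dsaF_sum ht v⟩

private theorem dsaF_gr (n : ℕ) : ∀ z ∈ GK.gr K (dsaGr ht) n, dsaF ht z ∈ 𝒢 n := by
  refine gr_ind K ?_ (fun c a ha => ?_) (fun z w hz hw => ?_)
  · rw [map_zero]
    exact Submodule.zero_mem _
  · rw [dsaF_tm]
    exact Submodule.smul_mem _ c ha
  · rw [map_add]
    exact Submodule.add_mem _ hz hw

private theorem dsaF_gr_iff (h : IsGr ν 𝒢) (n : ℕ) (z : GK F K (dsaG ht)) :
    z ∈ GK.gr K (dsaGr ht) n ↔ dsaF ht z ∈ 𝒢 n := by
  refine ⟨dsaF_gr ht n z, fun hz => ?_⟩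
  have hK := GK.isGr K (dsa_isGr ht h)
  have h1 : z ∈ GK.gr K (dsaGr ht) n ⊔ ⨆ j, ⨆ (_ : j ≠ n), GK.gr K (dsaGr ht) j := by
    rw [← iSup_split_single, hK.int.submodule_iSup_eq_top]
    trivial
  obtain ⟨y, hy, w, hw, rfl⟩ := Submodule.mem_sup.1 h1
  have h2 : (⨆ j, ⨆ (_ : j ≠ n), GK.gr K (dsaGr ht) j) ≤ Submodule.comap
      (dsaF ht).toLinearMap (⨆ j, ⨆ (_ : j ≠ n), 𝒢 j) :=
    iSup₂_le fun j hj x hx =>
      Submodule.mem_iSup_of_mem j (Submodule.mem_iSup_of_mem hj (dsaF_gr ht j x hx))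
  have h3 : dsaF ht w ∈ ⨆ j, ⨆ (_ : j ≠ n), 𝒢 j := h2 hw
  have h4 : dsaF ht w ∈ 𝒢 n := by
    rw [map_add] at hz
    have h5 := Submodule.sub_mem _ hz (dsaF_gr ht n y hy)
    rwa [add_sub_cancel_left] at h5
  have h5 := Submodule.disjoint_def.1 (h.int.submodule_iSupIndep n) _ h4 h3
  have h6 : w = 0 := dsaF_inj ht (h5.trans (map_zero _).symm)
  rw [h6, add_zero]
  exact hy

end form

/-- If the table is defined over `F`, then `Γ₀ = ∑ F[x] g_i ⊆ Γ` is a subring and a graded algebra over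
`F[x]` (an element of `Γ₀` is homogeneous of degree `n` if it is so in `Γ`; the homogeneous components
of `∑ p_i g_i` are `∑ (p_i)_{n - d_i} g_i`), and `K ⊗ Γ₀ → Γ`, `c ⊗ a ↦ c a`, is bijective: it is
surjective since every polynomial over `K` is a `K`-combination of monomials. It is injective: let
`∑ b_β a_β = 0` with the `b_β` in a basis of `K` over `F` and `a_β = ∑_i p_{β,i} g_i`; the vector
`(∑_β b_β p_{β,i})_i` is a relation, so it is a sum `∑_r q_r w_r` with relations `w_r` over `F` and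
`q_r ∈ K[x]`; `q_r = ∑_β b_β q_{r,β}` with `q_{r,β} ∈ F[x]`, and comparing the coefficients of `b_β`
we see that `(p_{β,i})_i = ∑_r q_{r,β} w_r` is a relation, that is, `a_β = 0`. -/
theorem form_of_table (h : IsGr ν 𝒢) {N : ℕ} {g : Fin N → Γ} {d : Fin N → ℕ} {F : Subfield K}
    (ht : IsTable ν 𝒢 g d F) :
    ∃ (Γ₀ : Type u) (_ : Ring Γ₀) (_ : Algebra F Γ₀)
      (_ : Algebra (MvPolynomial (Fin (ν + 1)) F) Γ₀)
      (_ : IsScalarTower F (MvPolynomial (Fin (ν + 1)) F) Γ₀) (𝒢₀ : ℕ → Submodule F Γ₀),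
      IsGr ν 𝒢₀ ∧ ∃ φ : GK F K Γ₀ ≃+* Γ,
        (∀ p : MvPolynomial (Fin (ν + 1)) K, φ (algebraMap (MvPolynomial (Fin (ν + 1)) K)
          (GK F K Γ₀) p) = algebraMap (MvPolynomial (Fin (ν + 1)) K) Γ p) ∧
        ∀ n a, a ∈ GK.gr K 𝒢₀ n ↔ φ a ∈ 𝒢 n := by
  refine ⟨dsaG ht, inferInstance, dsaIF ht, dsaIP ht, dsaTow ht, dsaGr ht, dsa_isGr ht h,
    RingEquiv.ofBijective (dsaF ht) ⟨dsaF_inj ht, dsaF_surj ht⟩, dsaF_alg ht,
    fun n a => dsaF_gr_iff ht h n a⟩

/-- A graded algebra which is finite over the polynomial ring is defined over a finitely generated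
field. -/
theorem exists_form (h : IsGr ν 𝒢) : ∃ s : Finset K, ∀ F : Subfield K, (s : Set K) ⊆ F →
    ∃ (Γ₀ : Type u) (_ : Ring Γ₀) (_ : Algebra F Γ₀)
      (_ : Algebra (MvPolynomial (Fin (ν + 1)) F) Γ₀)
      (_ : IsScalarTower F (MvPolynomial (Fin (ν + 1)) F) Γ₀) (𝒢₀ : ℕ → Submodule F Γ₀),
      IsGr ν 𝒢₀ ∧ ∃ φ : GK F K Γ₀ ≃+* Γ,
        (∀ p : MvPolynomial (Fin (ν + 1)) K, φ (algebraMap (MvPolynomial (Fin (ν + 1)) K)
          (GK F K Γ₀) p) = algebraMap (MvPolynomial (Fin (ν + 1)) K) Γ p) ∧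
        ∀ n a, a ∈ GK.gr K 𝒢₀ n ↔ φ a ∈ 𝒢 n := by
  obtain ⟨N, g, d, s, hs⟩ := exists_table h
  exact ⟨s, fun F hF => form_of_table h (hs F hF)⟩

end Pool.Agent.MP_6e5bed_ag_UD
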