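import Pool.Agent.Lib.MP_6e5bed_ag_GG.TBc

set_option autoImplicit false
set_option linter.unusedVariables false

/-!
# MP_6e5bed_ag, universal domains: the Čech dg algebras of isomorphic graded algebras, base change
-/

noncomputable section

namespace Pool.Agent.MP_6e5bed_ag_UD

open MvPolynomial Pool.Agent.MP_6e5bed_ag_Pn
open Pool.Agent.MP_6e5bed_ag_SP (DG IsBc)
open scoped TensorProduct

universe u

section

variable {ν : ℕ} {K Γ : Type u} [Field K] [Ring Γ] [Algebra K Γ]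
  [Algebra (MvPolynomial (Fin (ν + 1)) K) Γ] [IsScalarTower K (MvPolynomial (Fin (ν + 1)) K) Γ]
  {𝒢 : ℕ → Submodule K Γ}

private theorem DsB_C {Γ' : Type u} [Ring Γ'] [Algebra K Γ']
    [Algebra (MvPolynomial (Fin (ν + 1)) K) Γ']
    [IsScalarTower K (MvPolynomial (Fin (ν + 1)) K) Γ'] (c : K) :
    algebraMap (MvPolynomial (Fin (ν + 1)) K) Γ' (C c) = algebraMap K Γ' c := by
  rw [IsScalarTower.algebraMap_apply K (MvPolynomial (Fin (ν + 1)) K) Γ']
  rfl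

/-- Isomorphic graded algebras have the same Čech dg algebras. (The same algebras `B I`; the fraction
`q' I m a` is `q I m (φ a)`.) -/
theorem rgam_of_equiv {Γ' : Type u} [Ring Γ'] [Algebra K Γ']
    [Algebra (MvPolynomial (Fin (ν + 1)) K) Γ']
    [IsScalarTower K (MvPolynomial (Fin (ν + 1)) K) Γ'] {𝒢' : ℕ → Submodule K Γ'}
    (φ : Γ' ≃+* Γ)
    (h1 : ∀ p : MvPolynomial (Fin (ν + 1)) K, φ (algebraMap (MvPolynomial (Fin (ν + 1)) K) Γ' p) =
      algebraMap (MvPolynomial (Fin (ν + 1)) K) Γ p)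
    (h2 : ∀ n a, a ∈ 𝒢' n ↔ φ a ∈ 𝒢 n) {T : Type u} [Ring T] [Algebra K T] {X : DG K T}
    (hX : IsRGam ν 𝒢 X) : IsRGam ν 𝒢' X := by
  have hs : ∀ (p : MvPolynomial (Fin (ν + 1)) K) (a : Γ'), φ (p • a) = p • φ a := fun p a => by
    rw [Algebra.smul_def, map_mul, h1, ← Algebra.smul_def]
  obtain ⟨B, _, _, r, q, e, hq, he⟩ := hX
  refine ⟨B, _, _, r, fun I m a => q I m (φ a), e, ?_, he⟩
  refine ⟨?_, ?_, ?_, ?_, ?_, ?_, ?_⟩
  · intro I m a b ha hb
    rw [map_add]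
    exact hq.add I m _ _ ((h2 _ _).1 ha) ((h2 _ _).1 hb)
  · intro I l m a b ha hb
    rw [map_mul]
    exact hq.mul I l m _ _ ((h2 _ _).1 ha) ((h2 _ _).1 hb)
  · intro I c
    rw [← DsB_C (ν := ν) c, h1, DsB_C]
    exact hq.const I c
  · intro I m a ha
    rw [hs]
    exact hq.step I m _ ((h2 _ _).1 ha)
  · intro I b
    obtain ⟨m, a, ha, hb⟩ := hq.surj I b
    refine ⟨m, φ.symm a, (h2 _ _).2 ?_, ?_⟩
    · rw [RingEquiv.apply_symm_apply]
      exact ha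
    · rw [RingEquiv.apply_symm_apply]
      exact hb
  · intro I m a ha h0
    obtain ⟨l, hl⟩ := hq.zero I m _ ((h2 _ _).1 ha) h0
    refine ⟨l, φ.injective ?_⟩
    rw [hs, hl, map_zero]
  · intro I J hIJ m a ha
    rw [hs]
    exact hq.res I J hIJ m _ ((h2 _ _).1 ha)

variable {B B' : Finset (Fin (ν + 1)) → Type u} [∀ I, Ring (B I)] [∀ I, Algebra K (B I)]
  [∀ I, Ring (B' I)] [∀ I, Algebra K (B' I)]
  {r : ∀ I J : Finset (Fin (ν + 1)), I ⊆ J → B I →ₐ[K] B J}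
  {q : ∀ I : Finset (Fin (ν + 1)), ℕ → Γ → B I}
  {r' : ∀ I J : Finset (Fin (ν + 1)), I ⊆ J → B' I →ₐ[K] B' J}
  {q' : ∀ I : Finset (Fin (ν + 1)), ℕ → Γ → B' I}

/-- one half of `sec_equiv` -/
private theorem DsB_hom (h : IsGr ν 𝒢) (hq : IsSec 𝒢 r q) (hq' : IsSec 𝒢 r' q')
    (I : Finset (Fin (ν + 1))) :
    ∃ f : B I →ₐ[K] B' I, ∀ m a, a ∈ 𝒢 (m * I.card) → f (q I m a) = q' I m a := by
  have h1 : ∀ b : B I, ∃ b' : B' I, ∀ m a, a ∈ 𝒢 (m * I.card) → q I m a = b →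
      q' I m a = b' := by
    intro b
    obtain ⟨n, c, hc, rfl⟩ := hq.surj I b
    exact ⟨q' I n c, fun m a ha hb => (hq'.eq_iff h ha hc).2 ((hq.eq_iff h ha hc).1 hb)⟩
  choose f hf using h1
  have hf' : ∀ m a, a ∈ 𝒢 (m * I.card) → f (q I m a) = q' I m a := fun m a ha =>
    (hf _ m a ha rfl).symm
  have hk : ∀ c : K, algebraMap K Γ c ∈ 𝒢 (0 * I.card) := fun c => by
    rw [Nat.zero_mul, Algebra.algebraMap_eq_smul_one]
    exact (𝒢 0).smul_mem c h.one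
  have hc : ∀ c : K, f (algebraMap K (B I) c) = algebraMap K (B' I) c := fun c => by
    rw [← hq.const, hf' 0 _ (hk c), hq'.const]
  have hadd : ∀ x y, f (x + y) = f x + f y := by
    intro x y
    obtain ⟨m, a, ha, rfl⟩ := hq.surj I x
    obtain ⟨n, b, hb, rfl⟩ := hq.surj I y
    have ha' := xp_mem h (m := n) ha
    have hb' := xp_mem h (m := m) hb
    have e1 := hq.step_pow h m hb
    have e2 := hq'.step_pow h m hb
    rw [Nat.add_comm n m] at hb' e1 e2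
    rw [hf' m a ha, hf' n b hb, ← hq.step_pow h n ha, ← e1, ← hq.add I _ _ _ ha' hb',
      hf' _ _ (Submodule.add_mem _ ha' hb'), hq'.add I _ _ _ ha' hb', hq'.step_pow h n ha, e2]
  have hmul : ∀ x y, f (x * y) = f x * f y := by
    intro x y
    obtain ⟨m, a, ha, rfl⟩ := hq.surj I x
    obtain ⟨n, b, hb, rfl⟩ := hq.surj I y
    have hab : a * b ∈ 𝒢 ((m + n) * I.card) := by
      rw [Nat.add_mul]
      exact h.mul _ _ _ _ ha hb
    rw [← hq.mul I m n a b ha hb, hf' _ _ hab, hf' m a ha, hf' n b hb, hq'.mul I m n a b ha hb]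
  have hone : f 1 = 1 := by
    have h2 := hc 1
    rwa [map_one, map_one] at h2
  have hzero : f 0 = 0 := by
    have h2 := hc 0
    rwa [map_zero, map_zero] at h2
  exact ⟨{ toFun := f, map_one' := hone, map_mul' := hmul, map_zero' := hzero, map_add' := hadd,
           commutes' := hc }, hf'⟩

/-- The algebras of sections are unique: `q I m a ↦ q' I m a` (`IsSec.eq_iff`, `surj`). -/
theorem sec_equiv (h : IsGr ν 𝒢) (hq : IsSec 𝒢 r q) (hq' : IsSec 𝒢 r' q') :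
    ∃ e : ∀ I, B I ≃ₐ[K] B' I, (∀ I m a, a ∈ 𝒢 (m * I.card) → e I (q I m a) = q' I m a) ∧
      ∀ (I J : Finset (Fin (ν + 1))) (hI : I ⊆ J) b, r' I J hI (e I b) = e J (r I J hI b) := by
  choose f hf using fun I => DsB_hom h hq hq' I
  choose g hg using fun I => DsB_hom h hq' hq I
  have h1 : ∀ I b, g I (f I b) = b := by
    intro I b
    obtain ⟨m, a, ha, rfl⟩ := hq.surj I b
    rw [hf I m a ha, hg I m a ha]
  have h2 : ∀ I b, f I (g I b) = b := by
    intro I b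
    obtain ⟨m, a, ha, rfl⟩ := hq'.surj I b
    rw [hg I m a ha, hf I m a ha]
  refine ⟨fun I => AlgEquiv.ofAlgHom (f I) (g I) (AlgHom.ext (h2 I)) (AlgHom.ext (h1 I)),
    fun I m a ha => hf I m a ha, fun I J hIJ b => ?_⟩
  obtain ⟨m, a, ha, rfl⟩ := hq.surj I b
  change r' I J hIJ (f I (q I m a)) = f J (r I J hIJ (q I m a))
  have h3 := sdiff_mem h hIJ ha
  rw [hf I m a ha, hq'.res I J hIJ m a ha, hq.res I J hIJ m a ha]
  exact (hf J m _ h3).symm

end

section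

variable {ν : ℕ} {F K Γ₀ : Type u} [Field F] [Field K] [Algebra F K] [Ring Γ₀] [Algebra F Γ₀]
  [Algebra (MvPolynomial (Fin (ν + 1)) F) Γ₀] [IsScalarTower F (MvPolynomial (Fin (ν + 1)) F) Γ₀]
  {𝒢₀ : ℕ → Submodule F Γ₀}

/-- The Čech dg algebra of `K ⊗ Γ₀` is the base change of the Čech dg algebra of `Γ₀`. (`IsSec.bc`,
`sec_equiv`, `cech_bc`; as in `kf_rgam_aux`, `GG/TFin.lean`. If the `B I` are the algebras of sections
over `F` and the `B' I` those over `K` then `j I : B I → K ⊗ B I ≃ B' I`.) -/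
theorem rgam_bc (h₀ : IsGr ν 𝒢₀) {T₀ T : Type u} [Ring T₀] [Algebra F T₀] [Ring T] [Algebra K T]
    [Algebra F T] [IsScalarTower F K T] {X₀ : DG F T₀} {X : DG K T} (hX₀ : IsRGam ν 𝒢₀ X₀)
    (hX : IsRGam ν (GK.gr K 𝒢₀) X) : ∃ i : T₀ →ₐ[F] T, IsBc X₀ X i := by
  obtain ⟨B, _, _, r, q, e, hq, he⟩ := hX₀
  obtain ⟨B', _, _, r', q', e', hq', he'⟩ := hX
  have hqK := hq.bc K h₀
  obtain ⟨E, -, hE⟩ := sec_equiv (GK.isGr K h₀) hqK hq'
  let _ : ∀ I, Algebra F (B' I) := fun I => Algebra.compHom _ (algebraMap F K)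
  have _ : ∀ I, IsScalarTower F K (B' I) := fun I => IsScalarTower.of_algebraMap_eq (fun _ => rfl)
  let j : ∀ I, B I →ₐ[F] B' I := fun I =>
    ((E I).toAlgHom.restrictScalars F).comp Algebra.TensorProduct.includeRight
  have hj : ∀ I, IsBaseChange K (j I).toLinearMap := fun I =>
    IsBaseChange.of_equiv (E I).toLinearEquiv (fun _ => rfl)
  refine cech_bc he he' j hj (fun I J hIJ b => ?_)
  change r' I J hIJ (E I (1 ⊗ₜ b)) = E J (1 ⊗ₜ r I J hIJ b)
  rw [hE I J hIJ]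
  rfl

end

end Pool.Agent.MP_6e5bed_ag_UD
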