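import Pool.Agent.Lib.MP_6e5bed_ag_UD.DsA
import Pool.Agent.Lib.MP_6e5bed_ag_UD.DsB
import Pool.Agent.Lib.MP_6e5bed_ag_WW.WFin

set_option autoImplicit false
set_option linter.unusedVariables false

/-!
# MP_6e5bed_ag, universal domains: the dg algebras of coherent sheaves of algebras, base change and
descent
-/

noncomputable section

namespace Pool.Agent.MP_6e5bed_ag_UD

open Pool.Agent.MP_6e5bed_ag_NC Pool.Agent.MP_6e5bed_ag_WW Pool.Agent.MP_6e5bed_ag_GG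
  Pool.Agent.MP_6e5bed_ag_Pn
open Pool.Agent.MP_6e5bed_ag_PN hiding Ch
open Pool.Agent.MP_6e5bed_ag_SP (DG Rep RA repOf IsBc)

universe u

/-- The dg algebra `B` is one of the dg algebras `RΓ(Pⁿ, Γ~)`. -/
def CohD {k : Type u} [Field k] (B : DGA k) : Prop :=
  ∃ (T : Type u) (_ : Ring T) (_ : Algebra k T) (X : DG k T), CohAlg X ∧ Nonempty (Rep X B)

section

variable {k : Type u} [Field k] {B B' : DGA k}

/-- (compose the representation with the isomorphism) -/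
theorem CohD.of_iso (h : CohD B) (e : DIso B B') : CohD B' := by
  obtain ⟨T, _, _, X, hX, ⟨r⟩⟩ := h
  let f : B.A ≃ₗ[k] B'.A := LinearEquiv.ofLinearMap e.hom.f e.inv.f
    (LinearMap.ext e.inv_hom) (LinearMap.ext e.hom_inv)
  refine ⟨T, _, _, X, hX, ⟨{ e := r.e.trans f, one := ?_, mul := ?_, rep := ⟨?_, ?_⟩ }⟩⟩
  · change e.hom.f (r.e 1) = B'.one
    rw [r.one, e.hom.one]
  · intro a b
    change e.hom.f (r.e (a * b)) = B'.mul (e.hom.f (r.e a)) (e.hom.f (r.e b))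
    rw [r.mul, e.hom.mul]
  · intro n v
    refine (r.rep.mem n v).trans ⟨fun h => e.hom.deg h, fun h => ?_⟩
    have h1 := e.inv.deg (a := e.hom.f (r.e v)) h
    rwa [e.hom_inv] at h1
  · intro v
    change e.hom.f (r.e (X.d v)) = B'.dg.d (e.hom.f (r.e v))
    rw [e.hom.d]
    exact congrArg e.hom.f (r.rep.d v)

theorem CohD.exists_ca (h : CohD B) :
    ∃ (n : ℕ) (A : CA k (Fin (n + 1))), Nonempty (DIso B (TT A)) := by
  obtain ⟨T, _, _, X, hX, ⟨r⟩⟩ := h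
  obtain ⟨n, A, ⟨s⟩⟩ := exists_repA hX
  exact ⟨n, A, ⟨r.diso s⟩⟩

theorem CohD.proper (h : CohD B) : Proper B := by
  obtain ⟨n, A, ⟨e⟩⟩ := h.exists_ca
  exact Proper.of_iso e (proper_TT finBB)

/-- Base change: `exists_rgam` for `K ⊗ Γ`, `rgam_bc`, `IsBc.exists_rep` (`SP/RepBc.lean`); the
`k`-algebra structure of the Čech dg algebra over `K` is `Algebra.compHom _ (algebraMap k K)` (as in
`kf_rgam_aux`). -/
theorem CohD.bc (K : Type u) [Field K] [Algebra k K] (h : CohD B) : CohD (B.bc K) := by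
  obtain ⟨T, _, _, X, ⟨n, Γ, _, _, _, _, 𝒢, h, hX⟩, ⟨r⟩⟩ := h
  obtain ⟨T', _, _, X', hX'⟩ := exists_rgam (GK.isGr K h)
  let _ : Algebra k T' := Algebra.compHom _ (algebraMap k K)
  have _ : IsScalarTower k K T' := IsScalarTower.of_algebraMap_eq (fun _ => rfl)
  obtain ⟨i, hi⟩ := rgam_bc h hX hX'
  obtain ⟨r'⟩ := hi.exists_rep r
  exact ⟨T', _, _, X', ⟨n, GK k K Γ, _, _, _, inferInstance, GK.gr K 𝒢, GK.isGr K h, hX'⟩, ⟨r'⟩⟩

end

private theorem DsC_aux {F K : Type u} [Field F] [Field K] [Algebra F K] {n : ℕ} {Γ₀ : Type u}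
    [Ring Γ₀] [Algebra F Γ₀] [Algebra (MvPolynomial (Fin (n + 1)) F) Γ₀]
    [IsScalarTower F (MvPolynomial (Fin (n + 1)) F) Γ₀] {𝒢₀ : ℕ → Submodule F Γ₀}
    (h₀ : IsGr n 𝒢₀) {T : Type u} [Ring T] [Algebra K T] {X : DG K T}
    (hX : IsRGam n (GK.gr K 𝒢₀) X) {B : DGA K} (r : Rep X B) :
    ∃ B₀ : DGA F, CohD B₀ ∧ Nonempty (DIso (B₀.bc K) B) := by
  obtain ⟨T₀, _, _, X₀, hX₀⟩ := exists_rgam h₀
  let _ : Algebra F T := Algebra.compHom T (algebraMap F K)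
  have _ : IsScalarTower F K T := IsScalarTower.of_algebraMap_eq (fun _ => rfl)
  obtain ⟨i, hi⟩ := rgam_bc h₀ hX₀ hX
  have hc : CohAlg X₀ := ⟨n, Γ₀, _, _, _, inferInstance, 𝒢₀, h₀, hX₀⟩
  obtain ⟨m, A, ⟨r₀⟩⟩ := exists_repA hc
  obtain ⟨r'⟩ := hi.exists_rep r₀
  exact ⟨TT A, ⟨T₀, _, _, X₀, hc, ⟨r₀⟩⟩, ⟨r'.diso r⟩⟩

/-- Descent: `exists_form`, `rgam_of_equiv`, `exists_rgam` over `F`, `rgam_bc`, `IsBc.exists_rep`,
`Rep.diso`. -/
theorem CohD.descent {K : Type u} [Field K] {B : DGA K} (h : CohD B) :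
    ∃ s : Finset K, ∀ F : Subfield K, (s : Set K) ⊆ F →
      ∃ B₀ : DGA F, CohD B₀ ∧ Nonempty (DIso (B₀.bc K) B) := by
  obtain ⟨T, _, _, X, ⟨n, Γ, _, _, _, _, 𝒢, hg, hX⟩, ⟨r⟩⟩ := h
  obtain ⟨s, hs⟩ := exists_form hg
  refine ⟨s, fun F hF => ?_⟩
  obtain ⟨Γ₀, _, _, _, _, 𝒢₀, h₀, φ, h1, h2⟩ := hs F hF
  exact DsC_aux h₀ (rgam_of_equiv φ h1 h2 hX) r

end Pool.Agent.MP_6e5bed_ag_UD
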