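import Pool.Agent.Lib.MP_6e5bed_ag_UD.DsJ

set_option autoImplicit false
set_option linter.unusedVariables false

/-!
# MP_6e5bed_ag, universal domains: descent of finitely many objects and classes
-/

noncomputable section

namespace Pool.Agent.MP_6e5bed_ag_UD

open Pool.Agent.MP_6e5bed_ag_NC Pool.Agent.MP_6e5bed_ag_WW Pool.Agent.MP_6e5bed_ag_GG
  Pool.Agent.MP_6e5bed_ag_Pn
open Pool.Agent.MP_6e5bed_ag_PN hiding Ch

universe u

private theorem DsG_back {k : Type u} [CommRing k] {A A' A'' B B' B'' : DGA k} (ε : DIso A' A)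
    (δ : DIso B' B) (p : DIso A'' A') (q : DIso B'' B') (y : K0Q A B) :
    K0Q.res (ε.symm.trans p.symm) (δ.symm.trans q.symm) (K0Q.res p q (K0Q.res ε δ y)) = y := by
  have h : ∀ {A A' A'' : DGA k} (ε : DIso A' A) (p : DIso A'' A'),
      ((ε.symm.trans p.symm).trans p).trans ε = DIso.refl A := by
    intro A A' A'' ε p
    refine DIso.ext fun x => ?_
    change ε.hom.f (p.hom.f (p.inv.f (ε.inv.f x))) = x
    rw [p.inv_hom, ε.inv_hom]
  rw [K0Q.res_res, K0Q.res_res, h ε p, h δ q, K0Q.res_refl]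

variable {k : Type u} [Field k]

/-- Descent of finitely many objects and classes to a finitely generated field (as
`exists_descent`). -/
theorem exists_descentJ {J ι : Type*} [Finite J] [Finite ι] {B : J → DGA k} (hB : ∀ j, CohD (B j))
    (hs : ∀ j, Smooth (B j)) (p q : ι → J) (y : ∀ a, K0Q (B (p a)) (B (q a))) :
    ∃ (E : Type u) (_ : Field E) (_ : Algebra E k) (r : Finset E)
      (_ : Subfield.closure (r : Set E) = ⊤) (B₁ : J → DGA E) (e : ∀ j, DIso (B j) ((B₁ j).bc k))
      (z : ∀ a, K0Q (B₁ (p a)) (B₁ (q a))),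
      (∀ j, CohD (B₁ j)) ∧ (∀ j, Smooth (B₁ j)) ∧
      ∀ a, y a = K0Q.res (e (p a)) (e (q a)) (up (k := E) k (z a)) := by
  classical
  have hfJ : Fintype J := Fintype.ofFinite J
  have hfin : Fintype ι := Fintype.ofFinite ι
  choose t1 ht1 using fun j => (hB j).descent
  obtain ⟨t, ht⟩ : ∃ t : Finset k, t = Finset.univ.biUnion t1 := ⟨_, rfl⟩
  have h1 : ∀ j, (t1 j : Set k) ⊆ Subfield.closure (t : Set k) := fun j => by
    refine Set.Subset.trans ?_ Subfield.subset_closure
    rw [ht]
    exact Finset.coe_subset.2 (Finset.subset_biUnion_of_mem t1 (Finset.mem_univ j))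
  choose B₀ hB₀ ε0 using fun j => ht1 j _ (h1 j)
  have ε : ∀ j, DIso ((B₀ j).bc k) (B j) := fun j => (ε0 j).some
  choose s1 hs1 using fun j => smooth_descent (A := B₀ j) ((hs j).of_iso (ε j))
  choose s2 hs2 using fun a => class_descent (A := B₀ (p a)) (B := B₀ (q a)) (K := k)
    (K0Q.res (ε (p a)) (ε (q a)) (y a))
  obtain ⟨s, hs⟩ : ∃ s : Finset k, s = Finset.univ.biUnion s1 ∪ Finset.univ.biUnion s2 :=
    ⟨_, rfl⟩
  have hE : (s : Set k) ⊆ IntermediateField.adjoin (Subfield.closure (t : Set k)) (s : Set k) :=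
    IntermediateField.subset_adjoin _ _
  have h3 : ∀ a, (s1 a : Set k) ⊆
      IntermediateField.adjoin (Subfield.closure (t : Set k)) (s : Set k) := fun a => by
    refine Set.Subset.trans ?_ hE
    rw [hs]
    exact Finset.coe_subset.2 ((Finset.subset_biUnion_of_mem s1 (Finset.mem_univ a)).trans
      Finset.subset_union_left)
  have h4 : ∀ a, (s2 a : Set k) ⊆
      IntermediateField.adjoin (Subfield.closure (t : Set k)) (s : Set k) := fun a => by
    refine Set.Subset.trans ?_ hE
    rw [hs]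
    exact Finset.coe_subset.2 ((Finset.subset_biUnion_of_mem s2 (Finset.mem_univ a)).trans
      Finset.subset_union_right)
  obtain ⟨r, hr⟩ := fg_adjoin s t
  choose z hz using fun a => hs2 a _ (h4 a)
  refine ⟨IntermediateField.adjoin (Subfield.closure (t : Set k)) (s : Set k), inferInstance,
    inferInstance, r, hr,
    fun j => (B₀ j).bc (IntermediateField.adjoin (Subfield.closure (t : Set k)) (s : Set k)),
    fun j => (ε j).symm.trans (bcTrans _ k (B₀ j)).symm, z,
    fun j => (hB₀ j).bc _, fun j => hs1 j _ (h3 j), fun a => ?_⟩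
  rw [DsJ_up_cf]
  refine Eq.trans (DsG_back (ε (p a)) (ε (q a))
    (bcTrans (IntermediateField.adjoin (Subfield.closure (t : Set k)) (s : Set k)) k (B₀ (p a)))
    (bcTrans (IntermediateField.adjoin (Subfield.closure (t : Set k)) (s : Set k)) k (B₀ (q a)))
    (y a)).symm ?_
  rw [← hz a]
  rfl

end Pool.Agent.MP_6e5bed_ag_UD
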