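import Mathlib

set_option autoImplicit false

/-!
# MP_6e5bed_ag, universal domains: transcendence degrees
-/

namespace Pool.Agent.MP_6e5bed_ag_UD

universe u

/-- The prime field of `Ω` maps to every subfield. -/
private theorem dsH_hom {Ω E : Type u} [Field Ω] [Field E] [Algebra E Ω] :
    ∃ g : (⊥ : Subfield Ω) →+* E, ∀ x, algebraMap E Ω (g x) = (x : Ω) := by
  have hle : (⊥ : Subfield Ω) ≤ (algebraMap E Ω).fieldRange := bot_le
  have hb : Function.Bijective (algebraMap E Ω).rangeRestrictField := by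
    refine ⟨fun a b hab => ?_, ?_⟩
    · have := congrArg Subtype.val hab
      exact (algebraMap E Ω).injective (by simpa using this)
    · rintro ⟨y, a, rfl⟩
      exact ⟨a, rfl⟩
  let e := RingEquiv.ofBijective _ hb
  refine ⟨(e.symm : (algebraMap E Ω).fieldRange →+* E).comp (Subfield.inclusion hle), fun x => ?_⟩
  have h1 : e (e.symm (Subfield.inclusion hle x)) = Subfield.inclusion hle x :=
    e.apply_symm_apply _
  have h2 := congrArg Subtype.val h1
  exact h2

/-- A field of infinite transcendence degree over its prime field has infinite transcendence degree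
over every finitely generated field. (The transcendence degree of `Ω` over the prime field is the sum
of the transcendence degree of `E`, which is finite, and that of `Ω` over `E`: `Algebra.trdeg`,
`Algebra.lift_trdeg_add_eq` or `Algebra.trdeg_add_eq`, `AlgebraicIndependent` and
`IsTranscendenceBasis`.) -/
theorem inf_tr {Ω E : Type u} [Field Ω] [Field E] [Algebra E Ω]
    (h : ∀ m : ℕ, ∃ t : Fin m → Ω, AlgebraicIndependent (⊥ : Subfield Ω) t) (s : Finset E)
    (hs : Subfield.closure (s : Set E) = ⊤) (m : ℕ) :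
    ∃ t : Fin m → Ω, AlgebraicIndependent E t := by
  obtain ⟨g, hg⟩ := dsH_hom (Ω := Ω) (E := E)
  let _ : Algebra (⊥ : Subfield Ω) E := g.toAlgebra
  have : IsScalarTower (⊥ : Subfield Ω) E Ω :=
    IsScalarTower.of_algebraMap_eq (fun x => (hg x).symm)
  have : Algebra.IsAlgebraic (Algebra.adjoin (⊥ : Subfield Ω) (s : Set E)) E := by
    refine ⟨fun e => ?_⟩
    have he : e ∈ Subfield.closure (s : Set E) := by
      rw [hs]
      trivial
    refine Subfield.closure_induction (fun x hx => ?_) ?_ (fun x y _ _ hx hy => hx.add hy)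
      (fun x _ hx => hx.neg) (fun x _ hx => hx.inv) (fun x y _ _ hx hy => hx.mul hy) he
    · exact isAlgebraic_algebraMap
        (⟨x, Algebra.subset_adjoin hx⟩ : Algebra.adjoin (⊥ : Subfield Ω) (s : Set E))
    · exact isAlgebraic_one
  have h1 : Algebra.trdeg (⊥ : Subfield Ω) E ≤ (s.card : Cardinal) := by
    have := Algebra.IsAlgebraic.trdeg_le_cardinalMk (⊥ : Subfield Ω) (s : Set E)
    simpa using this
  have h2 := trdeg_add_eq (⊥ : Subfield Ω) E (A := Ω)
  obtain ⟨t, ht⟩ := h (m + s.card)
  have h3 : ((m + s.card : ℕ) : Cardinal) ≤ Algebra.trdeg (⊥ : Subfield Ω) Ω := by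
    have := ht.lift_cardinalMk_le_trdeg
    simpa using this
  have h4 : (m : Cardinal) ≤ Algebra.trdeg E Ω := by
    rcases lt_or_ge (Algebra.trdeg E Ω) Cardinal.aleph0 with hlt | hge
    · obtain ⟨n, hn⟩ := Cardinal.lt_aleph0.1 hlt
      rw [hn] at h2 ⊢
      have h5 : ((m + s.card : ℕ) : Cardinal) ≤ ((s.card + n : ℕ) : Cardinal) := by
        refine h3.trans ?_
        rw [← h2]
        push_cast
        gcongr
      have h6 : m + s.card ≤ s.card + n := by exact_mod_cast h5
      have h7 : m ≤ n := by omega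
      exact_mod_cast h7
    · exact (Cardinal.natCast_lt_aleph0 (n := m)).le.trans hge
  obtain ⟨B, hB⟩ := exists_isTranscendenceBasis E Ω
  rw [← hB.cardinalMk_eq_trdeg] at h4
  have h5 : Cardinal.lift.{u} (Cardinal.mk (Fin m)) ≤ Cardinal.lift.{0} (Cardinal.mk B) := by
    simpa using h4
  obtain ⟨f⟩ := Cardinal.lift_mk_le'.1 h5
  exact ⟨_, hB.1.comp f f.injective⟩

/-- The field generated by `s` over the field generated by `t` is finitely generated. -/
theorem fg_adjoin {K : Type u} [Field K] (s t : Finset K) :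
    ∃ r : Finset (IntermediateField.adjoin (Subfield.closure (t : Set K)) (s : Set K)),
      Subfield.closure (r : Set (IntermediateField.adjoin (Subfield.closure (t : Set K))
        (s : Set K))) = ⊤ := by
  classical
  set F := Subfield.closure (t : Set K) with hF
  set L := IntermediateField.adjoin F (s : Set K) with hL
  have hs : ∀ x ∈ s, x ∈ L := fun x hx => IntermediateField.subset_adjoin F _ hx
  have ht : ∀ x ∈ t, x ∈ L := fun x hx =>
    L.algebraMap_mem (⟨x, Subfield.subset_closure hx⟩ : F)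
  let r : Finset L := s.attach.image (fun x => ⟨x.1, hs _ x.2⟩) ∪
    t.attach.image (fun x => ⟨x.1, ht _ x.2⟩)
  refine ⟨r, ?_⟩
  rw [eq_top_iff]
  rintro ⟨x, hx⟩ -
  let M : Subfield K := (Subfield.closure (r : Set L)).map (algebraMap L K)
  have h1 : (s : Set K) ⊆ M := by
    intro y hy
    refine ⟨⟨y, hs y hy⟩, Subfield.subset_closure ?_, rfl⟩
    rw [Finset.mem_coe, Finset.mem_union]
    exact Or.inl (Finset.mem_image.2 ⟨⟨y, hy⟩, Finset.mem_attach _ _, rfl⟩)
  have h2 : (t : Set K) ⊆ M := by
    intro y hy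
    refine ⟨⟨y, ht y hy⟩, Subfield.subset_closure ?_, rfl⟩
    rw [Finset.mem_coe, Finset.mem_union]
    exact Or.inr (Finset.mem_image.2 ⟨⟨y, hy⟩, Finset.mem_attach _ _, rfl⟩)
  have h3 : F ≤ M := Subfield.closure_le.2 h2
  have h4 : L.toSubfield ≤ M := by
    refine IntermediateField.adjoin_le_subfield F _ ?_ h1
    rintro _ ⟨y, rfl⟩
    exact h3 y.2
  obtain ⟨y, hy, hyx⟩ := h4 hx
  have : y = ⟨x, hx⟩ := Subtype.ext hyx
  exact this ▸ hy

end Pool.Agent.MP_6e5bed_ag_UD
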