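import Pool.Agent.Lib.MP_6e5bed_ag_WW.StepF
import Pool.Agent.Lib.MP_6e5bed_ag_UD.Desc

set_option autoImplicit false
set_option linter.unusedVariables false

/-!
# MP_6e5bed_ag, universal domains: the nilpotence theorem
-/

noncomputable section

namespace Pool.Agent.MP_6e5bed_ag_UD

open Pool.Agent.MP_6e5bed_ag_NC Pool.Agent.MP_6e5bed_ag_WW Pool.Agent.MP_6e5bed_ag_GG
open Pool.Agent.MP_6e5bed_ag_PN hiding Ch

universe u

section act

variable {k : Type u} [Field k] {T : DGA k}

/-- The composition with `f` on the right. -/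
def act (hp : Proper T) (f : K0Q T T) (W : DGA k) : K0Q W T →ₗ[ℚ] K0Q W T :=
  (K0Q.comp (A := W) (C := T) hp).flip f

theorem act_apply (hp : Proper T) (f : K0Q T T) {W : DGA k} (x : K0Q W T) :
    act hp f W x = K0Q.comp hp x f := rfl

theorem act_pow_comp (hp : Proper T) (f : K0Q T T) {W T' : DGA k} (hp' : Proper T')
    (w : K0Q W T') (x : K0Q T' T) (n : ℕ) :
    (act hp f W ^ n) (K0Q.comp hp' w x) = K0Q.comp hp' w ((act hp f T' ^ n) x) := by
  induction n with
  | zero => rfl
  | succ n ih =>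
    rw [pow_succ', pow_succ', Module.End.mul_apply, Module.End.mul_apply, ih]
    exact K0Q.comp_assoc hp' hp w _ f

/-- The classes which are annihilated by a power of `f`. -/
def NU (hp : Proper T) (f : K0Q T T) (W : DGA k) : Submodule ℚ (K0Q W T) where
  carrier := {x | ∃ n : ℕ, (act hp f W ^ n) x = 0}
  add_mem' := by
    rintro x y ⟨n, hn⟩ ⟨m, hm⟩
    refine ⟨n + m, ?_⟩
    rw [map_add, pow_add, Module.End.mul_apply, Module.End.mul_apply, hm, map_zero, add_zero,
      ← Module.End.mul_apply, ← pow_add, add_comm, pow_add, Module.End.mul_apply, hn, map_zero]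
  zero_mem' := ⟨0, map_zero _⟩
  smul_mem' := by
    rintro c x ⟨n, hn⟩
    exact ⟨n, by rw [map_smul, hn, smul_zero]⟩

theorem mem_NU {hp : Proper T} {f : K0Q T T} {W : DGA k} {x : K0Q W T} :
    x ∈ NU hp f W ↔ ∃ n : ℕ, (act hp f W ^ n) x = 0 := Iff.rfl

/-- from the powers of `f` to a class and back -/
theorem act_pow_one (hs : Smooth T) (hp : Proper T) (f : K0Q T T) {W : DGA k} (x : K0Q W T)
    (n : ℕ) : K0Q.comp hp x ((act hp f T ^ n) (K0Q.one hs)) = (act hp f W ^ n) x := by
  rw [← act_pow_comp, K0Q.comp_one hs hp]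

end act

section core

variable {k : Type u} [Field k] {i : Type} [Fintype i] {A : CA k i}

/-- The nilpotence theorem for the generic algebras. -/
theorem nil_S (A : CA k i) (hs : Smooth (TT A)) (hp : Proper (TT A)) (f : K0Q (TT A) (TT A))
    (h : ∀ (m : Ch i) (g : GD A m) (x : K0Q (ring k g.S) (TT A)), x ∈ NU hp f (ring k g.S)) :
    K0Q.one hs ∈ NU hp f (TT A) := by
  refine one_mem (hF := finBB) fun E m hE hR ih => ?_
  obtain ⟨Gm, h1, x, hx⟩ := stepW k A finBB hs (NU hp f (TT A)) E m hE hR ih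
  rw [hx]
  obtain ⟨n, hn⟩ := mem_NU.1 (h m hR.gd x)
  obtain ⟨z, hz⟩ := h1 A hs hp x
  have h2 := hz (K0Q.one hs)
  rw [K0Q.comp_one hs hp, K0Q.comp_one hs hp] at h2
  have h3 := hz ((act hp f (TT A) ^ n) (K0Q.one hs))
  rw [act_pow_one, hn, map_zero, act_pow_one, Submodule.mkQ_apply, eq_comm,
    Submodule.Quotient.mk_eq_zero] at h3
  rw [h2, Submodule.mkQ_apply, Submodule.Quotient.mk_eq_zero]
  obtain ⟨m', hm⟩ := mem_NU.1 h3
  refine mem_NU.2 ⟨m' + n, ?_⟩
  rw [pow_add, Module.End.mul_apply, hm]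

theorem nil_of_center {L S : Type u} [Field L] [Algebra k L] [Ring S] [Algebra k S]
    [Algebra L S] [IsScalarTower k L S] [FiniteDimensional L S] [IsSimpleRing S]
    [Algebra.IsCentral L S] {T : DGA k} (hp : Proper T) (f : K0Q T T)
    (h : ∀ x : K0Q (ring k L) T, x ∈ NU hp f (ring k L)) (x : K0Q (ring k S) T) :
    x ∈ NU hp f (ring k S) := by
  have hd : (Module.finrank L S : ℚ) ≠ 0 := by
    have h1 : 0 < Module.finrank L S := Module.finrank_pos_iff.2 inferInstance
    exact_mod_cast h1.ne'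
  have h1 : ∀ (n : ℕ) (y : K0Q (ring k L) T), (act hp f (ring k S) ^ n) (lsExt L S T y) =
      lsExt L S T ((act hp f (ring k L) ^ n) y) := by
    intro n y
    induction n with
    | zero => rfl
    | succ n ih =>
      rw [pow_succ', pow_succ', Module.End.mul_apply, Module.End.mul_apply, ih]
      exact (lsExt_comp L S hp f _).symm
  obtain ⟨n, hn⟩ := mem_NU.1 (h (lsRes L S T x))
  have h2 : lsExt L S T (lsRes L S T x) ∈ NU hp f (ring k S) :=
    mem_NU.2 ⟨n, by rw [h1, hn, map_zero]⟩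
  rw [lsExt_lsRes] at h2
  have h4 := Submodule.smul_mem _ (Module.finrank L S : ℚ)⁻¹ h2
  rwa [smul_smul, inv_mul_cancel₀ hd, one_smul] at h4

theorem nil_gd {m : Ch i} (g : GD A m) {T : DGA k} (hp : Proper T) (f : K0Q T T)
    (h : ∀ x : K0Q (ring k (Subalgebra.center k g.S)) T, x ∈ NU hp f _)
    (x : K0Q (ring k g.S) T) : x ∈ NU hp f (ring k g.S) := by
  obtain ⟨L, i1, i2, i3, i4, h1, h2, h3, h6⟩ := g.exists_L
  have h4 : IsSimpleRing g.S := g.main.1
  have h5 : FiniteDimensional L g.S := h2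
  have h7 := h6 (fun Z _ _ => ∀ x : K0Q (ring k Z) T, x ∈ NU hp f (ring k Z)) h
  exact nil_of_center (L := L) (S := g.S) hp f h7 x

/-- The nilpotence theorem for the centres of the generic algebras. -/
theorem nil_C (A : CA k i) (hs : Smooth (TT A)) (hp : Proper (TT A)) (f : K0Q (TT A) (TT A))
    (h : ∀ (m : Ch i) (g : GD A m) (x : K0Q (ring k (Subalgebra.center k g.S)) (TT A)),
      x ∈ NU hp f (ring k (Subalgebra.center k g.S))) :
    K0Q.one hs ∈ NU hp f (TT A) :=
  nil_S A hs hp f fun m g x => nil_gd g hp f (h m g) x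

theorem nil_gdF {m : Ch i} (g : GD A m) {T : DGA k} (hp : Proper T) (f : K0Q T T)
    (h : ∀ (L : Type u) [Field L] [Algebra k L] [Algebra.EssFiniteType k L]
      (x : K0Q (ring k L) T), x ∈ NU hp f (ring k L))
    (x : K0Q (ring k g.S) T) : x ∈ NU hp f (ring k g.S) := by
  obtain ⟨L, i1, i2, i3, i4, h1, h2, h3, -⟩ := g.exists_L
  have h4 : IsSimpleRing g.S := g.main.1
  have h5 : FiniteDimensional L g.S := h2
  exact nil_of_center (L := L) (S := g.S) hp f (fun x => h L x) x

/-- The nilpotence theorem for the finitely generated field extensions. -/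
theorem nil_F (A : CA k i) (hs : Smooth (TT A)) (hp : Proper (TT A)) (f : K0Q (TT A) (TT A))
    (h : ∀ (L : Type u) [Field L] [Algebra k L] [Algebra.EssFiniteType k L]
      (x : K0Q (ring k L) (TT A)), x ∈ NU hp f (ring k L)) :
    K0Q.one hs ∈ NU hp f (TT A) :=
  nil_S A hs hp f fun m g x => nil_gdF g hp f h x

end core

end Pool.Agent.MP_6e5bed_ag_UD
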