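import Pool.Agent.Lib.MP_6e5bed_ag_UD.PsiK
import Pool.Agent.Lib.MP_6e5bed_ag_UD.Nil
import Pool.Agent.Lib.MP_6e5bed_ag_NC.Cat

set_option autoImplicit false
set_option linter.unusedVariables false

/-!
# MP_6e5bed_ag, universal domains: isomorphisms of dg algebras, extension of scalars and composition
-/

noncomputable section

namespace Pool.Agent.MP_6e5bed_ag_UD

open Pool.Agent.MP_6e5bed_ag_NC

universe u

section

variable {k : Type u} [CommRing k] {A A' B B' C C' : DGA k}

/-- `K0Q.res` and composition -/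
theorem comp_res3 (hB : Proper B) (hB' : Proper B') (a : DIso A A') (b : DIso B B')
    (c : DIso C C') (x : K0Q A' B') (y : K0Q B' C') :
    K0Q.comp hB (K0Q.res a b x) (K0Q.res b c y) = K0Q.res a c (K0Q.comp hB' x y) := by
  have h1 : K0Q.res a b x = K0Q.res (DIso.refl A) b (K0Q.res a (DIso.refl B') x) := by
    rw [K0Q.res_res]
    rfl
  have h2 : K0Q.res b c y = K0Q.res b (DIso.refl C) (K0Q.res (DIso.refl B') c y) := by
    rw [K0Q.res_res]
    rfl
  rw [h1, h2, K0Q.comp_res_mid hB hB' b, ← K0Q.res_comp']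

variable (S : Type u) [CommRing S] [Algebra k S]

theorem up_comp (hB : Proper B) (x : K0Q A B) (y : K0Q B C) :
    up S (K0Q.comp hB x y) = K0Q.comp (hB.bc S) (up S x) (up S y) := by
  unfold up
  rw [← comp_res3 (hB.bc k) hB (selfIso A) (selfIso B) (selfIso C),
    K0Q.cf_comp _ (hB.bc k) (hB.bc S)]

theorem up_one (hs : Smooth A) (hp : Proper A) : up S (K0Q.one hs) = K0Q.one (hs.bc S) := by
  unfold up
  rw [K0Q.res_one (hs.bc k) hs (hp.bc k), K0Q.cf_one _ (hs.bc k) (hs.bc S) (hp.bc S)]

theorem up_zero : up S (0 : K0Q A B) = 0 := by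
  unfold up
  rw [map_zero, map_zero]

theorem up_add (x y : K0Q A B) : up S (x + y) = up S x + up S y := by
  unfold up
  rw [map_add, map_add]

end

section

variable {k : Type u} [Field k] {T : DGA k}

/-- transport of the action along isomorphisms -/
theorem act_res {B : DGA k} (hB : Proper B) (hT : Proper T) (e : DIso B T) (f : K0Q T T)
    {W W' : DGA k} (w : DIso W' W) (x : K0Q W T) (n : ℕ) :
    (act hB (K0Q.res e e f) W' ^ n) (K0Q.res w e x) = K0Q.res w e ((act hT f W ^ n) x) := by
  induction n with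
  | zero => rfl
  | succ n ih =>
    rw [pow_succ', pow_succ', Module.End.mul_apply, Module.End.mul_apply, ih]
    exact comp_res3 hB hT w e e _ f

theorem res_symm {A A' B B' : DGA k} (a : DIso A A') (b : DIso B B') (z : K0Q A' B') :
    K0Q.res a.symm b.symm (K0Q.res a b z) = z := by
  rw [K0Q.res_res, DIso.symm_trans, DIso.symm_trans, K0Q.res_refl]

theorem res_symm' {A A' B B' : DGA k} (a : DIso A A') (b : DIso B B') (z : K0Q A B) :
    K0Q.res a b (K0Q.res a.symm b.symm z) = z := by
  rw [K0Q.res_res, DIso.trans_symm, DIso.trans_symm, K0Q.res_refl]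

theorem res_bij {A A' B B' : DGA k} (a : DIso A A') (b : DIso B B') :
    Function.Bijective (K0Q.res a b) :=
  Function.bijective_iff_has_inverse.2 ⟨K0Q.res a.symm b.symm, res_symm a b, res_symm' a b⟩

theorem mem_NU_res {B : DGA k} (hB : Proper B) (hT : Proper T) (e : DIso B T) (f : K0Q T T)
    {W W' : DGA k} (w : DIso W' W) (x : K0Q W T) :
    K0Q.res w e x ∈ NU hB (K0Q.res e e f) W' ↔ x ∈ NU hT f W := by
  constructor
  · rintro ⟨n, hn⟩
    refine ⟨n, (res_bij w e).1 ?_⟩
    rw [← act_res hB hT, hn, map_zero]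
  · rintro ⟨n, hn⟩
    exact ⟨n, by rw [act_res hB hT, hn, map_zero]⟩

end

end Pool.Agent.MP_6e5bed_ag_UD
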