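import Pool.Agent.Lib.MP_6e5bed_ag_UD.DsC
import Pool.Agent.Lib.MP_6e5bed_ag_UD.Desc
import Pool.Agent.Lib.MP_6e5bed_ag_UD.UpC

set_option autoImplicit false
set_option linter.unusedVariables false

/-!
# MP_6e5bed_ag, universal domains: the core theorem for a universal domain over `k`
-/

noncomputable section

namespace Pool.Agent.MP_6e5bed_ag_UD

open Pool.Agent.MP_6e5bed_ag_NC Pool.Agent.MP_6e5bed_ag_WW Pool.Agent.MP_6e5bed_ag_GG
  Pool.Agent.MP_6e5bed_ag_Pn
open Pool.Agent.MP_6e5bed_ag_PN hiding Ch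

universe u

variable {k : Type u} [Field k] {B : DGA k} {ι : Type (u + 1)} {B' : ι → DGA k}

/-- Transport of `JU` along isomorphisms of dg algebras (`K0Q.res_comp'`, `K0Q.comp_res_mid`,
`K0Q.res_res`, `K0Q.res_refl`, `mem_JU_iff`). -/
theorem JU_res {W W' T : DGA k} {T' : ι → DGA k} (w : DIso W' W) (e : DIso B T)
    (e' : ∀ a, DIso (B' a) (T' a)) (hB' : ∀ a, Proper (B' a)) (hT' : ∀ a, Proper (T' a))
    (y : ∀ a, K0Q (T' a) T) (x : K0Q W T) :
    K0Q.res w e x ∈ JU W' hB' (fun a => K0Q.res (e' a) e (y a)) ↔ x ∈ JU W hT' y := by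
  rw [mem_JU_iff, mem_JU_iff]
  constructor
  · rintro ⟨s, v, hv⟩
    choose v' hv' using fun a => (res_bij w (e' a)).2 (v a)
    refine ⟨s, v', (res_bij w e).1 ?_⟩
    rw [← hv, map_sum]
    refine Finset.sum_congr rfl fun a _ => ?_
    rw [← hv' a, comp_res3 (hB' a) (hT' a)]
  · rintro ⟨s, v, rfl⟩
    refine ⟨s, fun a => K0Q.res w (e' a) (v a), ?_⟩
    rw [map_sum]
    exact Finset.sum_congr rfl fun a _ => comp_res3 (hB' a) (hT' a) w (e' a) e (v a) (y a)

/-- The core theorem (`coreWF`) for the dg algebras of coherent sheaves of algebras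
(`CohD.exists_ca`, `JU_res`, `K0Q.res_one`). -/
theorem core_coh (hB : CohD B) (hB' : ∀ a, CohD (B' a)) (hs : Smooth B)
    (hs' : ∀ a, Smooth (B' a)) (hp' : ∀ a, Proper (B' a)) (y : ∀ a, K0Q (B' a) B)
    (h : ∀ (L : Type u) [Field L] [Algebra k L] [Algebra.EssFiniteType k L]
      (x : K0Q (ring k L) B), x ∈ JU (ring k L) hp' y) : K0Q.one hs ∈ JU B hp' y := by
  obtain ⟨n, A, ⟨e⟩⟩ := hB.exists_ca
  choose n' A' he' using fun a => (hB' a).exists_ca
  have e' : ∀ a, DIso (B' a) (TT (A' a)) := fun a => (he' a).some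
  have hsA : Smooth (TT A) := hs.of_iso e.symm
  have hpA : Proper (TT A) := hB.proper.of_iso e.symm
  have hsA' : ∀ a, Smooth (TT (A' a)) := fun a => (hs' a).of_iso (e' a).symm
  have hpA' : ∀ a, Proper (TT (A' a)) := fun a => (hp' a).of_iso (e' a).symm
  choose z hz using fun a => (res_bij (e' a) e).2 (y a)
  obtain rfl : (fun a => K0Q.res (e' a) e (z a)) = y := funext hz
  rw [← K0Q.res_one hs hsA hB.proper e, JU_res e e e' hp' hpA' z]
  refine coreWF k A A' hsA hsA' hpA hpA' z fun L _ _ _ x => ?_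
  rw [← JU_res (DIso.refl (ring k L)) e e' hp' hpA' z]
  exact h L _

/-- The core theorem for an algebraically closed field of infinite transcendence degree over
`k`. -/
theorem core_ud (hB : CohD B) (hB' : ∀ a, CohD (B' a)) (hs : Smooth B)
    (hs' : ∀ a, Smooth (B' a)) (hp' : ∀ a, Proper (B' a)) (y : ∀ a, K0Q (B' a) B)
    (Ω : Type u) [Field Ω] [Algebra k Ω] [IsAlgClosed Ω]
    (hΩ : ∀ m : ℕ, ∃ t : Fin m → Ω, AlgebraicIndependent k t)
    (h : ∀ x : K0Q (ring k Ω) B, x ∈ JU (ring k Ω) hp' y) : K0Q.one hs ∈ JU B hp' y :=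
  core_coh hB hB' hs hs' hp' y fun L _ _ _ x =>
    JU_of_field hp' y (exists_emb k L Ω hΩ).some h x

end Pool.Agent.MP_6e5bed_ag_UD
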