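import Pool.Agent.Lib.MP_6e5bed_ag_BC.K0Cf
import Pool.Agent.Lib.MP_6e5bed_ag_BC.RsQt

set_option autoImplicit false
set_option linter.unusedVariables false

/-!
# MP_6e5bed_ag, universal domains: the projection formula
-/

noncomputable section

namespace Pool.Agent.MP_6e5bed_ag_NC

attribute [local instance] Alg.iR Alg.iA Cf.iG Cf.iM Rs.iG Rs.iM

universe u

variable {k : Type u} [CommRing k] {S T : Type u} [CommRing S] [CommRing T] [Algebra k S]
  [Algebra k T] {A B C : DGA k}

private theorem RsTb_ι_l (f : S →ₐ[k] T) (M : Bim (A.bc S) (B.bc S)) (a : (A.bc S).A) (m : M.M) :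
    M.ι f (M.l a m) = (M.cf f).l (push f A a) (M.ι f m) := by
  refine DGA.ι_ind (P := fun a => M.ι f (M.l a m) = (M.cf f).l (push f A a) (M.ι f m))
    ?_ ?_ ?_ a
  · simp only [map_zero, LinearMap.zero_apply]
  · intro x y hx hy
    simp only [map_add, LinearMap.add_apply, hx, hy]
  · intro s b
    rw [map_smul, LinearMap.smul_apply, Bim.ι_smul, push_smul, map_smul,
      LinearMap.smul_apply, push_ι, Bim.ι_l]

private theorem RsTb_ι_r (f : S →ₐ[k] T) (M : Bim (A.bc S) (B.bc S)) (b : (B.bc S).A) (m : M.M) :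
    M.ι f (M.r b m) = (M.cf f).r (push f B b) (M.ι f m) := by
  refine DGA.ι_ind (P := fun b => M.ι f (M.r b m) = (M.cf f).r (push f B b) (M.ι f m))
    ?_ ?_ ?_ b
  · simp only [map_zero, LinearMap.zero_apply]
  · intro x y hx hy
    simp only [map_add, LinearMap.add_apply, hx, hy]
  · intro s b
    rw [map_smul, LinearMap.smul_apply, Bim.ι_smul, push_smul, map_smul,
      LinearMap.smul_apply, push_ι, Bim.ι_r]

section maps

variable (f : S →ₐ[k] T) (N : Bim (A.bc T) (B.bc T)) (P : Bim (B.bc S) (C.bc S))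

/-- The bilinear map `(n, p) ↦ n ⊗ ι p`. -/
private def RsTb_β : (N.rs f).M →ₗ[S] P.M →ₗ[S] ((tb N (P.cf f)).rs f).M :=
  LinearMap.mk₂ S (fun n p => (tb N (P.cf f)).to f (tm (M := N) (N := P.cf f) (N.ofRs f n)
      (P.ι f p)))
    (fun n n' p => by rw [map_add, tm_add_left, map_add])
    (fun s n p => by
      rw [Bim.ofRs_smul, tm_smul_left]
      rfl)
    (fun n p p' => by rw [map_add, tm_add_right, map_add])
    (fun s n p => by
      rw [Bim.ι_smul, tm_smul_right]
      rfl)

private theorem RsTb_β_apply (n : (N.rs f).M) (p : P.M) : (tb N (P.cf f)).ofRs f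
    (RsTb_β f N P n p) = tm (M := N) (N := P.cf f) (N.ofRs f n) (P.ι f p) := rfl

private theorem RsTb_β_bal (n : (N.rs f).M) (b : (B.bc S).A) (p : P.M) :
    RsTb_β f N P ((N.rs f).r b n) p = RsTb_β f N P n (P.l b p) := by
  change tm (M := N) (N := P.cf f) (N.r (push f B b) (N.ofRs f n)) (P.ι f p) =
    tm (M := N) (N := P.cf f) (N.ofRs f n) (P.ι f (P.l b p))
  rw [RsTb_ι_l, tm_r_l]

/-- The map `n ⊗ p ↦ n ⊗ ι p`. -/
private def RsTb_F : (tb (N.rs f) P).M →ₗ[S] ((tb N (P.cf f)).rs f).M :=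
  tlift (RsTb_β f N P) (RsTb_β_bal f N P)

private theorem RsTb_F_tm (n : (N.rs f).M) (p : P.M) : (tb N (P.cf f)).ofRs f
    (RsTb_F f N P (tm n p)) = tm (M := N) (N := P.cf f) (N.ofRs f n) (P.ι f p) := by
  unfold RsTb_F
  rw [tlift_tm]
  rfl

private theorem RsTb_F_tm' (n : (N.rs f).M) (p : P.M) :
    RsTb_F f N P (tm n p) = (tb N (P.cf f)).to f (tm (M := N) (N := P.cf f) (N.ofRs f n)
      (P.ι f p)) := by
  unfold RsTb_F
  rw [tlift_tm]
  rfl

private def RsTb_φ : GMap 0 (tb (N.rs f) P) ((tb N (P.cf f)).rs f) where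
  f := RsTb_F f N P
  deg := fun {i x} hx => tb_degMap (Z := ((tb N (P.cf f)).rs f).dg) (RsTb_F f N P)
    (fun {i j v w} hv hw => by
      rw [RsTb_F_tm', add_zero]
      exact tb_deg (M := N) (N := P.cf f) ((Bim.ofRs_deg i v).1 hv) (Bim.ι_deg hw)) hx
  map_l := fun a x => by
    rw [Dg.sp_zero]
    refine tb_ind (P := fun x => RsTb_F f N P ((tb (N.rs f) P).l a x) =
      ((tb N (P.cf f)).rs f).l a (RsTb_F f N P x)) ?_ ?_ ?_ x
    · simp only [map_zero]
    · intro x y hx hy
      simp only [map_add, hx, hy]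
    · intro n p
      rw [tb_l, RsTb_F_tm', RsTb_F_tm']
      change tm (M := N) (N := P.cf f) (N.l (push f A a) (N.ofRs f n)) (P.ι f p) =
        (tb N (P.cf f)).l (push f A a) (tm (M := N) (N := P.cf f) (N.ofRs f n) (P.ι f p))
      rw [tb_l]
  map_r := fun b x => by
    refine tb_ind (P := fun x => RsTb_F f N P ((tb (N.rs f) P).r b x) =
      ((tb N (P.cf f)).rs f).r b (RsTb_F f N P x)) ?_ ?_ ?_ x
    · simp only [map_zero]
    · intro x y hx hy
      simp only [map_add, hx, hy]
    · intro n p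
      rw [tb_r, RsTb_F_tm', RsTb_F_tm']
      change tm (M := N) (N := P.cf f) (N.ofRs f n) (P.ι f (P.r b p)) =
        (tb N (P.cf f)).r (push f C b) (tm (M := N) (N := P.cf f) (N.ofRs f n) (P.ι f p))
      rw [tb_r, RsTb_ι_r]

private theorem RsTb_φ_dd : (RsTb_φ f N P).dd = 0 := by
  refine tb_hom_ext (fun n p => ?_)
  rw [GMap.dd_apply, sg_zero, one_smul, LinearMap.zero_apply, sub_eq_zero, tb_d, map_add]
  change ((tb N (P.cf f)).rs f).dg.d (RsTb_F f N P (tm n p)) =
    RsTb_F f N P (tm ((N.rs f).dg.d n) p) + RsTb_F f N P (tm ((N.rs f).dg.s n) (P.dg.d p))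
  rw [RsTb_F_tm', RsTb_F_tm', RsTb_F_tm']
  have h1 : (N.dg.rs f.toRingHom).s n = N.dg.s n :=
    Dg.rs_s (f := f.toRingHom) (X := N.dg) (n : N.M)
  change (tb N (P.cf f)).dg.d (tm (M := N) (N := P.cf f) (N.ofRs f n) (P.ι f p)) =
    tm (M := N) (N := P.cf f) (N.dg.d (N.ofRs f n)) (P.ι f p) +
      tm (M := N) (N := P.cf f) (N.ofRs f ((N.dg.rs f.toRingHom).s n)) (P.ι f (P.dg.d p))
  rw [h1, tb_d, Bim.ι_d]
  rfl

/-- The group `N ⊗_{B_S} P`, on which `T` acts. -/
private def RsTb_W : Type u := (tb (N.rs f) P).M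

private instance : AddCommGroup (RsTb_W f N P) := inferInstanceAs (AddCommGroup (tb (N.rs f) P).M)

/-- The element `n ⊗ p`. -/
private def RsTb_w (n : N.M) (p : P.M) : RsTb_W f N P := tm (M := N.rs f) (N := P) (N.to f n) p

private theorem RsTb_ind {Q : RsTb_W f N P → Prop} (h0 : Q 0)
    (hadd : ∀ x y, Q x → Q y → Q (x + y)) (h : ∀ n p, Q (RsTb_w f N P n p))
    (x : RsTb_W f N P) : Q x :=
  tb_ind (M := N.rs f) (N := P) (P := Q) h0 hadd (fun n p => h (N.ofRs f n) p) x

/-- The action of `t`. -/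
private def RsTb_act (t : T) : (tb (N.rs f) P).M →ₗ[S] (tb (N.rs f) P).M :=
  tlift (LinearMap.mk₂ S (fun n p => tm (M := N.rs f) (N := P) (N.to f (t • N.ofRs f n)) p)
    (fun n n' p => by rw [map_add, smul_add, map_add, tm_add_left])
    (fun s n p => by
      rw [Bim.ofRs_smul, smul_comm t (f s)]
      exact tm_smul_left (M := N.rs f) (N := P) s (N.to f (t • N.ofRs f n)) p)
    (fun n p p' => tm_add_right _ _ _)
    (fun s n p => tm_smul_right _ _ _))
    (fun n b p => by
      rw [LinearMap.mk₂_apply, LinearMap.mk₂_apply]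
      have h : N.to f (t • N.ofRs f ((N.rs f).r b n)) =
          (N.rs f).r b (N.to f (t • N.ofRs f n)) := by
        change t • N.r (push f B b) (N.ofRs f n) = N.r (push f B b) (t • N.ofRs f n)
        rw [map_smul]
      rw [h, tm_r_l])

private theorem RsTb_act_w (t : T) (n : N.M) (p : P.M) :
    RsTb_act f N P t (RsTb_w f N P n p) = RsTb_w f N P (t • n) p := by
  unfold RsTb_act RsTb_w
  rw [tlift_tm]
  rfl

private instance : Module T (RsTb_W f N P) where
  smul := fun t x => RsTb_act f N P t x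
  one_smul := fun x => by
    change RsTb_act f N P 1 x = x
    refine RsTb_ind f N P (Q := fun x => RsTb_act f N P 1 x = x) (map_zero _) ?_ ?_ x
    · intro x y hx hy
      exact (map_add (RsTb_act f N P 1) x y).trans (congrArg₂ _ hx hy)
    · intro n p
      rw [RsTb_act_w, one_smul]
  mul_smul := fun t t' x => by
    change RsTb_act f N P (t * t') x = RsTb_act f N P t (RsTb_act f N P t' x)
    refine RsTb_ind f N P (Q := fun x => RsTb_act f N P (t * t') x =
      RsTb_act f N P t (RsTb_act f N P t' x)) ?_ ?_ ?_ x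
    · exact (map_zero (RsTb_act f N P (t * t'))).trans
        (((congrArg (RsTb_act f N P t) (map_zero (RsTb_act f N P t'))).trans
          (map_zero (RsTb_act f N P t))).symm)
    · intro x y hx hy
      exact (map_add (RsTb_act f N P (t * t')) x y).trans ((congrArg₂ _ hx hy).trans
        (((congrArg (RsTb_act f N P t) (map_add (RsTb_act f N P t') x y)).trans
          (map_add (RsTb_act f N P t) _ _)).symm))
    · intro n p
      rw [RsTb_act_w, RsTb_act_w, RsTb_act_w, mul_smul]
  smul_zero := fun t => map_zero (RsTb_act f N P t)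
  smul_add := fun t x y => map_add (RsTb_act f N P t) x y
  add_smul := fun t t' x => by
    change RsTb_act f N P (t + t') x = RsTb_act f N P t x + RsTb_act f N P t' x
    refine RsTb_ind f N P (Q := fun x => RsTb_act f N P (t + t') x =
      RsTb_act f N P t x + RsTb_act f N P t' x) ?_ ?_ ?_ x
    · exact (map_zero (RsTb_act f N P (t + t'))).trans
        (((congrArg₂ _ (map_zero (RsTb_act f N P t)) (map_zero (RsTb_act f N P t'))).trans
          (add_zero _)).symm)
    · intro x y hx hy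
      exact (map_add (RsTb_act f N P (t + t')) x y).trans ((congrArg₂ _ hx hy).trans
        ((add_add_add_comm _ _ _ _).trans
        (congrArg₂ _ (map_add (RsTb_act f N P t) x y).symm
          (map_add (RsTb_act f N P t') x y).symm)))
    · intro n p
      rw [RsTb_act_w, RsTb_act_w, RsTb_act_w, add_smul]
      exact tm_add_left (M := N.rs f) (N := P) (N.to f (t • n)) (N.to f (t' • n)) p
  zero_smul := fun x => by
    change RsTb_act f N P 0 x = 0
    refine RsTb_ind f N P (Q := fun x => RsTb_act f N P 0 x = 0) (map_zero _) ?_ ?_ x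
    · intro x y hx hy
      exact (map_add (RsTb_act f N P 0) x y).trans ((congrArg₂ _ hx hy).trans (add_zero _))
    · intro n p
      rw [RsTb_act_w, zero_smul]
      exact tm_zero_left (M := N.rs f) (N := P) p

private theorem RsTb_smul_w (t : T) (n : N.M) (p : P.M) :
    t • RsTb_w f N P n p = RsTb_w f N P (t • n) p := RsTb_act_w f N P t n p

private theorem RsTb_w_smul (s : S) (n : N.M) (p : P.M) :
    RsTb_w f N P n (s • p) = f s • RsTb_w f N P n p := by
  rw [RsTb_smul_w]
  exact (tm_smul_right (M := N.rs f) (N := P) s (N.to f n) p).trans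
    (tm_smul_left (M := N.rs f) (N := P) s (N.to f n) p).symm

/-- The map `ι p ↦ n ⊗ p`. -/
private def RsTb_γ (n : N.M) : (P.cf f).M →ₗ[T] RsTb_W f N P :=
  Bim.lift f
    { toFun := fun p => RsTb_w f N P n p
      map_zero' := tm_zero_right (M := N.rs f) (N := P) (N.to f n)
      map_add' := fun p p' => tm_add_right (M := N.rs f) (N := P) (N.to f n) p p' }
    (fun s p => RsTb_w_smul f N P s n p)

private theorem RsTb_γ_ι (n : N.M) (p : P.M) : RsTb_γ f N P n (P.ι f p) = RsTb_w f N P n p :=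
  Bim.lift_ι _ _ p

/-- The bilinear map `n, ι p ↦ n ⊗ p`. -/
private def RsTb_δ : N.M →ₗ[T] (P.cf f).M →ₗ[T] RsTb_W f N P where
  toFun := RsTb_γ f N P
  map_add' := fun n n' => Bim.ι_ext (fun p => by
    rw [LinearMap.add_apply, RsTb_γ_ι, RsTb_γ_ι, RsTb_γ_ι]
    exact tm_add_left (M := N.rs f) (N := P) (N.to f n) (N.to f n') p)
  map_smul' := fun t n => Bim.ι_ext (fun p => by
    rw [LinearMap.smul_apply, RsTb_γ_ι, RsTb_γ_ι, RingHom.id_apply, RsTb_smul_w])

private theorem RsTb_δ_ι (n : N.M) (p : P.M) :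
    RsTb_δ f N P n (P.ι f p) = RsTb_w f N P n p := RsTb_γ_ι f N P n p

private theorem RsTb_δ_bal (n : N.M) (b : (B.bc T).A) (q : (P.cf f).M) :
    RsTb_δ f N P (N.r b n) q = RsTb_δ f N P n ((P.cf f).l b q) := by
  refine DGA.ι_ind (P := fun b => RsTb_δ f N P (N.r b n) q =
    RsTb_δ f N P n ((P.cf f).l b q)) ?_ ?_ ?_ b
  · simp only [map_zero, LinearMap.zero_apply]
  · intro x y hx hy
    simp only [map_add, LinearMap.add_apply, hx, hy]
  · intro s b
    simp only [map_smul, LinearMap.smul_apply]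
    congr 1
    refine Bim.ι_ind (M := P) (f := f) (P := fun q => RsTb_δ f N P (N.r (B.ι T b) n) q =
      RsTb_δ f N P n ((P.cf f).l (B.ι T b) q)) ?_ ?_ ?_ q
    · simp only [map_zero]
    · intro x y hx hy
      simp only [map_add, hx, hy]
    · intro s p
      simp only [map_smul]
      congr 1
      rw [Bim.ι_l, RsTb_δ_ι, RsTb_δ_ι]
      have h := tm_r_l (M := N.rs f) (N := P) (N.to f n) (B.ι S b) p
      have h2 : (N.rs f).r (B.ι S b) (N.to f n) = N.to f (N.r (B.ι T b) n) := by
        change N.r (push f B (B.ι S b)) n = N.r (B.ι T b) n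
        rw [push_ι]
      rw [h2] at h
      exact h

/-- The inverse. -/
private def RsTb_G : (tb N (P.cf f)).M →ₗ[T] RsTb_W f N P :=
  tlift (RsTb_δ f N P) (RsTb_δ_bal f N P)

private theorem RsTb_G_tm (n : N.M) (q : (P.cf f).M) :
    RsTb_G f N P (tm n q) = RsTb_δ f N P n q := by
  unfold RsTb_G
  rw [tlift_tm]

private theorem RsTb_G_F (x : (tb (N.rs f) P).M) :
    RsTb_G f N P ((tb N (P.cf f)).ofRs f (RsTb_F f N P x)) = x := by
  refine tb_ind (M := N.rs f) (N := P) (P := fun x =>
    RsTb_G f N P ((tb N (P.cf f)).ofRs f (RsTb_F f N P x)) = x) ?_ ?_ ?_ x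
  · simp only [map_zero]
    rfl
  · intro x y hx hy
    rw [map_add, map_add, map_add, hx, hy]
    rfl
  · intro n p
    rw [RsTb_F_tm, RsTb_G_tm, RsTb_δ_ι]
    rfl

private theorem RsTb_F_G (y : (tb N (P.cf f)).M) :
    (tb N (P.cf f)).ofRs f (RsTb_F f N P (RsTb_G f N P y)) = y := by
  refine tb_ind (M := N) (N := P.cf f) (P := fun y =>
    (tb N (P.cf f)).ofRs f (RsTb_F f N P (RsTb_G f N P y)) = y) ?_ ?_ ?_ y
  · rw [map_zero]
    exact (congrArg _ (map_zero (RsTb_F f N P))).trans (map_zero _)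
  · intro x y hx hy
    rw [map_add]
    exact (congrArg _ (map_add (RsTb_F f N P) _ _)).trans
      ((map_add _ _ _).trans (congrArg₂ _ hx hy))
  · intro n q
    rw [RsTb_G_tm]
    refine Bim.ι_ind (M := P) (f := f) (P := fun q =>
      (tb N (P.cf f)).ofRs f (RsTb_F f N P (RsTb_δ f N P n q)) = tm n q) ?_ ?_ ?_ q
    · rw [map_zero, tm_zero_right]
      exact (congrArg _ (map_zero (RsTb_F f N P))).trans (map_zero _)
    · intro x y hx hy
      rw [map_add, tm_add_right]
      exact (congrArg _ (map_add (RsTb_F f N P) _ _)).trans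
        ((map_add _ _ _).trans (congrArg₂ _ hx hy))
    · intro t p
      rw [map_smul, RsTb_δ_ι, RsTb_smul_w, tm_smul_right, ← tm_smul_left]
      exact RsTb_F_tm f N P (N.to f (t • n)) p

end maps

/-- THE PROJECTION FORMULA: `N ⊗_{B_T} P_T = N ⊗_{B_S} P` as bimodules over `S`.

Proof: the map is `tm n p ↦ tm n (P.ι f p)` (as in `BC/BcTb.lean`: `tlift`, balanced by `push_ι` and
`Bim.ι_l`; compare `rsQt_ι_l` in `BC/RsQt.lean` for the action of all elements of `B_S`). The inverse:
the group `(tb (N.rs f) P).M` is a `T`-module by `t • tm n p = tm (t • n) p` (define the operators by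
`tlift`, the axioms hold by `tb_ind`; use a private type synonym with local instances), and
`n, ι p ↦ tm n p` extends to a `T`-bilinear balanced map (`Bim.lift`), so use `tlift` over `T`. -/
theorem rs_tb (f : S →ₐ[k] T) (N : Bim (A.bc T) (B.bc T)) (P : Bim (B.bc S) (C.bc S)) :
    BIso ((tb N (P.cf f)).rs f) (tb (N.rs f) P) := by
  exact (BIso.of_bij (RsTb_φ f N P) (RsTb_φ_dd f N P) (Function.bijective_iff_has_inverse.2
    ⟨fun y => RsTb_G f N P ((tb N (P.cf f)).ofRs f y), fun x => RsTb_G_F f N P x,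
      fun y => RsTb_F_G f N P ((tb N (P.cf f)).ofRs f y)⟩)).symm

end Pool.Agent.MP_6e5bed_ag_NC
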