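import Pool.Agent.Lib.MP_6e5bed_ag_UD.PsiK
import Pool.Agent.Lib.MP_6e5bed_ag_UD.RsTb
import Pool.Agent.Lib.MP_6e5bed_ag_BC.SpGerm
import Pool.Agent.Lib.MP_6e5bed_ag_BC.Transfer
import Pool.Agent.Lib.MP_6e5bed_ag_WW.WFin

set_option autoImplicit false
set_option linter.unusedVariables false

/-!
# MP_6e5bed_ag, universal domains: the classes over `S` which factor through given classes
-/

noncomputable section

namespace Pool.Agent.MP_6e5bed_ag_UD

open Pool.Agent.MP_6e5bed_ag_NC Pool.Agent.MP_6e5bed_ag_WW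

universe u

variable {k : Type u} [Field k] {T : DGA k} {ι : Type (u + 1)} {T' : ι → DGA k}
  (hp' : ∀ a, Proper (T' a)) (y : ∀ a, K0Q (T' a) T)

/-- The classes over `S` which are sums of classes which factor through the `y a`. -/
def JB (S : Type u) [CommRing S] [Algebra k S] : Submodule ℚ (K0Q ((base k).bc S) (T.bc S)) :=
  ⨆ a, LinearMap.range ((K0Q.comp (A := (base k).bc S) (C := T.bc S) ((hp' a).bc S)).flip
    (up S (y a)))

variable {S S' : Type u} [CommRing S] [Algebra k S] [CommRing S'] [Algebra k S']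

theorem mem_JB (a : ι) (v : K0Q ((base k).bc S) ((T' a).bc S)) :
    K0Q.comp ((hp' a).bc S) v (up S (y a)) ∈ JB hp' y S :=
  (le_iSup (fun a => LinearMap.range ((K0Q.comp (A := (base k).bc S) (C := T.bc S)
    ((hp' a).bc S)).flip (up S (y a)))) a) ⟨v, rfl⟩

/-- as `mem_JU_iff` -/
theorem mem_JB_iff (x : K0Q ((base k).bc S) (T.bc S)) : x ∈ JB hp' y S ↔
    ∃ (s : Finset ι) (v : ∀ a, K0Q ((base k).bc S) ((T' a).bc S)),
      ∑ a ∈ s, K0Q.comp ((hp' a).bc S) (v a) (up S (y a)) = x := by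
  constructor
  · intro h
    obtain ⟨f, hf, hs⟩ := (Submodule.mem_iSup_iff_exists_finsupp _ _).1 h
    choose v hv using hf
    refine ⟨f.support, v, ?_⟩
    rw [← hs, Finsupp.sum]
    exact Finset.sum_congr rfl fun a _ => hv a
  · rintro ⟨s, v, rfl⟩
    exact Submodule.sum_mem _ fun a _ => mem_JB hp' y a (v a)

/-- base change (`K0Q.cf_comp`, `cf_up`) -/
theorem cf_mem_JB (f : S →ₐ[k] S') {x : K0Q ((base k).bc S) (T.bc S)} (hx : x ∈ JB hp' y S) :
    K0Q.cf f x ∈ JB hp' y S' := by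
  obtain ⟨s, v, rfl⟩ := (mem_JB_iff hp' y x).1 hx
  rw [map_sum]
  refine Submodule.sum_mem _ fun a _ => ?_
  rw [K0Q.cf_comp f ((hp' a).bc S) ((hp' a).bc S') (v a) (up S (y a)), cf_up]
  exact mem_JB hp' y a _

/-- comparison with `JU` (`psiK_bij`, `psiK_comp`, `mem_JU_iff`, `mem_JB_iff`) -/
theorem psiK_mem_iff (x : K0Q ((base k).bc S) (T.bc S)) :
    psiK k S T x ∈ JU (ring k S) hp' y ↔ x ∈ JB hp' y S := by
  constructor
  · intro h
    obtain ⟨s, v, hv⟩ := (mem_JU_iff hp' y _).1 h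
    refine (mem_JB_iff hp' y x).2 ⟨s, fun a => thetaK k S (T' a) (v a), ?_⟩
    apply (psiK_bij (k := k) (B := T) S).1
    rw [map_sum, ← hv]
    refine Finset.sum_congr rfl fun a _ => ?_
    rw [psiK_comp S (hp' a), psiK_thetaK]
  · intro h
    obtain ⟨s, v, rfl⟩ := (mem_JB_iff hp' y x).1 h
    rw [map_sum]
    refine Submodule.sum_mem _ fun a _ => ?_
    rw [psiK_comp S (hp' a)]
    exact mem_JU hp' y a _

/-- Spreading out: by `mem_JB_iff` and `K0Q.exists_cf` the finitely many classes `v a` over `K` come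
from a finitely generated subalgebra `U ≥ S`; the difference of the two classes over `U` dies over
`K`
(`K0Q.cf_cf'`, `K0Q.cf_comp`, `cf_up`), so it dies over a larger finitely generated subalgebra
(`K0Q.cf_zero`). -/
theorem spread_JB {K : Type u} [CommRing K] [Algebra k K] {S : FGS k K}
    (x : K0Q ((base k).bc S.1) (T.bc S.1)) (hx : K0Q.cf S.val x ∈ JB hp' y K) :
    ∃ (U : FGS k K) (h : S ≤ U), K0Q.cf (FGS.inc h) x ∈ JB hp' y U.1 := by
  classical
  obtain ⟨s, v, hv⟩ := (mem_JB_iff hp' y _).1 hx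
  choose R w hw using fun a => K0Q.exists_cf (v a)
  obtain ⟨U, hSU, hU⟩ : ∃ U : FGS k K, S ≤ U ∧ ∀ a ∈ s, R a ≤ U := by
    clear hv
    induction s using Finset.induction_on with
    | empty => exact ⟨S, le_rfl, fun a ha => absurd ha (Finset.notMem_empty a)⟩
    | insert b s _ ih =>
      obtain ⟨U, h1, h2⟩ := ih
      obtain ⟨V, h3, h4⟩ := exists_ge_ge U (R b)
      refine ⟨V, h1.trans h3, fun a ha => ?_⟩
      rcases Finset.mem_insert.1 ha with rfl | h
      · exact h4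
      · exact (h2 a h).trans h3
  let w' : ∀ a, K0Q ((base k).bc U.1) ((T' a).bc U.1) := fun a =>
    if h : R a ≤ U then K0Q.cf (FGS.inc h) (w a) else 0
  have hw' : ∀ a ∈ s, K0Q.cf U.val (w' a) = v a := by
    intro a ha
    have h1 : w' a = K0Q.cf (FGS.inc (hU a ha)) (w a) := dif_pos (hU a ha)
    rw [h1, K0Q.cf_cf' (FGS.inc (hU a ha)) U.val (R a).val (FGS.val_inc (hU a ha)), hw a]
  have hd : K0Q.cf U.val (K0Q.cf (FGS.inc hSU) x -
      ∑ a ∈ s, K0Q.comp ((hp' a).bc U.1) (w' a) (up U.1 (y a))) = 0 := by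
    rw [map_sub, K0Q.cf_cf' (FGS.inc hSU) U.val S.val (FGS.val_inc hSU), map_sum, ← hv,
      sub_eq_zero]
    refine Finset.sum_congr rfl fun a ha => ?_
    rw [K0Q.cf_comp U.val ((hp' a).bc U.1) ((hp' a).bc K) (w' a) (up U.1 (y a)), cf_up,
      hw' a ha]
  obtain ⟨V, hUV, h0⟩ := K0Q.cf_zero _ hd
  refine ⟨V, hSU.trans hUV, ?_⟩
  rw [map_sub, sub_eq_zero,
    K0Q.cf_cf' (FGS.inc hSU) (FGS.inc hUV) (FGS.inc (hSU.trans hUV)) (FGS.inc_inc hSU hUV)] at h0
  rw [h0]
  exact cf_mem_JB hp' y (FGS.inc hUV)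
    ((mem_JB_iff hp' y _).2 ⟨s, w', rfl⟩)

end Pool.Agent.MP_6e5bed_ag_UD
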