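import Pool.Agent.Lib.MP_6e5bed_ag_BC.SpGerm
import Pool.Agent.Lib.MP_6e5bed_ag_UD.JB
import Pool.Agent.Lib.MP_6e5bed_ag_SP.BcTrans

set_option autoImplicit false
set_option linter.unusedVariables false

/-!
# MP_6e5bed_ag, universal domains: classes over finitely generated fields, towers of fields
-/

noncomputable section

namespace Pool.Agent.MP_6e5bed_ag_UD

open Pool.Agent.MP_6e5bed_ag_NC Pool.Agent.MP_6e5bed_ag_WW

universe u

section

variable {F : Type u} [Field F] {A B : DGA F} {K : Type u} [Field K] [Algebra F K]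

/-- A class is defined over a finitely generated field. (`K0Q.exists_cf`, `K0Q.cf_cf'`; `s` generates
the subalgebra.) -/
theorem class_descent (y : K0Q (A.bc K) (B.bc K)) : ∃ s : Finset K,
    ∀ E : IntermediateField F K, (s : Set K) ⊆ E →
      ∃ z : K0Q (A.bc E) (B.bc E), K0Q.cf E.val z = y := by
  obtain ⟨S, x, rfl⟩ := K0Q.exists_cf y
  obtain ⟨s, hs⟩ := S.2
  refine ⟨s, fun E hE => ?_⟩
  have h : S.1 ≤ E.toSubalgebra := by
    rw [← hs]
    exact Algebra.adjoin_le hE
  let g : S.1 →ₐ[F] E := Subalgebra.inclusion h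
  exact ⟨K0Q.cf g x, K0Q.cf_cf' g E.val S.val (fun _ => rfl) x⟩

end

section

variable {E K Ω : Type u} [Field E] [Field K] [CommRing Ω] [Algebra E K] [Algebra E Ω] [Algebra K Ω]
  [IsScalarTower E K Ω] {A B C : DGA E}

/-- The comparison of `((base K).bc Ω, (A.bc K).bc Ω)` with `((base E).bc Ω, A.bc Ω)`. -/
def tow (E K Ω : Type u) [Field E] [Field K] [CommRing Ω] [Algebra E K] [Algebra E Ω]
    [Algebra K Ω] [IsScalarTower E K Ω] (A : DGA E) :
    K0Q ((base E).bc Ω) (A.bc Ω) →ₗ[ℚ] K0Q ((base K).bc Ω) ((A.bc K).bc Ω) :=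
  K0Q.res ((baseIso (k := K) Ω).trans (baseIso (k := E) Ω).symm) (bcTrans K Ω A)

section aux

attribute [local instance] Alg.iR Alg.iA Cf.iG Cf.iM Rs.iG Rs.iM

private theorem DsK_hom_ι (x : (A.bc K).A) : (bcTrans K Ω A).hom.f ((A.bc K).ι Ω x) =
    push (IsScalarTower.toAlgHom E K Ω) A x :=
  DGA.lift_ι (A := A.bc K) (S := Ω) (push (IsScalarTower.toAlgHom E K Ω) A)
    (fun s x => push_smul (IsScalarTower.toAlgHom E K Ω) s x) x

private theorem DsK_l (N : Bim (A.bc K) (B.bc K)) (a : (A.bc K).A) (m : N.M) :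
    (N.cf (IsScalarTower.toAlgHom E K Ω)).l (push (IsScalarTower.toAlgHom E K Ω) A a)
      (N.ι (IsScalarTower.toAlgHom E K Ω) m) = N.ι (IsScalarTower.toAlgHom E K Ω) (N.l a m) := by
  refine DGA.ι_ind (P := fun a => (N.cf (IsScalarTower.toAlgHom E K Ω)).l
    (push (IsScalarTower.toAlgHom E K Ω) A a) (N.ι (IsScalarTower.toAlgHom E K Ω) m) =
      N.ι (IsScalarTower.toAlgHom E K Ω) (N.l a m)) ?_ ?_ ?_ a
  · simp only [map_zero, LinearMap.zero_apply]
  · intro x y hx hy
    simp only [map_add, LinearMap.add_apply, hx, hy]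
  · intro s a
    rw [push_smul, push_ι, map_smul, LinearMap.smul_apply, map_smul, LinearMap.smul_apply,
      Bim.ι_l, Bim.ι_smul]

private theorem DsK_r (N : Bim (A.bc K) (B.bc K)) (b : (B.bc K).A) (m : N.M) :
    (N.cf (IsScalarTower.toAlgHom E K Ω)).r (push (IsScalarTower.toAlgHom E K Ω) B b)
      (N.ι (IsScalarTower.toAlgHom E K Ω) m) = N.ι (IsScalarTower.toAlgHom E K Ω) (N.r b m) := by
  refine DGA.ι_ind (P := fun b => (N.cf (IsScalarTower.toAlgHom E K Ω)).r
    (push (IsScalarTower.toAlgHom E K Ω) B b) (N.ι (IsScalarTower.toAlgHom E K Ω) m) =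
      N.ι (IsScalarTower.toAlgHom E K Ω) (N.r b m)) ?_ ?_ ?_ b
  · simp only [map_zero, LinearMap.zero_apply]
  · intro x y hx hy
    simp only [map_add, LinearMap.add_apply, hx, hy]
  · intro s b
    rw [push_smul, push_ι, map_smul, LinearMap.smul_apply, map_smul, LinearMap.smul_apply,
      Bim.ι_r, Bim.ι_smul]

private theorem DsK_iso (N : Bim (A.bc K) (B.bc K)) :
    BIso ((res (selfIso (A.bc K)).hom (selfIso (B.bc K)).hom N).cf (Algebra.ofId K Ω))
      (res (bcTrans K Ω A).hom (bcTrans K Ω B).hom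
        (N.cf (IsScalarTower.toAlgHom E K Ω))) := by
  let M := res (selfIso (A.bc K)).hom (selfIso (B.bc K)).hom N
  let W := res (bcTrans K Ω A).hom (bcTrans K Ω B).hom (N.cf (IsScalarTower.toAlgHom E K Ω))
  let φ : GMap 0 (M.cf (Algebra.ofId K Ω)) W :=
    GMap.ofCf (M := M) (f := Algebra.ofId K Ω) (P := W)
      (LinearMap.id : (M.cf (Algebra.ofId K Ω)).M →ₗ[Ω] (M.cf (Algebra.ofId K Ω)).M)
      (fun {j v} hv => by
        rw [add_zero]
        exact Bim.ι_deg (M := N) (f := IsScalarTower.toAlgHom E K Ω) hv)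
      (fun a m => by
        rw [Dg.sp_even Even.zero]
        have h1 : M.l ((A.bc K).ι K a) m = N.l a m :=
          congrArg (fun z => N.l z m) (selfIso_ι (A.bc K) a)
        have h2 := DsK_l (Ω := Ω) N a m
        have h3 := congrArg (fun z => (N.cf (IsScalarTower.toAlgHom E K Ω)).l z
          (N.ι (IsScalarTower.toAlgHom E K Ω) m)) (DsK_hom_ι (Ω := Ω) (A := A) a)
        exact (congrArg (fun z => M.ι (Algebra.ofId K Ω) z) h1).trans (h2.symm.trans h3.symm))
      (fun b m => by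
        have h1 : M.r ((B.bc K).ι K b) m = N.r b m :=
          congrArg (fun z => N.r z m) (selfIso_ι (B.bc K) b)
        have h2 := DsK_r (Ω := Ω) N b m
        have h3 := congrArg (fun z => (N.cf (IsScalarTower.toAlgHom E K Ω)).r z
          (N.ι (IsScalarTower.toAlgHom E K Ω) m)) (DsK_hom_ι (Ω := Ω) (A := B) b)
        exact (congrArg (fun z => M.ι (Algebra.ofId K Ω) z) h1).trans (h2.symm.trans h3.symm))
  refine BIso.of_bij φ ?_ Function.bijective_id
  ext x
  rw [GMap.dd_apply, sg_zero, one_smul, LinearMap.zero_apply]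
  exact sub_self _

end aux

/-- the base change of a class along `K → Ω`, with the base `K` and with the base `E` -/
private theorem DsK_up (z : K0Q (A.bc K) (B.bc K)) : up (k := K) Ω z =
    K0Q.res (bcTrans K Ω A) (bcTrans K Ω B) (K0Q.cf (IsScalarTower.toAlgHom E K Ω) z) := by
  have h : (K0Q.cf (Algebra.ofId K Ω)).comp (K0Q.res (selfIso (A.bc K)) (selfIso (B.bc K))) =
      (K0Q.res (bcTrans K Ω A) (bcTrans K Ω B)).comp
        (K0Q.cf (IsScalarTower.toAlgHom E K Ω)) := K0Q.hom_ext (fun M hM => by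
    rw [LinearMap.comp_apply, LinearMap.comp_apply, K0Q.res_cls, K0Q.cf_cls, K0Q.cf_cls,
      K0Q.res_cls]
    exact K0Q.cls_iso (DsK_iso M) _ _)
  exact LinearMap.congr_fun h z

private theorem DsK_res_bij {A B A' B' : DGA Ω} (φ : DIso A A') (ψ : DIso B B') :
    Function.Bijective (K0Q.res φ ψ) := by
  have h1 : ∀ {A A' : DGA Ω} (φ : DIso A A'), φ.trans φ.symm = DIso.refl A :=
    fun φ => DIso.ext (fun x => φ.hom_inv x)
  have h2 : ∀ {A A' : DGA Ω} (φ : DIso A A'), φ.symm.trans φ = DIso.refl A' :=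
    fun φ => DIso.ext (fun x => φ.inv_hom x)
  refine Function.bijective_iff_has_inverse.2
    ⟨K0Q.res φ.symm ψ.symm, fun x => ?_, fun x => ?_⟩
  · rw [K0Q.res_res, h2, h2, K0Q.res_refl]
  · rw [K0Q.res_res, h1, h1, K0Q.res_refl]

/-- (`K0Q.res_res`, `K0Q.res_refl`) -/
theorem tow_bij : Function.Bijective (tow E K Ω A) := by
  exact DsK_res_bij _ _

/-- The class of a bimodule over `E`, extended to `K` and then to `Ω`: `up Ω (up K y)` is `up Ω y`.
(both sides on `cls M`, or `K0Q.cf_res` and a comparison of `Bim.cf`s along `bcTrans`) -/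
theorem up_up (y : K0Q A B) :
    up (k := K) Ω (up (k := E) K y) = K0Q.res (bcTrans K Ω A) (bcTrans K Ω B) (up (k := E) Ω y) := by
  rw [DsK_up, cf_up]

/-- (`K0Q.res_comp'`, `K0Q.comp_res_mid`, `up_up`) -/
theorem tow_comp (hA : Proper A) (v : K0Q ((base E).bc Ω) (A.bc Ω)) (y : K0Q A B) :
    tow E K Ω B (K0Q.comp (hA.bc Ω) v (up Ω y)) =
      K0Q.comp ((hA.bc K).bc Ω) (tow E K Ω A v) (up (k := K) Ω (up (k := E) K y)) := by
  have h1 : ∀ {A A' : DGA Ω} (φ : DIso A A'), φ.trans (DIso.refl A') = φ :=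
    fun φ => DIso.ext (fun x => rfl)
  have h2 : ∀ {A A' : DGA Ω} (φ : DIso A A'), (DIso.refl A).trans φ = φ :=
    fun φ => DIso.ext (fun x => rfl)
  rw [up_up, tow, tow, K0Q.res_comp',
    ← K0Q.comp_res_mid ((hA.bc K).bc Ω) (hA.bc Ω) (bcTrans K Ω A), K0Q.res_res, K0Q.res_res,
    h1, h2, h2]

/-- If every class over `Ω` factors through the `y a` with the base `K` then it does so with the base
`E`. -/
theorem JB_tower {ι : Type (u + 1)} {T : DGA E} {T' : ι → DGA E} (hp' : ∀ a, Proper (T' a))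
    (y : ∀ a, K0Q (T' a) T)
    (h : ∀ x : K0Q ((base K).bc Ω) ((T.bc K).bc Ω),
      x ∈ JB (k := K) (T' := fun a => (T' a).bc K) (fun a => (hp' a).bc K)
        (fun a => up (k := E) K (y a)) Ω)
    (x : K0Q ((base E).bc Ω) (T.bc Ω)) : x ∈ JB hp' y Ω := by
  obtain ⟨s, v, hv⟩ := (mem_JB_iff (k := K) (T' := fun a => (T' a).bc K) (fun a => (hp' a).bc K)
    (fun a => up (k := E) K (y a)) _).1 (h (tow E K Ω T x))
  choose w hw using fun a => (tow_bij (E := E) (K := K) (Ω := Ω) (A := T' a)).2 (v a)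
  refine (mem_JB_iff hp' y x).2 ⟨s, w, (tow_bij (E := E) (K := K) (Ω := Ω) (A := T)).1 ?_⟩
  rw [map_sum, ← hv]
  refine Finset.sum_congr rfl (fun a _ => ?_)
  rw [tow_comp (hp' a), hw]

end

end Pool.Agent.MP_6e5bed_ag_UD
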