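import Pool.Agent.Lib.MP_6e5bed_ag_BC.SpMap
import Pool.Agent.Lib.MP_6e5bed_ag_BC.SpModel
import Pool.Agent.Lib.MP_6e5bed_ag_BC.BcDiag
import Pool.Agent.Lib.MP_6e5bed_ag_BC.BcRq
import Pool.Agent.Lib.MP_6e5bed_ag_NC.FieldIff

set_option autoImplicit false
set_option linter.unusedVariables false

/-!
# MP_6e5bed_ag, universal domains: smoothness is defined over finitely generated fields
-/

noncomputable section

namespace Pool.Agent.MP_6e5bed_ag_UD

open Pool.Agent.MP_6e5bed_ag_NC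

attribute [local instance] Alg.iR Alg.iA Cf.iG Cf.iM Rs.iG Rs.iM

universe u

variable {F : Type u} [Field F] {A B : DGA F} {K : Type u} [Field K] [Algebra F K]

/-- A retraction of a field extension. -/
private theorem dsQ_retr {E : Type u} [Field E] [Algebra F E] (f : E →ₐ[F] K) :
    ∃ ρ : K →+ E, ρ 1 = 1 ∧ ∀ (e : E) (c : K), ρ (f e * c) = e * ρ c := by
  let _ : Algebra E K := f.toRingHom.toAlgebra
  obtain ⟨ρ, hρ⟩ := LinearMap.exists_leftInverse_of_injective (Algebra.linearMap E K)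
    (LinearMap.ker_eq_bot.2 f.toRingHom.injective)
  refine ⟨ρ.toAddMonoidHom, ?_, fun e c => ?_⟩
  · have h1 := LinearMap.congr_fun hρ (1 : E)
    rw [LinearMap.comp_apply, LinearMap.id_apply, Algebra.linearMap_apply, map_one] at h1
    exact h1
  · exact ρ.map_smul e c

/-- The retraction of `K ⊗ V` on `V`. -/
private theorem dsQ_cf {E : Type u} [Field E] (f : E →+* K) (ρ : K →+ E)
    (hρ : ∀ (e : E) (c : K), ρ (f e * c) = e * ρ c) (V : Type u) [AddCommGroup V] [Module E V] :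
    ∃ R : Cf f V →+ V, ∀ (c : K) (v : V), R (c • Cf.ι f v) = ρ c • v := by
  let ρ' : Alg f →ₗ[E] E :=
    { toFun := fun c => ρ c
      map_add' := fun c c' => map_add ρ c c'
      map_smul' := fun e c => hρ e c }
  let R : TensorProduct E (Alg f) V →ₗ[E] V := TensorProduct.lift ((LinearMap.lsmul E V).comp ρ')
  refine ⟨R.toAddMonoidHom, fun c v => ?_⟩
  have h1 : ∀ c : Alg f, R (c • TensorProduct.tmul E (1 : Alg f) v) = ρ' c • v := fun c => by
    rw [TensorProduct.smul_tmul', smul_eq_mul, mul_one]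
    exact TensorProduct.lift.tmul _ _
  exact h1 c

/-- The retraction of `K ⊗ M` on `M`. -/
private theorem dsQ_bim {E : Type u} [Field E] [Algebra F E] (f : E →ₐ[F] K) :
    ∃ R : ∀ M : Bim (A.bc E) (B.bc E), (M.cf f).M →+ M.M,
      (∀ M m, R M (M.ι f m) = m) ∧
      (∀ M x, R M ((M.cf f).dg.d x) = M.dg.d (R M x)) ∧
      ∀ (M N : Bim (A.bc E) (B.bc E)) (φ : GMap 0 M N) (x : (M.cf f).M),
        R N ((φ.cf f).f x) = φ.f (R M x) := by
  obtain ⟨ρ, h1, hρ⟩ := dsQ_retr f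
  have key : ∀ M : Bim (A.bc E) (B.bc E), ∃ R : (M.cf f).M →+ M.M,
      ∀ (c : K) (m : M.M), R (c • M.ι f m) = ρ c • m :=
    fun M => dsQ_cf f.toRingHom ρ hρ M.M
  choose R hR using key
  have hR1 : ∀ M m, R M (M.ι f m) = m := fun M m => by
    have h2 := hR M 1 m
    rwa [one_smul, h1, one_smul] at h2
  refine ⟨R, hR1, fun M x => ?_, fun M N φ x => ?_⟩
  · refine Bim.ι_ind (P := fun x => R M ((M.cf f).dg.d x) = M.dg.d (R M x)) ?_ ?_ ?_ x
    · simp only [map_zero]
    · intro x y hx hy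
      simp only [map_add, hx, hy]
    · intro c m
      rw [map_smul, Bim.ι_d, hR, hR, map_smul]
  · refine Bim.ι_ind (P := fun x => R N ((φ.cf f).f x) = φ.f (R M x)) ?_ ?_ ?_ x
    · simp only [map_zero]
    · intro x y hx hy
      simp only [map_add, hx, hy]
    · intro c m
      rw [map_smul, GMap.cf_ι, hR, hR, map_smul]

/-- Being a quasi-isomorphism is invariant under homotopy. -/
private theorem dsQ_hty {k : Type u} [CommRing k] {A B : DGA k} {M N : Bim A B}
    {φ ψ : GMap 0 M N} (h : QIso φ) (hψ : ψ.dd = 0) (u : GMap (-1) M N)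
    (hu : ∀ x, u.dd x = φ.f x - ψ.f x) : QIso ψ := by
  obtain ⟨h0, h1, h2⟩ := h
  have key : ∀ x, M.dg.d x = 0 → N.dg.d (u.f x) = φ.f x - ψ.f x := fun x hx => by
    have e := hu x
    rw [GMap.dd_apply, hx, map_zero, smul_zero, sub_zero] at e
    exact e
  refine ⟨hψ, ?_, ?_⟩
  · rintro x hx ⟨y, hy⟩
    refine h1 x hx ⟨u.f x + y, ?_⟩
    rw [map_add, key x hx, hy, sub_add_cancel]
  · intro y hy
    obtain ⟨x, hx, z, hz⟩ := h2 y hy
    refine ⟨x, hx, z + u.f x, ?_⟩
    rw [map_add, key x hx, hz]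
    abel

section conj

variable {k : Type u} [CommRing k] {A B : DGA k} {R S T : Type u} [CommRing R] [CommRing S]
  [CommRing T] [Algebra k R] [Algebra k S] [Algebra k T] (f : R →ₐ[k] S) (g : S →ₐ[k] T)
  (h : R →ₐ[k] T) (e : ∀ r, g (f r) = h r)

private theorem dsQ_θ (M : Bim (A.bc R) (B.bc R)) : RQIso (cfθ f g h e M) :=
  RQIso.of_inv (cfθ_dd f g h e M) (cfθi_cfθ f g h e M) (cfθ_cfθi f g h e M)

private theorem dsQ_θi (M : Bim (A.bc R) (B.bc R)) : RQIso (cfθi f g h e M) :=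
  RQIso.of_inv (cfθi_dd f g h e M) (cfθ_cfθi f g h e M) (cfθi_cfθ f g h e M)

include e in
private theorem dsQ_conj {M N : Bim (A.bc R) (B.bc R)} (φ : GMap 0 M N)
    (H : RQIso (φ.cf h)) : RQIso ((φ.cf f).cf g) := by
  have h3 := ((dsQ_θ f g h e M).comp H).comp (dsQ_θi f g h e N)
  have h4 : ((cfθ f g h e M).comp (φ.cf h) (add_zero 0)).comp (cfθi f g h e N) (add_zero 0) =
      (φ.cf f).cf g := GMap.ext (fun x => by
    rw [GMap.comp_f, GMap.comp_f, cfθ_nat, cfθi_cfθ])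
  rw [h4] at h3
  exact h3

private theorem dsQ_tgt {P : Bim (A.bc T) (B.bc T)} {N : Bim (A.bc R) (B.bc R)}
    (φ : GMap 0 P ((N.cf f).cf g)) (H : RQIso (φ.comp (cfθ f g h e N) (add_zero 0))) :
    RQIso φ := by
  have h3 := H.comp (dsQ_θi f g h e N)
  have h4 : (φ.comp (cfθ f g h e N) (add_zero 0)).comp (cfθi f g h e N) (add_zero 0) = φ :=
    GMap.ext (fun x => by
      rw [GMap.comp_f, GMap.comp_f, cfθi_cfθ])
  rw [h4] at h3
  exact h3

end conj

/-- A closed map over the field `E` which is a quasi-isomorphism after the extension of scalars to the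
field `K` is a quasi-isomorphism. (A complex `X` over `E` is acyclic if `K ⊗ X` is: choose an
`E`-linear retraction `ρ : K → E` of `f`; if `x` is closed then `1 ⊗ x = d y`, and
`ρ ⊗ id : K ⊗ X → X` commutes with `d`, so `x = d ((ρ ⊗ id) y)`. For maps apply this to the cone or
argue with `QIso` directly: surjectivity and injectivity on cohomology; `BC/BcRq.lean`, `GMap.cf`,
`Bim.ι`, `Bim.lift`.) -/
theorem qiso_of_cf {E : Type u} [Field E] [Algebra F E] (f : E →ₐ[F] K)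
    {M N : Bim (A.bc E) (B.bc E)} {φ : GMap 0 M N} (hφ : φ.dd = 0) (h : QIso (φ.cf f)) :
    QIso φ := by
  obtain ⟨R, hR, hd, hn⟩ := dsQ_bim (A := A) (B := B) f
  obtain ⟨-, h1, h2⟩ := h
  refine ⟨hφ, ?_, ?_⟩
  · rintro x hx ⟨y, hy⟩
    obtain ⟨z, hz⟩ := h1 (M.ι f x) (by rw [Bim.ι_d, hx, map_zero])
      ⟨N.ι f y, by rw [Bim.ι_d, hy, GMap.cf_ι]⟩
    refine ⟨R M z, ?_⟩
    rw [← hd, hz, hR]
  · intro y hy
    obtain ⟨x, hx, z, hz⟩ := h2 (N.ι f y) (by rw [Bim.ι_d, hy, map_zero])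
    refine ⟨R M x, by rw [← hd, hx, map_zero], R N z, ?_⟩
    rw [← hd, hz, map_sub, hR, hn]

/-- Smoothness is defined over a finitely generated field: `exists_model` for the perfect bimodule
`P → diag (A.bc K)`, `cf_diag`, `spread_map` (the map of the resolution spreads to a closed map
`M.cf → diag` over a finitely generated algebra `T ⊆ K`, up to homotopy); for a field `E ⊇ T` the map
over `E` is a quasi-isomorphism by `qiso_of_cf`, `rqiso_iff`, since over `K` it is homotopic to the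
given one (`NC/Htpy.lean`). The set `s` is a set of generators of `T`. -/
theorem smooth_descent (h : Smooth (A.bc K)) : ∃ s : Finset K, ∀ E : IntermediateField F K,
    (s : Set K) ⊆ E → Smooth (A.bc E) := by
  obtain ⟨P, φ, hP, hφ⟩ := h
  obtain ⟨S, M, hM, e, he⟩ := exists_model hP
  obtain ⟨χ, χ', h0, h1, h2⟩ := cf_diag S.val A
  have h0' : χ'.dd = 0 := BIso.closed_inv h0 h1 h2
  obtain ⟨g, hg⟩ : ∃ g : GMap 0 (M.cf S.val) ((diag (A.bc S.1)).cf S.val),
      g = (e.comp φ (add_zero 0)).comp χ' (add_zero 0) := ⟨_, rfl⟩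
  have hgq : RQIso g := by
    rw [hg]
    exact ((RQIso.of_htpyEq he).comp hφ).comp (RQIso.of_inv h0' h2 h1)
  obtain ⟨T, hST, g', hg', u, hu⟩ := spread_map hM hgq.closed
  obtain ⟨s, hs⟩ := T.2
  refine ⟨s, fun E hE => ?_⟩
  have hTE : T.1 ≤ E.toSubalgebra := by
    rw [← hs]
    exact Algebra.adjoin_le hE
  obtain ⟨f, hf⟩ : ∃ f : T.1 →ₐ[F] E, ∀ t, E.val (f t) = T.val t :=
    ⟨Subalgebra.inclusion hTE, fun t => rfl⟩
  -- the map over `K`
  have hq1 : RQIso ((g'.cf T.val).comp (kθ hST (diag (A.bc S.1))) (add_zero 0)) := by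
    have hgc : (g'.cf T.val).dd = 0 := (cfF T.val A A).closed hg'
    have hk : (kθ hST (diag (A.bc S.1))).dd = 0 :=
      cfθ_dd (FGS.inc hST) T.val S.val (FGS.val_inc hST) (diag (A.bc S.1))
    have hkM : RQIso (kθ hST M) := dsQ_θ (FGS.inc hST) T.val S.val (FGS.val_inc hST) M
    exact (rqiso_iff _).2 (dsQ_hty (hkM.comp hgq).qiso (SpHe.dd_comp_zero hgc hk) u hu)
  have hq2 : RQIso (g'.cf T.val) :=
    dsQ_tgt (FGS.inc hST) T.val S.val (FGS.val_inc hST) (g'.cf T.val) hq1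
  -- the map over `E`, extended to `K`
  have hq3 : RQIso ((g'.cf f).cf E.val) := dsQ_conj f E.val T.val hf g' hq2
  have hq4 : RQIso (g'.cf f) :=
    (rqiso_iff _).2 (qiso_of_cf E.val ((cfF f A A).closed hg') hq3.qiso)
  -- the diagonal bimodule
  have hd : BIso (((diag (A.bc S.1)).cf (FGS.inc hST)).cf f) (diag (A.bc E)) :=
    ((cfF f A A).biso (cf_diag (FGS.inc hST) A)).trans (cf_diag f A)
  obtain ⟨α, β, k0, k1, k2⟩ := hd
  exact ⟨(M.cf (FGS.inc hST)).cf f, (g'.cf f).comp α (add_zero 0), Perf.cf (Perf.cf hM),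
    hq4.comp (RQIso.of_inv k0 k1 k2)⟩

end Pool.Agent.MP_6e5bed_ag_UD
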