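import Pool.Agent.Lib.MP_6e5bed_ag_UD.DsI
import Pool.Agent.Lib.MP_6e5bed_ag_UD.DsH
import Pool.Agent.Lib.MP_6e5bed_ag_UD.DsK
import Pool.Agent.Lib.MP_6e5bed_ag_UD.DsQ

set_option autoImplicit false
set_option linter.unusedVariables false

/-!
# MP_6e5bed_ag, universal domains: the core theorem for a universal domain over the prime field
-/

noncomputable section

namespace Pool.Agent.MP_6e5bed_ag_UD

open Pool.Agent.MP_6e5bed_ag_NC Pool.Agent.MP_6e5bed_ag_WW Pool.Agent.MP_6e5bed_ag_GG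
  Pool.Agent.MP_6e5bed_ag_Pn
open Pool.Agent.MP_6e5bed_ag_PN hiding Ch

universe u

section up

attribute [local instance] Alg.iR Alg.iA Cf.iG Cf.iM Rs.iG Rs.iM

variable {E K Ω : Type u} [Field E] [Field K] [CommRing Ω] [Algebra E K] [Algebra E Ω]
  [Algebra K Ω] [IsScalarTower E K Ω] {A B : DGA E}

private theorem DsJ_cf_l (M : Bim (A.bc K) (B.bc K)) (a : (A.bc K).A) (m : M.M) :
    M.ι (IsScalarTower.toAlgHom E K Ω) (M.l a m) =
      (M.cf (IsScalarTower.toAlgHom E K Ω)).l (push (IsScalarTower.toAlgHom E K Ω) A a)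
        (M.ι (IsScalarTower.toAlgHom E K Ω) m) := by
  refine DGA.ι_ind (P := fun a => M.ι (IsScalarTower.toAlgHom E K Ω) (M.l a m) =
      (M.cf (IsScalarTower.toAlgHom E K Ω)).l (push (IsScalarTower.toAlgHom E K Ω) A a)
        (M.ι (IsScalarTower.toAlgHom E K Ω) m)) ?_ ?_ ?_ a
  · simp only [map_zero, LinearMap.zero_apply]
  · intro x y hx hy
    simp only [map_add, LinearMap.add_apply, hx, hy]
  · intro s a
    rw [push_smul, push_ι, map_smul, map_smul, LinearMap.smul_apply, LinearMap.smul_apply,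
      Bim.ι_smul, Bim.ι_l]

private theorem DsJ_cf_r (M : Bim (A.bc K) (B.bc K)) (b : (B.bc K).A) (m : M.M) :
    M.ι (IsScalarTower.toAlgHom E K Ω) (M.r b m) =
      (M.cf (IsScalarTower.toAlgHom E K Ω)).r (push (IsScalarTower.toAlgHom E K Ω) B b)
        (M.ι (IsScalarTower.toAlgHom E K Ω) m) := by
  refine DGA.ι_ind (P := fun b => M.ι (IsScalarTower.toAlgHom E K Ω) (M.r b m) =
      (M.cf (IsScalarTower.toAlgHom E K Ω)).r (push (IsScalarTower.toAlgHom E K Ω) B b)
        (M.ι (IsScalarTower.toAlgHom E K Ω) m)) ?_ ?_ ?_ b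
  · simp only [map_zero, LinearMap.zero_apply]
  · intro x y hx hy
    simp only [map_add, LinearMap.add_apply, hx, hy]
  · intro s a
    rw [push_smul, push_ι, map_smul, map_smul, LinearMap.smul_apply, LinearMap.smul_apply,
      Bim.ι_smul, Bim.ι_r]

private theorem DsJ_bcTrans_ι (A : DGA E) (x : (A.bc K).A) :
    (bcTrans K Ω A).hom.f ((A.bc K).ι Ω x) = push (IsScalarTower.toAlgHom E K Ω) A x :=
  DGA.lift_ι _ _ x

private theorem DsJ_iso (M : Bim (A.bc K) (B.bc K)) :
    BIso ((res (selfIso (A.bc K)).hom (selfIso (B.bc K)).hom M).cf (Algebra.ofId K Ω))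
      (res (bcTrans K Ω A).hom (bcTrans K Ω B).hom (M.cf (IsScalarTower.toAlgHom E K Ω))) := by
  refine BIso.of_bij (GMap.ofCf (n := 0)
    (M := res (selfIso (A.bc K)).hom (selfIso (B.bc K)).hom M) (f := Algebra.ofId K Ω)
    (P := res (bcTrans K Ω A).hom (bcTrans K Ω B).hom (M.cf (IsScalarTower.toAlgHom E K Ω)))
    LinearMap.id ?_ ?_ ?_) ?_ ?_
  · intro j v hv
    rw [add_zero]
    exact Dg.cf_deg hv
  · intro a m
    rw [Dg.sp_even Even.zero]
    change M.ι (IsScalarTower.toAlgHom E K Ω) (M.l ((selfIso (A.bc K)).hom.f ((A.bc K).ι K a)) m) =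
      (M.cf (IsScalarTower.toAlgHom E K Ω)).l ((bcTrans K Ω A).hom.f ((A.bc K).ι Ω a))
        (M.ι (IsScalarTower.toAlgHom E K Ω) m)
    rw [selfIso_ι, DsJ_bcTrans_ι]
    exact DsJ_cf_l M a m
  · intro b m
    change M.ι (IsScalarTower.toAlgHom E K Ω) (M.r ((selfIso (B.bc K)).hom.f ((B.bc K).ι K b)) m) =
      (M.cf (IsScalarTower.toAlgHom E K Ω)).r ((bcTrans K Ω B).hom.f ((B.bc K).ι Ω b))
        (M.ι (IsScalarTower.toAlgHom E K Ω) m)
    rw [selfIso_ι, DsJ_bcTrans_ι]
    exact DsJ_cf_r M b m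
  · refine LinearMap.ext (fun x => ?_)
    rw [GMap.dd_apply, LinearMap.zero_apply, sg_zero, one_smul, sub_eq_zero]
    rfl
  · exact Function.bijective_id

/-- Base change of a class over `K` along `K → Ω`, over `E` and over `K`. -/
theorem DsJ_up_cf (z : K0Q (A.bc K) (B.bc K)) :
    up (k := K) Ω z =
      K0Q.res (bcTrans K Ω A) (bcTrans K Ω B) (K0Q.cf (IsScalarTower.toAlgHom E K Ω) z) := by
  have h : (K0Q.cf (Algebra.ofId K Ω)).comp (K0Q.res (selfIso (A.bc K)) (selfIso (B.bc K))) =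
      (K0Q.res (bcTrans K Ω A) (bcTrans K Ω B)).comp
        (K0Q.cf (A := A) (B := B) (IsScalarTower.toAlgHom E K Ω)) :=
    K0Q.hom_ext (fun M hM => by
      rw [LinearMap.comp_apply, LinearMap.comp_apply, K0Q.res_cls, K0Q.cf_cls, K0Q.cf_cls,
        K0Q.res_cls]
      exact K0Q.cls_iso (DsJ_iso M) _ _)
  exact LinearMap.congr_fun h z

end up

section comp

variable {k : Type u} [CommRing k] {A B C A' B' C' : DGA k}

private theorem DsJ_trans_refl (φ : DIso A A') : φ.trans (DIso.refl A') = φ :=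
  DIso.ext fun _ => rfl

private theorem DsJ_refl_trans (φ : DIso A A') : (DIso.refl A).trans φ = φ :=
  DIso.ext fun _ => rfl

/-- Restriction along isomorphisms is compatible with the composition. -/
private theorem DsJ_res_comp (hB : Proper B) (hB' : Proper B') (φ : DIso A A') (ψ : DIso B B')
    (χ : DIso C C') (f : K0Q A' B') (g : K0Q B' C') :
    K0Q.res φ χ (K0Q.comp hB' f g) = K0Q.comp hB (K0Q.res φ ψ f) (K0Q.res ψ χ g) := by
  rw [← K0Q.comp_res_mid hB hB' ψ f g, K0Q.res_comp' hB φ χ, K0Q.res_res, K0Q.res_res,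
    DsJ_trans_refl, DsJ_refl_trans, DsJ_trans_refl]

private theorem DsJ_back {A'' B'' : DGA k} (ε : DIso A' A) (δ : DIso B' B) (p : DIso A'' A')
    (q : DIso B'' B') (y : K0Q A B) :
    K0Q.res (ε.symm.trans p.symm) (δ.symm.trans q.symm) (K0Q.res p q (K0Q.res ε δ y)) = y := by
  have h : ∀ {A A' A'' : DGA k} (ε : DIso A' A) (p : DIso A'' A'),
      ((ε.symm.trans p.symm).trans p).trans ε = DIso.refl A := by
    intro A A' A'' ε p
    refine DIso.ext fun x => ?_
    change ε.hom.f (p.hom.f (p.inv.f (ε.inv.f x))) = x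
    rw [p.inv_hom, ε.inv_hom]
  rw [K0Q.res_res, K0Q.res_res, h ε p, h δ q, K0Q.res_refl]

variable (S : Type u) [CommRing S] [Algebra k S]

private theorem DsJ_up_comp (hB : Proper B) (f : K0Q A B) (g : K0Q B C) :
    up S (K0Q.comp hB f g) = K0Q.comp (hB.bc S) (up S f) (up S g) := by
  rw [up, up, up, DsJ_res_comp (hB.bc k) hB (selfIso A) (selfIso B) (selfIso C) f g,
    K0Q.cf_comp (Algebra.ofId k S) (hB.bc k) (hB.bc S)]

private theorem DsJ_up_one (hA : Smooth A) (hP : Proper A) :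
    up S (K0Q.one hA) = K0Q.one (hA.bc S) := by
  rw [up, K0Q.res_one (hA.bc k) hA (hP.bc k) (selfIso A),
    K0Q.cf_one (Algebra.ofId k S) (hA.bc k) (hA.bc S) (hP.bc S)]

private theorem DsJ_up_sum {ι : Type*} (s : Finset ι) (f : ι → K0Q A B) :
    up S (∑ a ∈ s, f a) = ∑ a ∈ s, up S (f a) := by
  simp only [up, map_sum]

end comp

variable {k : Type u} [Field k]

/-- Extension of scalars from `E` to `k` for the conclusion: `mem_JU_iff`, `K0Q.cf_comp`,
`K0Q.cf_one`, `K0Q.res_comp'`, `K0Q.comp_res_mid`, `K0Q.res_one` with `selfIso`, `up`. -/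
theorem one_mem_up {E : Type u} [Field E] [Algebra E k] {B : DGA E} {ι : Type (u + 1)}
    {B' : ι → DGA E} (hs : Smooth B) (hp : Proper B) (hp' : ∀ a, Proper (B' a))
    (z : ∀ a, K0Q (B' a) B) (h : K0Q.one hs ∈ JU B hp' z) :
    K0Q.one (hs.bc k) ∈ JU (B.bc k) (fun a => (hp' a).bc k) (fun a => up (k := E) k (z a)) := by
  obtain ⟨s, v, hv⟩ := (mem_JU_iff hp' z _).1 h
  refine (mem_JU_iff _ _ _).2 ⟨s, fun a => up k (v a), ?_⟩
  rw [← DsJ_up_one k hs hp, ← hv, DsJ_up_sum]
  exact Finset.sum_congr rfl fun a _ => (DsJ_up_comp k (hp' a) (v a) (z a)).symm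

/-- Descent of the data to a finitely generated field `E`: `CohD.descent` for the `B j` (with
the union of the finite sets) over `F`, the field generated by this set; `smooth_descent`,
`class_descent` (for the classes transported by the isomorphisms, `K0Q.res`) for `F ⊆ k` and
`E = IntermediateField.adjoin F s`; `CohD.bc`; `fg_adjoin`. `B₁ j = (B₀ j).bc E`, the isomorphisms
are `bcTrans E k (B₀ j)` followed by the given ones. -/
theorem exists_descent {J ι : Type*} [Finite J] [Finite ι] {B : J → DGA k} (hB : ∀ j, CohD (B j))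
    (hs : ∀ j, Smooth (B j)) (p q : ι → J) (y : ∀ a, K0Q (B (p a)) (B (q a))) :
    ∃ (E : Type u) (_ : Field E) (_ : Algebra E k) (r : Finset E)
      (_ : Subfield.closure (r : Set E) = ⊤) (B₁ : J → DGA E) (e : ∀ j, DIso (B j) ((B₁ j).bc k))
      (z : ∀ a, K0Q (B₁ (p a)) (B₁ (q a))),
      (∀ j, CohD (B₁ j)) ∧ (∀ j, Smooth (B₁ j)) ∧
      ∀ a, y a = K0Q.res (e (p a)) (e (q a)) (up (k := E) k (z a)) := by
  classical
  have hfin : Fintype ι := Fintype.ofFinite ι
  have hfinJ : Fintype J := Fintype.ofFinite J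
  choose t1 ht1 using fun j => (hB j).descent
  obtain ⟨t, ht⟩ : ∃ t : Finset k, t = Finset.univ.biUnion t1 := ⟨_, rfl⟩
  have h1 : ∀ j, (t1 j : Set k) ⊆ Subfield.closure (t : Set k) := fun j => by
    refine Set.Subset.trans ?_ Subfield.subset_closure
    rw [ht]
    exact Finset.coe_subset.2 (Finset.subset_biUnion_of_mem t1 (Finset.mem_univ j))
  choose B₀ hB₀ ε0 using fun j => ht1 j _ (h1 j)
  have ε : ∀ j, DIso ((B₀ j).bc k) (B j) := fun j => (ε0 j).some
  choose s1 hs1 using fun j => smooth_descent (A := B₀ j) ((hs j).of_iso (ε j))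
  choose s2 hs2 using fun a => class_descent (A := B₀ (p a)) (B := B₀ (q a)) (K := k)
    (K0Q.res (ε (p a)) (ε (q a)) (y a))
  obtain ⟨s, hs⟩ : ∃ s : Finset k, s = Finset.univ.biUnion s1 ∪ Finset.univ.biUnion s2 :=
    ⟨_, rfl⟩
  have hE : (s : Set k) ⊆ IntermediateField.adjoin (Subfield.closure (t : Set k)) (s : Set k) :=
    IntermediateField.subset_adjoin _ _
  have h3 : ∀ j, (s1 j : Set k) ⊆
      IntermediateField.adjoin (Subfield.closure (t : Set k)) (s : Set k) := fun j => by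
    refine Set.Subset.trans ?_ hE
    rw [hs]
    exact Finset.coe_subset.2 ((Finset.subset_biUnion_of_mem s1 (Finset.mem_univ j)).trans
      Finset.subset_union_left)
  have h4 : ∀ a, (s2 a : Set k) ⊆
      IntermediateField.adjoin (Subfield.closure (t : Set k)) (s : Set k) := fun a => by
    refine Set.Subset.trans ?_ hE
    rw [hs]
    exact Finset.coe_subset.2 ((Finset.subset_biUnion_of_mem s2 (Finset.mem_univ a)).trans
      Finset.subset_union_right)
  obtain ⟨r, hr⟩ := fg_adjoin s t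
  choose z hz using fun a => hs2 a _ (h4 a)
  refine ⟨IntermediateField.adjoin (Subfield.closure (t : Set k)) (s : Set k), inferInstance,
    inferInstance, r, hr,
    fun j => (B₀ j).bc (IntermediateField.adjoin (Subfield.closure (t : Set k)) (s : Set k)),
    fun j => (ε j).symm.trans (bcTrans _ k (B₀ j)).symm, z,
    fun j => (hB₀ j).bc _, fun j => hs1 j _ (h3 j), fun a => ?_⟩
  rw [DsJ_up_cf]
  refine Eq.trans (DsJ_back (ε (p a)) (ε (q a))
    (bcTrans (IntermediateField.adjoin (Subfield.closure (t : Set k)) (s : Set k)) k (B₀ (p a)))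
    (bcTrans (IntermediateField.adjoin (Subfield.closure (t : Set k)) (s : Set k)) k (B₀ (q a)))
    (y a)).symm ?_
  rw [← hz a]
  rfl

/-- The descent for classes `y a` in `K0Q (B' a) B`. -/
theorem DsJ_exists_descent {B : DGA k} {ι : Type (u + 1)} [Finite ι] {B' : ι → DGA k}
    (hB : CohD B) (hB' : ∀ a, CohD (B' a)) (hs : Smooth B) (hs' : ∀ a, Smooth (B' a))
    (y : ∀ a, K0Q (B' a) B) :
    ∃ (E : Type u) (_ : Field E) (_ : Algebra E k) (r : Finset E)
      (_ : Subfield.closure (r : Set E) = ⊤) (B₁ : DGA E) (B₁' : ι → DGA E) (e : DIso B (B₁.bc k))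
      (e' : ∀ a, DIso (B' a) ((B₁' a).bc k)) (z : ∀ a, K0Q (B₁' a) B₁),
      CohD B₁ ∧ (∀ a, CohD (B₁' a)) ∧ Smooth B₁ ∧ (∀ a, Smooth (B₁' a)) ∧
      ∀ a, y a = K0Q.res (e' a) e (up (k := E) k (z a)) := by
  obtain ⟨E, i1, i2, r, hr, B₁, e, z, h1, h2, h3⟩ :=
    exists_descent (J := Option ι) (ι := ι) (B := fun o => Option.elim o B B')
      (fun o => match o with
        | none => hB
        | some a => hB' a)
      (fun o => match o with
        | none => hs
        | some a => hs' a) some (fun _ => none) y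
  exact ⟨E, i1, i2, r, hr, B₁ none, fun a => B₁ (some a), e none, fun a => e (some a), z,
    h1 none, fun a => h1 (some a), h2 none, fun a => h2 (some a), h3⟩

/-- The core theorem for finite families and an algebraically closed field over `k` of infinite
transcendence degree over the prime field. (`exists_descent`, `JU_res`, `psiK_mem_iff`, `JB_tower`,
`inf_tr`, `core_ud` over `E`, `one_mem_up`.) -/
theorem core_abs {B : DGA k} {ι : Type (u + 1)} [Finite ι] {B' : ι → DGA k} (hB : CohD B)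
    (hB' : ∀ a, CohD (B' a)) (hs : Smooth B) (hs' : ∀ a, Smooth (B' a))
    (hp' : ∀ a, Proper (B' a)) (y : ∀ a, K0Q (B' a) B) (Ω : Type u) [Field Ω] [Algebra k Ω]
    [IsAlgClosed Ω] (hΩ : ∀ m : ℕ, ∃ t : Fin m → Ω, AlgebraicIndependent (⊥ : Subfield Ω) t)
    (h : ∀ x : K0Q (ring k Ω) B, x ∈ JU (ring k Ω) hp' y) : K0Q.one hs ∈ JU B hp' y := by
  obtain ⟨E, _, _, r, hr, B₁, B₁', e, e', z, hB1, hB1', hs1, hs1', hy⟩ :=
    DsJ_exists_descent hB hB' hs hs' y
  obtain rfl : y = fun a => K0Q.res (e' a) e (up (k := E) k (z a)) := funext hy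
  have hp1 : Proper B₁ := hB1.proper
  have hp1' : ∀ a, Proper (B₁' a) := fun a => (hB1' a).proper
  have h1 : K0Q.one hs = K0Q.res e e (K0Q.one (hs1.bc k)) :=
    (K0Q.res_one hs (hs1.bc k) hB.proper e).symm
  rw [h1]
  refine (JU_res e e e' hp' (fun a => (hp1' a).bc k) (fun a => up (k := E) k (z a)) _).2 ?_
  refine one_mem_up hs1 hp1 hp1' z ?_
  let _ : Algebra E Ω := ((algebraMap k Ω).comp (algebraMap E k)).toAlgebra
  have _ : IsScalarTower E k Ω := IsScalarTower.of_algebraMap_eq fun _ => rfl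
  refine core_ud hB1 hB1' hs1 hs1' hp1' z Ω (inf_tr hΩ r hr) fun x => ?_
  obtain ⟨x, rfl⟩ := (psiK_bij (k := E) Ω (B := B₁)).2 x
  refine (psiK_mem_iff hp1' z x).2 (JB_tower (K := k) hp1' z (fun w => ?_) x)
  refine (psiK_mem_iff (k := k) (fun a => (hp1' a).bc k) (fun a => up (k := E) k (z a)) w).1 ?_
  refine (JU_res (DIso.refl (ring k Ω)) e e' hp' (fun a => (hp1' a).bc k)
    (fun a => up (k := E) k (z a)) _).1 (h _)

end Pool.Agent.MP_6e5bed_ag_UD
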