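import Pool.Agent.Lib.MP_6e5bed_ag_GG.TBs

set_option autoImplicit false
set_option linter.unusedVariables false

/-!
# MP_6e5bed_ag, universal domains: graded algebras over finitely generated subfields, the table
-/

noncomputable section

namespace Pool.Agent.MP_6e5bed_ag_UD

open MvPolynomial Pool.Agent.MP_6e5bed_ag_Pn

universe u

variable {ν : ℕ} {K Γ : Type u} [Field K] [Ring Γ] [Algebra K Γ]
  [Algebra (MvPolynomial (Fin (ν + 1)) K) Γ] [IsScalarTower K (MvPolynomial (Fin (ν + 1)) K) Γ]

variable (ν) in
/-- `g` is a finite family of homogeneous generators of the module `Γ` over the polynomial ring, `1`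
is one of them; the multiplication table and the relations are defined over the subfield `F`. -/
structure IsTable (𝒢 : ℕ → Submodule K Γ) {N : ℕ} (g : Fin N → Γ) (d : Fin N → ℕ)
    (F : Subfield K) : Prop where
  hom : ∀ i, g i ∈ 𝒢 (d i)
  gen : Submodule.span (MvPolynomial (Fin (ν + 1)) K) (Set.range g) = ⊤
  one : ∃ i, g i = 1
  mul : ∀ i j, ∃ c : Fin N → MvPolynomial (Fin (ν + 1)) F,
    g i * g j = ∑ l, MvPolynomial.map (algebraMap F K) (c l) • g l
  rel : ∀ v : Fin N → MvPolynomial (Fin (ν + 1)) K, ∑ i, v i • g i = 0 →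
    v ∈ Submodule.span (MvPolynomial (Fin (ν + 1)) K) {v : Fin N → MvPolynomial (Fin (ν + 1)) K |
      ∃ w : Fin N → MvPolynomial (Fin (ν + 1)) F,
        ∑ i, MvPolynomial.map (algebraMap F K) (w i) • g i = 0 ∧
        v = fun i => MvPolynomial.map (algebraMap F K) (w i)}

omit [IsScalarTower K (MvPolynomial (Fin (ν + 1)) K) Γ] in
/-- a finite set of homogeneous elements generates, `1` is one of them -/
private theorem DsT_gens {𝒢 : ℕ → Submodule K Γ} (h : IsGr ν 𝒢) :
    ∃ T : Finset Γ, (∀ x ∈ T, ∃ n, x ∈ 𝒢 n) ∧ 1 ∈ T ∧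
      Submodule.span (MvPolynomial (Fin (ν + 1)) K) (T : Set Γ) = ⊤ := by
  classical
  set H : Set Γ := {x | ∃ n, x ∈ 𝒢 n} with hH
  have h1 : Submodule.span (MvPolynomial (Fin (ν + 1)) K) H = ⊤ := by
    rw [eq_top_iff]
    intro x _
    have h2 : x ∈ ⨆ n, 𝒢 n := by
      rw [h.int.submodule_iSup_eq_top]
      exact Submodule.mem_top
    refine Submodule.iSup_induction 𝒢
      (motive := fun y => y ∈ Submodule.span (MvPolynomial (Fin (ν + 1)) K) H) h2 ?_ ?_ ?_
    · intro n y hy
      exact Submodule.subset_span ⟨n, hy⟩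
    · exact Submodule.zero_mem _
    · intro y z hy hz
      exact Submodule.add_mem _ hy hz
  have h2 : (Submodule.span (MvPolynomial (Fin (ν + 1)) K) H).FG := by
    rw [h1]
    exact h.fin.1
  obtain ⟨T, hT, hT'⟩ := (Submodule.fg_span_iff_fg_span_finset_subset H).1 h2
  refine ⟨insert 1 T, ?_, Finset.mem_insert_self _ _, ?_⟩
  · intro x hx
    rcases Finset.mem_insert.1 hx with rfl | hx
    · exact ⟨0, h.one⟩
    · exact hT hx
  · rw [eq_top_iff, ← h1, hT']
    exact Submodule.span_mono (by
      intro x hx
      exact Finset.mem_coe.2 (Finset.mem_insert_of_mem hx))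

/-- polynomials with coefficients in the subfield -/
private theorem DsT_map {σ : Type} {F : Subfield K} {p : MvPolynomial σ K}
    (hp : (p.coeffs : Set K) ⊆ F) :
    ∃ q : MvPolynomial σ F, MvPolynomial.map (algebraMap F K) q = p := by
  have h1 : p ∈ Set.range (MvPolynomial.map (σ := σ) (algebraMap F K)) := by
    rw [MvPolynomial.mem_range_map_iff_coeffs_subset]
    intro x hx
    exact ⟨⟨x, hp hx⟩, rfl⟩
  obtain ⟨q, hq⟩ := h1
  exact ⟨q, hq⟩

/-- Generators: the homogeneous components of the elements of a finite generating set, and `1`. The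
module of relations of the `g i` is finitely generated (`Fin N → MvPolynomial _ K` is noetherian). The
set `s` consists of the coefficients of the polynomials `c i j l` with `g i * g j = ∑ c i j l • g l`
(a choice) and of the entries of the generators of the module of relations; a polynomial all of whose
coefficients are in `F` comes from `F` (`MvPolynomial.mem_range_map_iff_coeffs_subset` or
similar). -/
theorem exists_table {𝒢 : ℕ → Submodule K Γ} (h : IsGr ν 𝒢) :
    ∃ (N : ℕ) (g : Fin N → Γ) (d : Fin N → ℕ) (s : Finset K),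
      ∀ F : Subfield K, (s : Set K) ⊆ F → IsTable ν 𝒢 g d F := by
  classical
  obtain ⟨T, hT, h1T, hspan⟩ := DsT_gens h
  let e := T.equivFin
  let g : Fin T.card → Γ := fun i => (e.symm i : Γ)
  have hg : Set.range g = (T : Set Γ) := by
    ext x
    constructor
    · rintro ⟨i, rfl⟩
      exact (e.symm i).2
    · intro hx
      exact ⟨e ⟨x, hx⟩, by simp [g]⟩
  have hgen : Submodule.span (MvPolynomial (Fin (ν + 1)) K) (Set.range g) = ⊤ := by
    rw [hg, hspan]
  have hd : ∀ i : Fin T.card, ∃ n, g i ∈ 𝒢 n := fun i => hT _ (e.symm i).2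
  choose d hd using hd
  have hc : ∀ i j : Fin T.card, ∃ c : Fin T.card → MvPolynomial (Fin (ν + 1)) K,
      ∑ l, c l • g l = g i * g j := by
    intro i j
    have h1 : g i * g j ∈ Submodule.span (MvPolynomial (Fin (ν + 1)) K) (Set.range g) := by
      rw [hgen]
      exact Submodule.mem_top
    exact (Submodule.mem_span_range_iff_exists_fun _).1 h1
  choose c hc using hc
  let L : (Fin T.card → MvPolynomial (Fin (ν + 1)) K) →ₗ[MvPolynomial (Fin (ν + 1)) K] Γ :=
    Fintype.linearCombination _ g
  have hL : ∀ v, L v = ∑ i, v i • g i := fun v => Fintype.linearCombination_apply _ g v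
  obtain ⟨W, hW⟩ : (LinearMap.ker L).FG := IsNoetherian.noetherian _
  let s1 : Finset K := Finset.univ.biUnion fun i => Finset.univ.biUnion fun j =>
    Finset.univ.biUnion fun l => (c i j l).coeffs
  let s2 : Finset K := W.biUnion fun w => Finset.univ.biUnion fun l => (w l).coeffs
  refine ⟨T.card, g, d, s1 ∪ s2, ?_⟩
  intro F hF
  refine ⟨hd, hgen, ?_, ?_, ?_⟩
  · have h1 : (1 : Γ) ∈ Set.range g := by
      rw [hg]
      exact h1T
    exact h1
  · intro i j
    have h1 : ∀ l, ∃ q : MvPolynomial (Fin (ν + 1)) F,
        MvPolynomial.map (algebraMap F K) q = c i j l := by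
      intro l
      refine DsT_map ?_
      intro x hx
      refine hF ?_
      rw [Finset.mem_coe, Finset.mem_union]
      left
      simp only [s1, Finset.mem_biUnion, Finset.mem_univ, true_and]
      exact ⟨i, j, l, hx⟩
    choose q hq using h1
    refine ⟨q, ?_⟩
    rw [← hc i j]
    exact Finset.sum_congr rfl fun l _ => by rw [hq l]
  · intro v hv
    have h1 : v ∈ LinearMap.ker L := by
      rw [LinearMap.mem_ker, hL]
      exact hv
    rw [← hW] at h1
    refine Submodule.span_mono ?_ h1
    intro w hw
    have h2 : ∀ l, ∃ q : MvPolynomial (Fin (ν + 1)) F,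
        MvPolynomial.map (algebraMap F K) q = w l := by
      intro l
      refine DsT_map ?_
      intro x hx
      refine hF ?_
      rw [Finset.mem_coe, Finset.mem_union]
      right
      simp only [s2, Finset.mem_biUnion, Finset.mem_univ, true_and]
      exact ⟨w, hw, l, hx⟩
    choose q hq using h2
    refine ⟨q, ?_, ?_⟩
    · have h3 : w ∈ LinearMap.ker L := by
        rw [← hW]
        exact Submodule.subset_span hw
      rw [LinearMap.mem_ker, hL] at h3
      rw [← h3]
      exact Finset.sum_congr rfl fun l _ => by rw [hq l]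
    · funext l
      exact (hq l).symm

end Pool.Agent.MP_6e5bed_ag_UD
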