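import Pool.Agent.Lib.MP_6e5bed_ag_UD.UMain
import Pool.Agent.Lib.MP_6e5bed_ag_UD.CohBase
import Pool.Agent.Lib.MP_6e5bed_ag_CV.FinalA
import Pool.Agent.Lib.MP_6e5bed_ag_BC.BCFinal

set_option autoImplicit false
set_option linter.unusedVariables false

/-!
# MP_6e5bed_ag, universal domains: finite dimensional Grothendieck groups
-/

noncomputable section

namespace Pool.Agent.MP_6e5bed_ag_UD

open CategoryTheory MonoidalCategory MvPolynomial Pool.Agent.MP_6e5bed_ag
  Pool.Agent.MP_6e5bed_ag_Pn Pool.Agent.MP_6e5bed_ag_NC Pool.Agent.MP_6e5bed_ag_GG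
  Pool.Agent.MP_6e5bed_ag_WW
open Pool.Agent.MP_6e5bed_ag_PN hiding Ch
open Pool.Agent.MP_6e5bed_ag_SP (DG Rep RA repOf SmPr NCMot IsBc)

universe u

/-- A field with `UDom` has infinite transcendence degree over its prime field. -/
theorem abs_of_dom {p : Prop} {k Ω : Type u} [Field k] [Field Ω] [Algebra k Ω] (h : UDom p k Ω)
    (m : ℕ) : ∃ t : Fin m → Ω, AlgebraicIndependent (⊥ : Subfield Ω) t := by
  obtain ⟨-, h1 | ⟨-, h1⟩⟩ := h
  · obtain ⟨t, ht⟩ := h1 m
    have h2 : ∀ x : (⊥ : Subfield Ω), ∃ c : k, algebraMap k Ω c = x := fun x => by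
      have h3 : (⊥ : Subfield Ω) ≤ (algebraMap k Ω).fieldRange := bot_le
      exact RingHom.mem_fieldRange.1 (h3 x.2)
    choose f hf using h2
    have inj : Function.Injective (algebraMap k Ω) := (algebraMap k Ω).injective
    let g : (⊥ : Subfield Ω) →+* k :=
      { toFun := f
        map_one' := inj (by rw [hf, map_one]; rfl)
        map_mul' := fun x y => inj (by rw [hf, map_mul, hf, hf]; rfl)
        map_zero' := inj (by rw [hf, map_zero]; rfl)
        map_add' := fun x y => inj (by rw [hf, map_add, hf, hf]; rfl) }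
    refine ⟨t, AlgebraicIndependent.of_ringHom_of_comp_eq (S := k) (B := Ω) (g := RingHom.id Ω)
      g ht g.injective ?_⟩
    exact RingHom.ext fun x => hf x
  · exact h1 m

variable {k : Type u} [Field k]

/-- `ring k k` is `base k`. -/
def ringBase (k : Type u) [Field k] : DIso (ring k k) (base k) where
  hom :=
    { f := LinearMap.id
      deg := fun h => h
      d := fun _ => rfl
      one := rfl
      mul := fun _ _ => rfl }
  inv :=
    { f := LinearMap.id
      deg := fun h => h
      d := fun _ => rfl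
      one := rfl
      mul := fun _ _ => rfl }
  hom_inv := fun _ => rfl
  inv_hom := fun _ => rfl

/-- If the base field is a universal domain and `K_0(T)_ℚ` is finite dimensional then the identity
factors through a sum of copies of the unit. -/
theorem one_of_fin {T : DGA k} (hT : CohD T) (hs : Smooth T) (hc : IsAlgClosed k)
    (hk : ∀ m : ℕ, ∃ t : Fin m → k, AlgebraicIndependent (⊥ : Subfield k) t)
    (h : Module.Finite ℚ (K0Q (base k) T)) :
    ∃ (n : ℕ) (v : Fin n → K0Q T (base k)) (x : Fin n → K0Q (base k) T),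
      K0Q.one hs = ∑ i, K0Q.comp proper_base (v i) (x i) := by
  obtain ⟨n, b, hb⟩ := Module.Finite.exists_fin (R := ℚ) (M := K0Q (base k) T)
  have h1 : K0Q.one hs ∈ JU (ι := ULift.{u + 1} (Fin n)) (T' := fun _ => base k) T
      (fun _ => proper_base) (fun a => b a.down) := by
    refine core_dom (ι := ULift.{u + 1} (Fin n)) hT (fun _ => cohD_base k) hs
      (fun _ => smooth_base) (fun _ => proper_base) (fun a => b a.down) k
      ⟨hc, Or.inr ⟨inferInstance, hk⟩⟩ fun x => ?_
    obtain ⟨x, rfl⟩ := (res_bij (ringBase k) (DIso.refl T)).2 x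
    have h2 : x ∈ Submodule.span ℚ (Set.range b) := by rw [hb]; trivial
    have h3 : Submodule.span ℚ (Set.range b) ≤ (JU (ι := ULift.{u + 1} (Fin n))
        (T' := fun _ => base k) (ring k k) (fun _ => proper_base)
        (fun a => b a.down)).comap (K0Q.res (ringBase k) (DIso.refl T)) := by
      rw [Submodule.span_le]
      rintro _ ⟨i, rfl⟩
      have h4 := mem_JU (W := ring k k) (T := T) (ι := ULift.{u + 1} (Fin n))
        (T' := fun _ => base k) (fun _ => proper_base) (fun a => b a.down) ⟨i⟩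
        (K0Q.res (ringBase k) (DIso.refl _) (K0Q.one smooth_base))
      have h5 := comp_res3 proper_base proper_base (ringBase k) (DIso.refl (base k))
        (DIso.refl T) (K0Q.one smooth_base) (b i)
      rw [K0Q.res_refl, K0Q.one_comp smooth_base proper_base] at h5
      rw [h5] at h4
      exact h4
    exact h3 h2
  obtain ⟨s, v, hv⟩ := (mem_JU_iff _ _ _).1 h1
  refine ⟨s.card, fun i => v (s.equivFin.symm i), fun i => b (s.equivFin.symm i).1.down, ?_⟩
  rw [← hv, Equiv.sum_comp s.equivFin.symm (fun a : s => K0Q.comp proper_base (v a)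
    (b a.1.down))]
  exact (Finset.sum_coe_sort s (fun a => K0Q.comp proper_base (v a) (b a.down))).symm

/-- Kimura-finiteness of the dg algebras of coherent sheaves of algebras with finite dimensional
Grothendieck group over a universal domain. -/
theorem kf_fin (T : SP k) (hT : CohD T.alg) (Ω : Type u) [Field Ω] [Algebra k Ω]
    (hΩ : UDom True k Ω) (h : Module.Finite ℚ (K0Q (ring k Ω) T.alg)) : KimuraFinite (U T) := by
  have hk := abs_of_dom hΩ
  have h1 : Module.Finite ℚ (K0Q ((base k).bc Ω) (T.alg.bc Ω)) :=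
    Module.Finite.equiv (LinearEquiv.ofBijective (psiK k Ω T.alg) (psiK_bij Ω)).symm
  have h2 : Module.Finite ℚ (K0Q (base Ω) (T.alg.bc Ω)) :=
    Module.Finite.equiv (LinearEquiv.ofBijective (K0Q.res (baseIso (k := k) Ω)
      (DIso.refl (T.alg.bc Ω))) (res_bij _ _)).symm
  obtain ⟨n, v, x, hv⟩ := one_of_fin (hT.bc Ω) (T.smooth.bc Ω) hΩ.1 hk h2
  rw [← kimuraFinite_bc_iff (K := Ω) T]
  exact kf_of_sum (T.bc Ω) (fun _ => ⟨base Ω, smooth_base, proper_base⟩) v x hv
    fun _ => kf_base _ rfl

/-- The theorem on finite dimensional Grothendieck groups. -/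
theorem main_fin {C : Type (u + 1)} [Category.{u + 1} C] [MonoidalCategory C]
    [SymmetricCategory C] [Preadditive C] [MonoidalPreadditive C] [Linear ℚ C] (H : NCMot k C)
    {T : Type u} [Ring T] [Algebra k T] {X : DG k T} (hX : CohAlg X) (sX : SmPr X)
    (h : ∃ (Ω : Type u) (_ : Field Ω) (_ : Algebra k Ω), UDom True k Ω ∧ UFin Ω X) :
    KimuraFinite (H.U X sX) := by
  obtain ⟨Ω, _, _, hΩ, hf⟩ := h
  obtain ⟨n, A, ⟨s⟩⟩ := exists_repA hX
  have hc : CohD (TT A) := ⟨T, _, _, X, hX, ⟨s⟩⟩
  exact (H.kimuraFinite_iff sX ⟨TT A, sX.smooth s, sX.proper s⟩ s).2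
    (kf_fin ⟨TT A, sX.smooth s, sX.proper s⟩ hc Ω hΩ ((uFin_iff s Ω).1 hf))

end Pool.Agent.MP_6e5bed_ag_UD
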