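import Pool.Agent.Lib.MP_6e5bed_ag_UD.UDef

set_option autoImplicit false

/-!
# Nilpotent actions on Grothendieck groups (MP_6e5bed_ag)
-/

namespace Pool.Agent.MP_6e5bed_ag_Pn

open CategoryTheory MonoidalCategory MulOpposite Pool.Agent.MP_6e5bed_ag_SP

universe u

variable {k : Type u} [Field k] {C : Type (u + 1)} [Category.{u + 1} C] [MonoidalCategory C]
  [Preadditive C] [Linear ℚ C] (H : NCData k C)

/-- The endomorphism `f` of the motive `U X` acts locally nilpotently on `K_0(X_L)_ℚ`: every element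
is annihilated by a power of the endomorphism of `K_0(X_L)_ℚ` given by `f`. -/
def UNil (L : Type u) [Field L] [Algebra k L] {B : Type u} [Ring B] [Algebra k B] {X : DG k B}
    (hX : SmPr X) (f : H.U X hX ⟶ H.U X hX) : Prop :=
  ∀ (E : DG k L), E.gr 0 = ⊤ → ∀ (V : Type (u + 1)) [AddCommGroup V] [Module ℚ V]
    (φ : ∀ {M : Type u} [AddCommGroup M] [Module k M] [Module L M] [Module Bᵐᵒᵖ M] (Z : Bm E X M),
      Perf Z → V) (F : (H.U X hX ⟶ H.U X hX) →ₗ[ℚ] V →ₗ[ℚ] V),
    IsK0 E X (fun Z h => φ Z h) →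
    IsAct H hX hX E (fun Z h => φ Z h) (fun Z h => φ Z h) F → ∀ v, ∃ m : ℕ, (F f ^ m) v = 0

end Pool.Agent.MP_6e5bed_ag_Pn
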