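import Pool.Agent.Lib.MP_6e5bed_ag_UD.Nil

set_option autoImplicit false
set_option linter.unusedVariables false

/-!
# MP_6e5bed_ag, universal domains: the nilpotence theorem for a universal domain over `k`
-/

noncomputable section

namespace Pool.Agent.MP_6e5bed_ag_UD

open Pool.Agent.MP_6e5bed_ag_NC Pool.Agent.MP_6e5bed_ag_WW Pool.Agent.MP_6e5bed_ag_GG
open Pool.Agent.MP_6e5bed_ag_PN hiding Ch

universe u

variable {k : Type u} [Field k] {T : DGA k}

/-- Extension of scalars to a larger field is injective on the Grothendieck groups (with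
coefficients in `ℚ`). -/
theorem cf_inj {L K : Type u} [Field L] [Field K] [Algebra k L] [Algebra k K] (j : L →ₐ[k] K)
    (x : K0Q ((base k).bc L) (T.bc L)) (hx : K0Q.cf j x = 0) : x = 0 := by
  have h1 : ∀ (S : Type u) [CommRing S] [Algebra k S],
      JB (k := k) (T := T) (ι := PEmpty.{u + 2}) (T' := fun _ => T) (fun a => a.elim)
        (fun a => a.elim) S = ⊥ := fun S _ _ => iSup_of_empty _
  have h2 := mem_JB_of_field (T := T) (ι := PEmpty.{u + 2}) (T' := fun _ => T) (fun a => a.elim)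
    (fun a => a.elim) j x (by rw [hx]; exact Submodule.zero_mem _)
  rwa [h1, Submodule.mem_bot] at h2

/-- The composition with the extension of `f` on the right. -/
def actS (hp : Proper T) (f : K0Q T T) (S : Type u) [CommRing S] [Algebra k S] :
    K0Q ((base k).bc S) (T.bc S) →ₗ[ℚ] K0Q ((base k).bc S) (T.bc S) :=
  (K0Q.comp (A := (base k).bc S) (C := T.bc S) (hp.bc S)).flip (up S f)

theorem psiK_act (hp : Proper T) (f : K0Q T T) (S : Type u) [CommRing S] [Algebra k S]
    (v : K0Q ((base k).bc S) (T.bc S)) (n : ℕ) :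
    (act hp f (ring k S) ^ n) (psiK k S T v) = psiK k S T ((actS hp f S ^ n) v) := by
  induction n with
  | zero => rfl
  | succ n ih =>
    rw [pow_succ', pow_succ', Module.End.mul_apply, Module.End.mul_apply, ih]
    exact (psiK_comp S hp _ f).symm

theorem cf_act (hp : Proper T) (f : K0Q T T) {S S' : Type u} [CommRing S] [Algebra k S]
    [CommRing S'] [Algebra k S'] (j : S →ₐ[k] S') (v : K0Q ((base k).bc S) (T.bc S)) (n : ℕ) :
    K0Q.cf j ((actS hp f S ^ n) v) = (actS hp f S' ^ n) (K0Q.cf j v) := by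
  induction n with
  | zero => rfl
  | succ n ih =>
    rw [pow_succ', pow_succ', Module.End.mul_apply, Module.End.mul_apply, ← ih]
    change K0Q.cf j (K0Q.comp (hp.bc S) _ (up S f)) = K0Q.comp (hp.bc S') _ (up S' f)
    rw [K0Q.cf_comp j (hp.bc S) (hp.bc S'), cf_up]

theorem mem_NU_of_field (hp : Proper T) (f : K0Q T T) {L K : Type u} [Field L] [Field K]
    [Algebra k L] [Algebra k K] (j : L →ₐ[k] K)
    (h : ∀ x : K0Q (ring k K) T, x ∈ NU hp f (ring k K)) (x : K0Q (ring k L) T) :
    x ∈ NU hp f (ring k L) := by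
  obtain ⟨x, rfl⟩ := (psiK_bij (k := k) L (B := T)).2 x
  obtain ⟨n, hn⟩ := mem_NU.1 (h (psiK k K T (K0Q.cf j x)))
  refine mem_NU.2 ⟨n, ?_⟩
  rw [psiK_act] at hn ⊢
  have h1 := (psiK_bij (k := k) K (B := T)).1 (hn.trans (map_zero (psiK k K T)).symm)
  rw [← cf_act] at h1
  rw [cf_inj j _ h1, map_zero]

/-- The nilpotence theorem for an algebraically closed field of infinite transcendence degree. -/
theorem nil_ud {i : Type} [Fintype i] (A : CA k i) (hs : Smooth (TT A)) (hp : Proper (TT A))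
    (f : K0Q (TT A) (TT A)) (Ω : Type u) [Field Ω] [Algebra k Ω] [IsAlgClosed Ω]
    (hΩ : ∀ m : ℕ, ∃ t : Fin m → Ω, AlgebraicIndependent k t)
    (h : ∀ x : K0Q (ring k Ω) (TT A), x ∈ NU hp f (ring k Ω)) : K0Q.one hs ∈ NU hp f (TT A) :=
  nil_F A hs hp f fun L _ _ _ x =>
    mem_NU_of_field hp f (exists_emb k L Ω hΩ).some h x

end Pool.Agent.MP_6e5bed_ag_UD
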