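import Pool.Agent.Lib.MP_6e5bed_ag_UD.DsJ
import Pool.Agent.Lib.MP_6e5bed_ag_UD.NilK
import Pool.Agent.Lib.MP_6e5bed_ag_UD.UpC

set_option autoImplicit false
set_option linter.unusedVariables false

/-!
# MP_6e5bed_ag, universal domains: the nilpotence theorem for a universal domain
-/

noncomputable section

namespace Pool.Agent.MP_6e5bed_ag_UD

open Pool.Agent.MP_6e5bed_ag_NC Pool.Agent.MP_6e5bed_ag_WW Pool.Agent.MP_6e5bed_ag_GG
  Pool.Agent.MP_6e5bed_ag_Pn
open Pool.Agent.MP_6e5bed_ag_PN hiding Ch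

universe u

variable {k : Type u} [Field k]

theorem nil_coh {B : DGA k} (hB : CohD B) (hs : Smooth B) (hp : Proper B) (f : K0Q B B)
    (h : ∀ (L : Type u) [Field L] [Algebra k L] [Algebra.EssFiniteType k L]
      (x : K0Q (ring k L) B), x ∈ NU hp f (ring k L)) : K0Q.one hs ∈ NU hp f B := by
  obtain ⟨n, A, ⟨e⟩⟩ := hB.exists_ca
  have hs' : Smooth (TT A) := hs.of_iso e.symm
  have hp' : Proper (TT A) := hp.of_iso e.symm
  obtain ⟨f, rfl⟩ := (res_bij e e).2 f
  rw [← K0Q.res_one hs hs' hp e, mem_NU_res hp hp']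
  refine nil_F A hs' hp' f fun L _ _ _ x => ?_
  rw [← mem_NU_res hp hp' e f (DIso.refl _)]
  exact h L _

theorem nil_udC {B : DGA k} (hB : CohD B) (hs : Smooth B) (hp : Proper B) (f : K0Q B B)
    (Ω : Type u) [Field Ω] [Algebra k Ω] [IsAlgClosed Ω]
    (hΩ : ∀ m : ℕ, ∃ t : Fin m → Ω, AlgebraicIndependent k t)
    (h : ∀ x : K0Q (ring k Ω) B, x ∈ NU hp f (ring k Ω)) : K0Q.one hs ∈ NU hp f B :=
  nil_coh hB hs hp f fun L _ _ _ x => mem_NU_of_field hp f (exists_emb k L Ω hΩ).some h x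

/-- extension of scalars -/
theorem up_act {E : Type u} [Field E] [Algebra E k] {T : DGA E} (hp : Proper T) (f : K0Q T T)
    {W : DGA E} (x : K0Q W T) (n : ℕ) :
    up k ((act hp f W ^ n) x) = (act (hp.bc k) (up k f) (W.bc k) ^ n) (up k x) := by
  induction n with
  | zero => rfl
  | succ n ih =>
    rw [pow_succ', pow_succ', Module.End.mul_apply, Module.End.mul_apply, ← ih]
    exact up_comp k hp _ f

/-- towers -/
theorem tow_act {E Ω : Type u} [Field E] [Algebra E k] [CommRing Ω] [Algebra E Ω] [Algebra k Ω]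
    [IsScalarTower E k Ω] {T : DGA E} (hp : Proper T) (f : K0Q T T)
    (x : K0Q ((base E).bc Ω) (T.bc Ω)) (n : ℕ) :
    tow E k Ω T ((actS hp f Ω ^ n) x) =
      (actS (k := k) (hp.bc k) (up (k := E) k f) Ω ^ n) (tow E k Ω T x) := by
  induction n with
  | zero => rfl
  | succ n ih =>
    rw [pow_succ', pow_succ', Module.End.mul_apply, Module.End.mul_apply, ← ih]
    exact tow_comp hp _ f

/-- The nilpotence theorem for an algebraically closed field over `k` of infinite transcendence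
degree over the prime field. -/
theorem nil_abs {B : DGA k} (hB : CohD B) (hs : Smooth B) (hp : Proper B) (f : K0Q B B)
    (Ω : Type u) [Field Ω] [Algebra k Ω] [IsAlgClosed Ω]
    (hΩ : ∀ m : ℕ, ∃ t : Fin m → Ω, AlgebraicIndependent (⊥ : Subfield Ω) t)
    (h : ∀ x : K0Q (ring k Ω) B, x ∈ NU hp f (ring k Ω)) : K0Q.one hs ∈ NU hp f B := by
  obtain ⟨E, _, _, r, hr, B₁, e, z, hC, hS, hz⟩ := exists_descent (J := Unit) (ι := Unit)
    (B := fun _ => B) (fun _ => hB) (fun _ => hs) (fun _ => ()) (fun _ => ()) (fun _ => f)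
  have hz := hz ()
  have hC := hC ()
  have hS := hS ()
  let _ : Algebra E Ω := ((algebraMap k Ω).comp (algebraMap E k)).toAlgebra
  have _ : IsScalarTower E k Ω := IsScalarTower.of_algebraMap_eq fun _ => rfl
  have hP : Proper (B₁ ()) := hC.proper
  -- the hypothesis over `E`
  have h1 : ∀ x : K0Q (ring E Ω) (B₁ ()), x ∈ NU hP (z ()) (ring E Ω) := by
    intro x
    obtain ⟨x, rfl⟩ := (psiK_bij (k := E) Ω (B := B₁ ())).2 x
    obtain ⟨n, hn⟩ := mem_NU.1 ((mem_NU_res hp (hP.bc k) (e ()) (up k (z ()))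
      (DIso.refl (ring k Ω)) (psiK k Ω ((B₁ ()).bc k) (tow E k Ω (B₁ ()) x))).1
        (by rw [← hz]; exact h _))
    refine mem_NU.2 ⟨n, ?_⟩
    rw [psiK_act] at hn ⊢
    have h2 := (psiK_bij (k := k) Ω (B := (B₁ ()).bc k)).1 (hn.trans (map_zero _).symm)
    rw [← tow_act hP] at h2
    rw [(tow_bij (E := E) (K := k) (Ω := Ω) (A := B₁ ())).1 (h2.trans (map_zero _).symm), map_zero]
  have h3 := nil_udC hC hS hP (z ()) Ω (inf_tr hΩ r hr) h1
  obtain ⟨n, hn⟩ := mem_NU.1 h3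
  have h4 := up_act (k := k) hP (z ()) (K0Q.one hS) n
  rw [hn, up_zero, up_one k hS hP] at h4
  rw [hz, ← K0Q.res_one hs (hS.bc k) hp (e ()), mem_NU_res hp (hP.bc k)]
  exact mem_NU.2 ⟨n, h4.symm⟩

end Pool.Agent.MP_6e5bed_ag_UD
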