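import Pool.Agent.Lib.MP_6e5bed_ag_BC.K0Cf
import Pool.Agent.Lib.MP_6e5bed_ag_BC.RsQt
import Pool.Agent.Lib.MP_6e5bed_ag_CV.Ring0

set_option autoImplicit false
set_option linter.unusedVariables false

/-!
# MP_6e5bed_ag, universal domains: dg modules over `S ⊗ B` as `S`-`B`-bimodules over `k`

For a commutative `k`-algebra `S` and a dg algebra `B` over `k` a dg `S ⊗ B`-module over the base
`S` (a bimodule over `(base k).bc S` and `B.bc S`) is the same as a dg bimodule over `ring k S` and
`B` over the base `k`. `psi` and `theta` are the two mutually inverse dg functors.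
-/

noncomputable section

namespace Pool.Agent.MP_6e5bed_ag_UD

open Pool.Agent.MP_6e5bed_ag_NC

attribute [local instance] Alg.iR Alg.iA Cf.iG Cf.iM Rs.iG Rs.iM

universe u

variable {k : Type u} [CommRing k] {S : Type u} [CommRing S] [Algebra k S] {B : DGA k}

/-- the action of `S` -/
def psiL (X : Bim ((base k).bc S) (B.bc S)) : S →ₗ[k] Rs (algebraMap k S) X.M →ₗ[k]
    Rs (algebraMap k S) X.M :=
  LinearMap.mk₂ k (fun (s : S) (x : Rs (algebraMap k S) X.M) =>
      Rs.to (algebraMap k S) (s • Rs.of (algebraMap k S) x))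
    (fun s s' x => by rw [add_smul, map_add])
    (fun c s x => by
      rw [Algebra.smul_def, mul_smul]
      rfl)
    (fun s x x' => by rw [map_add, smul_add, map_add])
    (fun c s x => by
      rw [Rs.smul_def, smul_comm]
      rfl)

theorem psiL_apply (X : Bim ((base k).bc S) (B.bc S)) (s : S) (x : Rs (algebraMap k S) X.M) :
    psiL X s x = Rs.to (algebraMap k S) (s • Rs.of (algebraMap k S) x) := rfl

/-- The dg `S`-`B`-bimodule over `k` given by a dg `S ⊗ B`-module over `S`. -/
def psi (X : Bim ((base k).bc S) (B.bc S)) : Bim (ring k S) B where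
  M := Rs (algebraMap k S) X.M
  dg := X.dg.rs (algebraMap k S)
  l := psiL X
  r := LinearMap.mk₂ k (fun (b : B.A) (x : Rs (algebraMap k S) X.M) =>
      Rs.to (algebraMap k S) (X.r (B.ι S b) (Rs.of (algebraMap k S) x)))
    (fun b b' x => by rw [map_add, map_add, LinearMap.add_apply, map_add])
    (fun c b x => by
      rw [DGA.ι_smul, map_smul, LinearMap.smul_apply]
      rfl)
    (fun b x x' => by rw [map_add, map_add, map_add])
    (fun c b x => by
      rw [Rs.smul_def, map_smul]
      rfl)
  l_one := fun x => by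
    change psiL X (1 : S) x = x
    rw [psiL_apply, one_smul, Rs.to_of]
  r_one := fun x => X.r_one x
  l_mul := fun (s : S) (s' : S) x => by
    change psiL X (s * s') x = psiL X s (psiL X s' x)
    rw [psiL_apply, mul_smul]
    rfl
  r_mul := fun b b' x => by
    rw [LinearMap.mk₂_apply, ← DGA.ι_mul]
    exact X.r_mul _ _ _
  l_r := fun (s : S) b x => (map_smul (X.r (B.ι S b)) s (Rs.of (algebraMap k S) x)).symm
  l_deg := fun {i j} (s : S) x hs hx => by
    rcases Dg.conc_cases hs with rfl | rfl
    · rw [zero_add]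
      exact Dg.IsDeg.smul (X := X.dg) s hx
    · rw [map_zero, LinearMap.zero_apply]
      exact Dg.IsDeg.zero _
  r_deg := fun {i j b x} hx hb => X.r_deg hx (DGA.ι_deg hb)
  d_l := fun (s : S) x => by
    have h1 : (ring k S).dg.d s = 0 := rfl
    have h2 : (ring k S).dg.s s = s := Dg.conc_s (k := k) s
    rw [h1, h2, map_zero, LinearMap.zero_apply, zero_add]
    exact map_smul X.dg.d s (Rs.of (algebraMap k S) x)
  d_r := fun b x => by
    have h1 : (X.dg.rs (algebraMap k S)).s x = X.dg.s x :=
      Dg.rs_s (f := algebraMap k S) (X := X.dg) (x : X.M)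
    rw [h1]
    change X.dg.d (X.r (B.ι S b) x) = X.r (B.ι S b) (X.dg.d x) + X.r (B.ι S (B.dg.d b)) (X.dg.s x)
    rw [X.d_r, DGA.ι_d]

theorem psi_l (X : Bim ((base k).bc S) (B.bc S)) (s : S) (x : X.M) :
    (psi X).l s (Rs.to (algebraMap k S) x) = Rs.to (algebraMap k S) (s • x) := rfl

theorem psi_r (X : Bim ((base k).bc S) (B.bc S)) (b : B.A) (x : X.M) :
    (psi X).r b (Rs.to (algebraMap k S) x) = Rs.to (algebraMap k S) (X.r (B.ι S b) x) := rfl

/-- The scalar of an element of `(base k).bc S`. -/
def bsc : ((base k).bc S).A →ₗ[S] S := (baseIso (k := k) S).hom.f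

theorem bsc_ι (c : k) : bsc (k := k) ((base k).ι S c) = algebraMap k S c := baseIso_ι S c

theorem bsc_one : bsc (k := k) (S := S) ((base k).bc S).one = 1 := (baseIso (k := k) S).hom.one

theorem bsc_mul (a b : ((base k).bc S).A) : bsc (((base k).bc S).mul a b) = bsc a * bsc b :=
  (baseIso (k := k) S).hom.mul a b

theorem bsc_d (a : ((base k).bc S).A) : bsc (((base k).bc S).dg.d a) = 0 :=
  ((baseIso (k := k) S).hom.d a).symm

theorem bsc_s (a : ((base k).bc S).A) : bsc (((base k).bc S).dg.s a) = bsc a :=
  ((baseIso (k := k) S).hom.s a).symm.trans (base_s (k := S) _)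

theorem bsc_sp (n : ℤ) (a : ((base k).bc S).A) : bsc (((base k).bc S).dg.sp n a) = bsc a := by
  rcases Int.even_or_odd n with h | h
  · rw [Dg.sp_even h]
  · rw [Dg.sp_odd h, bsc_s]

theorem bsc_cases {i : ℤ} {a : ((base k).bc S).A} (h : ((base k).bc S).dg.IsDeg i a) :
    i = 0 ∨ bsc a = 0 := base_deg_cases ((baseIso (k := k) S).hom.deg h)

/-- Every element of `(base k).bc S` acts as a scalar. -/
theorem bc_base_l (X : Bim ((base k).bc S) (B.bc S)) (a : ((base k).bc S).A) (x : X.M) :
    X.l a x = bsc a • x := by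
  have h : X.l = (LinearMap.lsmul S X.M).comp (bsc (k := k) (S := S)) := by
    refine DGA.ι_ext (fun (c : k) => LinearMap.ext fun x => ?_)
    rw [LinearMap.comp_apply, bsc_ι, LinearMap.lsmul_apply]
    have h1 : (base k).ι S c = algebraMap k S c • ((base k).bc S).one := by
      rw [DGA.ι_one, ← DGA.ι_smul]
      exact congrArg _ (base_smul c).symm
    rw [h1, map_smul, LinearMap.smul_apply, X.l_one]
  exact LinearMap.congr_fun₂ h a x

theorem ring_sp (n : ℤ) (s : S) : (ring k S).dg.sp n s = s := by
  rcases Int.even_or_odd n with h | h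
  · exact Dg.sp_even h s
  · exact (Dg.sp_odd h s).trans (Dg.conc_s (k := k) s)

/-- the map on morphisms -/
def psiMap {n : ℤ} {X Y : Bim ((base k).bc S) (B.bc S)} (φ : GMap n X Y) :
    GMap n (psi X) (psi Y) where
  f := (Rs.map (algebraMap k S) φ.f : Rs (algebraMap k S) X.M →ₗ[k] Rs (algebraMap k S) Y.M)
  deg := fun h => φ.deg h
  map_l := fun (s : S) (x : Rs (algebraMap k S) X.M) => by
    rw [ring_sp]
    exact φ.f.map_smul s (Rs.of (algebraMap k S) x)
  map_r := fun b x => φ.map_r (B.ι S b) x

variable (k S B) in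
/-- The dg functor `psi`. -/
def psiF : DGFun ((base k).bc S) (B.bc S) (ring k S) B where
  obj := psi
  map := psiMap
  map_id := fun _ _ => rfl
  map_comp := fun _ _ _ _ => rfl
  map_add := fun _ _ _ => rfl
  map_D := fun _ _ _ => rfl

/-! ### The inverse functor -/

/-- The underlying group of a dg `S`-`B`-bimodule, as an `S`-module. -/
def TS (M : Bim (ring k S) B) : Type u := M.M

/-- the group -/
@[implicit_reducible]
def TS.iG (M : Bim (ring k S) B) : AddCommGroup (TS M) := inferInstanceAs (AddCommGroup M.M)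

attribute [local instance] TS.iG

/-- the module -/
@[implicit_reducible]
def TS.iM (M : Bim (ring k S) B) : Module S (TS M) where
  smul := fun s m => M.l s m
  one_smul := fun m => M.l_one m
  mul_smul := fun s s' m => M.l_mul s s' m
  smul_zero := fun s => map_zero (M.l s)
  smul_add := fun s m m' => map_add (M.l s) m m'
  add_smul := fun s s' m => LinearMap.congr_fun (M.l.map_add s s') m
  zero_smul := fun m => LinearMap.congr_fun M.l.map_zero m

attribute [local instance] TS.iM

/-- from `M` to `TS M` -/
def TS.to (M : Bim (ring k S) B) : M.M →+ TS M := AddMonoidHom.id _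

/-- from `TS M` to `M` -/
def TS.of (M : Bim (ring k S) B) : TS M →+ M.M := AddMonoidHom.id _

theorem TS.smul_def (M : Bim (ring k S) B) (s : S) (m : TS M) :
    TS.of M (s • m) = M.l s (TS.of M m) := rfl

theorem TS.ρ_l (M : Bim (ring k S) B) (s : S) (m : M.M) (n : ℤ) :
    M.dg.ρ (M.l s m) n = M.l s (M.dg.ρ m n) := by
  have h1 := (Dg.degMap_iff (X := M.dg) (Y := M.dg) (n := 0) (M.l s)).1 (fun j v hv => by
    rw [add_comm]
    exact M.l_deg (Dg.conc_deg s) hv) m n
  rw [add_zero] at h1
  exact h1

theorem TS.d_l (M : Bim (ring k S) B) (s : S) (m : M.M) :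
    M.dg.d (M.l s m) = M.l s (M.dg.d m) := by
  have h1 := M.d_l s m
  have h2 : (ring k S).dg.d s = 0 := rfl
  have h3 : (ring k S).dg.s s = s := Dg.conc_s (k := k) s
  rw [h2, h3, map_zero, LinearMap.zero_apply, zero_add] at h1
  exact h1

/-- the grading and the differential over `S` -/
def TS.dg (M : Bim (ring k S) B) : Dg S (TS M) where
  ρ :=
    { toFun := fun m => (M.dg.ρ m : ℤ →₀ M.M)
      map_add' := M.dg.ρ.map_add
      map_smul' := fun s m => Finsupp.ext fun n => TS.ρ_l M s m n }
  sum_ρ := M.dg.sum_ρ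
  ρ_ρ := M.dg.ρ_ρ
  d :=
    { toFun := fun m => M.dg.d m
      map_add' := M.dg.d.map_add
      map_smul' := fun s m => TS.d_l M s m }
  d_d := M.dg.d_d
  ρ_d := M.dg.ρ_d

theorem TS.dg_deg (M : Bim (ring k S) B) {n : ℤ} {m : M.M} :
    (TS.dg M).IsDeg n (TS.to M m) ↔ M.dg.IsDeg n m := Iff.rfl

theorem TS.dg_o (M : Bim (ring k S) B) (m : M.M) :
    (TS.dg M).o (TS.to M m) = TS.to M (M.dg.o m) := by
  refine M.dg.ind (P := fun m => (TS.dg M).o (TS.to M m) = TS.to M (M.dg.o m)) ?_ ?_ ?_ m
  · simp only [map_zero]
  · intro v w hv hw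
    simp only [map_add, hv, hw]
  · intro n v hv
    rw [Dg.o_of_deg hv, Dg.o_of_deg ((TS.dg_deg M).2 hv)]
    split_ifs
    · rfl
    · exact (map_zero _).symm

theorem TS.dg_s (M : Bim (ring k S) B) (m : M.M) :
    (TS.dg M).s (TS.to M m) = TS.to M (M.dg.s m) := by
  rw [Dg.s_apply, Dg.s_apply, TS.dg_o, map_sub, two_smul, two_smul, map_add]

/-- the right action -/
def TS.r (M : Bim (ring k S) B) : (B.bc S).A →ₗ[S] TS M →ₗ[S] TS M :=
  DGA.lift
    { toFun := fun b =>
        { toFun := fun m => TS.to M (M.r b (TS.of M m))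
          map_add' := fun m m' => by rw [map_add, map_add, map_add]
          map_smul' := fun s m => (M.l_r s b m).symm }
      map_zero' := by
        refine LinearMap.ext fun m => ?_
        change TS.to M (M.r 0 (TS.of M m)) = 0
        rw [map_zero, LinearMap.zero_apply, map_zero]
      map_add' := fun b b' => by
        refine LinearMap.ext fun m => ?_
        change TS.to M (M.r (b + b') (TS.of M m)) = TS.to M (M.r b (TS.of M m)) +
          TS.to M (M.r b' (TS.of M m))
        rw [map_add, LinearMap.add_apply, map_add] }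
    (fun c b => by
      refine LinearMap.ext fun m => ?_
      change M.r (c • b) m = M.l (algebraMap k S c) (M.r b m)
      have h1 : M.l (algebraMap k S c) (M.r b m) = c • M.r b m := by
        have h2 : algebraMap k S c = c • (ring k S).one := Algebra.algebraMap_eq_smul_one c
        rw [h2, map_smul, LinearMap.smul_apply, M.l_one]
      rw [h1, map_smul, LinearMap.smul_apply])

theorem TS.r_ι (M : Bim (ring k S) B) (b : B.A) (m : M.M) :
    TS.r M (B.ι S b) (TS.to M m) = TS.to M (M.r b m) := by
  unfold TS.r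
  rw [DGA.lift_ι]
  rfl

/-- The dg `S ⊗ B`-module over `S` given by a dg `S`-`B`-bimodule over `k`. -/
def theta (M : Bim (ring k S) B) : Bim ((base k).bc S) (B.bc S) where
  M := TS M
  dg := TS.dg M
  l := (LinearMap.lsmul S (TS M)).comp (bsc (k := k) (S := S))
  r := TS.r M
  l_one := fun m => by
    rw [LinearMap.comp_apply, bsc_one, LinearMap.lsmul_apply, one_smul]
  r_one := fun m => (TS.r_ι M B.one m).trans (M.r_one m)
  l_mul := fun a a' m => by
    rw [LinearMap.comp_apply, bsc_mul, LinearMap.lsmul_apply, mul_smul]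
    rfl
  r_mul := fun x y z => by
    have h : (B.bc S).mul.compr₂ (TS.r M) =
        ((LinearMap.llcomp S _ _ _).compl₁₂ (TS.r M) (TS.r M)).flip := by
      refine DGA.ι_ext (fun a => DGA.ι_ext (fun b => LinearMap.ext (fun m => ?_)))
      change TS.r M ((B.bc S).mul (B.ι S a) (B.ι S b)) (TS.to M m) =
        TS.r M (B.ι S b) (TS.r M (B.ι S a) (TS.to M m))
      rw [DGA.ι_mul, TS.r_ι, TS.r_ι, TS.r_ι, M.r_mul]
    exact LinearMap.congr_fun (LinearMap.congr_fun₂ h x y) z
  l_r := fun a b m => (map_smul (TS.r M b) (bsc a) m).symm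
  l_deg := fun {i j a m} ha hm => by
    rcases bsc_cases ha with rfl | h0
    · rw [zero_add]
      exact hm.smul (bsc a)
    · rw [LinearMap.comp_apply, h0, LinearMap.lsmul_apply, zero_smul]
      exact Dg.IsDeg.zero _
  r_deg := fun {i j b m} hm hb => by
    rw [add_comm]
    exact Dg.cf_degMap (X := B.dg) (Z := TS.dg M) (n := i) ((TS.r M).flip m)
      (fun {j v} hv => by
        rw [add_comm]
        exact (congrArg (fun z => (TS.dg M).IsDeg (i + j) z) (TS.r_ι M v m)).mpr
          (M.r_deg hm hv)) hb
  d_l := fun a m => by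
    rw [LinearMap.comp_apply, LinearMap.comp_apply, LinearMap.comp_apply, bsc_d, bsc_s, map_zero,
      LinearMap.zero_apply, zero_add]
    exact map_smul (TS.dg M).d (bsc a) m
  d_r := fun b m => by
    refine DGA.ι_ind (P := fun b => (TS.dg M).d (TS.r M b m) = TS.r M b ((TS.dg M).d m) +
      TS.r M ((B.bc S).dg.d b) ((TS.dg M).s m)) ?_ ?_ ?_ b
    · simp only [map_zero, LinearMap.zero_apply, add_zero]
    · intro x y hx hy
      simp only [map_add, LinearMap.add_apply, hx, hy]
      abel
    · intro s b
      simp only [map_smul, LinearMap.smul_apply, DGA.ι_d, ← smul_add]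
      refine congrArg _ ?_
      have h1 : (TS.dg M).s m = TS.to M (M.dg.s m) := TS.dg_s M m
      rw [h1]
      exact (congrArg (fun z => (TS.dg M).d z) (TS.r_ι M b m)).trans ((M.d_r b m).trans
        (congrArg₂ (fun z z' : M.M => z + z') (TS.r_ι M b (M.dg.d m)).symm
          (TS.r_ι M (B.dg.d b) (M.dg.s m)).symm))

/-- the map on morphisms -/
def thetaMap {n : ℤ} {M N : Bim (ring k S) B} (φ : GMap n M N) :
    GMap n (theta M) (theta N) where
  f :=
    { toFun := fun m => φ.f m
      map_add' := φ.f.map_add
      map_smul' := fun s m => by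
        have h1 := φ.map_l s m
        rw [ring_sp] at h1
        exact h1 }
  deg := fun h => φ.deg h
  map_l := fun a m => by
    have h1 := φ.map_l (bsc (k := k) (S := S) a) m
    rw [ring_sp] at h1
    refine h1.trans ?_
    change N.l (bsc (k := k) (S := S) a) (φ.f m) =
      N.l (bsc (k := k) (S := S) (((base k).bc S).dg.sp n a)) (φ.f m)
    rw [bsc_sp]
  map_r := fun b m => by
    refine DGA.ι_ind (P := fun b => φ.f (TS.r M b m) = TS.r N b (φ.f m)) ?_ ?_ ?_ b
    · rw [map_zero, map_zero, LinearMap.zero_apply, LinearMap.zero_apply]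
      exact map_zero φ.f
    · intro x y hx hy
      rw [map_add, map_add, LinearMap.add_apply, LinearMap.add_apply, ← hx, ← hy]
      exact map_add φ.f _ _
    · intro s b
      rw [map_smul, map_smul, LinearMap.smul_apply, LinearMap.smul_apply]
      have h1 := φ.map_l s (TS.r M (B.ι S b) m)
      rw [ring_sp] at h1
      refine h1.trans (congrArg (fun z => N.l s z) ?_)
      refine (congrArg φ.f (TS.r_ι M b m)).trans ((φ.map_r b m).trans ?_)
      exact (TS.r_ι N b (φ.f m)).symm

variable (k S B) in
/-- The dg functor `theta`. -/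
def thetaF : DGFun (ring k S) B ((base k).bc S) (B.bc S) where
  obj := theta
  map := thetaMap
  map_id := fun _ _ => rfl
  map_comp := fun _ _ _ _ => rfl
  map_add := fun _ _ _ => rfl
  map_D := fun _ _ _ => rfl

/-- `psi (theta M) = M` -/
theorem psi_theta (M : Bim (ring k S) B) : BIso (psi (theta M)) M := by
  have h0 : ∀ c : k, ∀ m : M.M, M.l (algebraMap k S c) m = c • m := by
    intro c m
    have h2 : algebraMap k S c = c • (ring k S).one := Algebra.algebraMap_eq_smul_one c
    rw [h2, map_smul, LinearMap.smul_apply, M.l_one]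
  refine BIso.of_bij (M := psi (theta M)) (N := M)
    { f :=
        { toFun := fun m => TS.of M m
          map_add' := fun _ _ => rfl
          map_smul' := fun c m => h0 c m }
      deg := fun {i m} h => by
        rw [add_zero]
        exact h
      map_l := fun s m => by
        rw [ring_sp]
        rfl
      map_r := fun b m => TS.r_ι M b m } ?_ Function.bijective_id
  refine LinearMap.ext fun x => ?_
  rw [GMap.dd_apply, sg_zero, one_smul, LinearMap.zero_apply]
  exact sub_self _

/-- `theta (psi X) = X` -/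
theorem theta_psi (X : Bim ((base k).bc S) (B.bc S)) : BIso (theta (psi X)) X := by
  refine BIso.of_bij (M := theta (psi X)) (N := X)
    { f :=
        { toFun := fun m => Rs.of (algebraMap k S) (TS.of (psi X) m)
          map_add' := fun _ _ => rfl
          map_smul' := fun c m => rfl }
      deg := fun {i m} h => by
        rw [add_zero]
        exact h
      map_l := fun a m => by
        have h1 := bc_base_l X (((base k).bc S).dg.sp 0 a) m
        rw [bsc_sp] at h1
        exact h1.symm
      map_r := fun b m => by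
        refine DGA.ι_ind (P := fun b => ((theta (psi X)).r b m : X.M) = X.r b m) ?_ ?_ ?_ b
        · rw [map_zero, map_zero]
          rfl
        · intro x y hx hy
          rw [map_add, map_add, LinearMap.add_apply, LinearMap.add_apply, ← hx, ← hy]
          rfl
        · intro s b
          rw [map_smul, map_smul, LinearMap.smul_apply, LinearMap.smul_apply]
          exact congrArg (fun z : X.M => s • z) (TS.r_ι (psi X) b m) } ?_ Function.bijective_id
  refine LinearMap.ext fun x => ?_
  rw [GMap.dd_apply, sg_zero, one_smul, LinearMap.zero_apply]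
  exact sub_self _

end Pool.Agent.MP_6e5bed_ag_UD
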