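import Pool.Agent.Lib.MP_6e5bed_ag_UD.Psi

set_option autoImplicit false
set_option linter.unusedVariables false

/-!
# MP_6e5bed_ag, universal domains: the functor `psi` on the free module
-/

noncomputable section

namespace Pool.Agent.MP_6e5bed_ag_UD

open Pool.Agent.MP_6e5bed_ag_NC

open scoped TensorProduct

attribute [local instance] Alg.iR Alg.iA Cf.iG Cf.iM Rs.iG Rs.iM TS.iG TS.iM

universe u

variable (k : Type u) [CommRing k] (S : Type u) [CommRing S] [Algebra k S] (B : DGA k)

/-! ### The free module over `S ⊗ B` -/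

/-- Pure tensors in the free module over `S`. -/
private def psiFreeT {R : Type u} [CommRing R] (C D : DGA R) :
    C.A →ₗ[R] D.A →ₗ[R] (free C D).M := TensorProduct.mk R C.A D.A

private theorem psiFreeT_ind {R : Type u} [CommRing R] {C D : DGA R} {P : (free C D).M → Prop}
    (h0 : P 0) (hadd : ∀ x y, P x → P y → P (x + y)) (h : ∀ x y, P (psiFreeT C D x y))
    (m : (free C D).M) : P m :=
  TensorProduct.induction_on (motive := fun m : C.A ⊗[R] D.A => P m) m h0 h hadd

private theorem psiFreeT_l {R : Type u} [CommRing R] {C D : DGA R} (a x : C.A) (y : D.A) :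
    (free C D).l a (psiFreeT C D x y) = psiFreeT C D (C.mul a x) y := rfl

private theorem psiFreeT_r {R : Type u} [CommRing R] {C D : DGA R} (b : D.A) (x : C.A)
    (y : D.A) : (free C D).r b (psiFreeT C D x y) = psiFreeT C D x (D.mul y b) := rfl

private theorem psiFreeT_d {R : Type u} [CommRing R] {C D : DGA R} (x : C.A) (y : D.A) :
    (free C D).dg.d (psiFreeT C D x y) = psiFreeT C D (C.dg.d x) y +
      psiFreeT C D (C.dg.s x) (D.dg.d y) :=
  Dg.tensor_d x y

/-- The linear map on the free module given by a bilinear map. -/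
private def psiFreeLift {R : Type u} [CommRing R] (C D : DGA R) {P : Type*}
    [AddCommGroup P] [Module R P] (β : C.A →ₗ[R] D.A →ₗ[R] P) : (free C D).M →ₗ[R] P :=
  TensorProduct.lift β

private theorem psiFreeLift_T {R : Type u} [CommRing R] (C D : DGA R) {P : Type*}
    [AddCommGroup P] [Module R P] (β : C.A →ₗ[R] D.A →ₗ[R] P) (x : C.A) (y : D.A) :
    psiFreeLift C D β (psiFreeT C D x y) = β x y := rfl

private theorem psiFree_one (a : ((base k).bc S).A) : bsc a • ((base k).bc S).one = a := by
  have h : (LinearMap.toSpanSingleton S ((base k).bc S).A ((base k).bc S).one).comp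
      (bsc (k := k) (S := S)) = LinearMap.id := by
    refine DGA.ι_ext (fun (c : k) => ?_)
    rw [LinearMap.comp_apply, bsc_ι, LinearMap.toSpanSingleton_apply, LinearMap.id_apply,
      DGA.ι_one, ← DGA.ι_smul]
    exact congrArg _ (base_smul c)
  exact LinearMap.congr_fun h a

private theorem psiFree_one_d : ((base k).bc S).dg.d ((base k).bc S).one = 0 := by
  have h1 := psiFree_one k S (((base k).bc S).dg.d ((base k).bc S).one)
  rw [bsc_d, zero_smul] at h1
  exact h1.symm

private theorem psiFree_one_s : ((base k).bc S).dg.s ((base k).bc S).one =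
    ((base k).bc S).one :=
  Dg.s_of_even (Dg.o_of_even ((base k).bc S).one_deg Even.zero)

/-- `b ↦ one ⊗ b` -/
private def psiFreeE : B.A →+ (free ((base k).bc S) (B.bc S)).M :=
  (psiFreeT ((base k).bc S) (B.bc S) ((base k).bc S).one).toAddMonoidHom.comp (B.ι S)

private theorem psiFreeE_apply (b : B.A) : psiFreeE k S B b =
    psiFreeT ((base k).bc S) (B.bc S) ((base k).bc S).one (B.ι S b) := rfl

private theorem psiFreeE_smul (c : k) (b : B.A) :
    psiFreeE k S B (c • b) = algebraMap k S c • psiFreeE k S B b := by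
  rw [psiFreeE_apply, psiFreeE_apply, DGA.ι_smul, map_smul]

/-- The bilinear map `(s, b) ↦ s • (one ⊗ b)`. -/
private def psiFreeβ : S →ₗ[k] B.A →ₗ[k]
    Rs (algebraMap k S) (free ((base k).bc S) (B.bc S)).M :=
  LinearMap.mk₂ k
    (fun (s : S) (b : B.A) => Rs.to (algebraMap k S) (s • psiFreeE k S B b))
    (fun s s' b => by rw [add_smul, map_add])
    (fun c s b => by
      rw [Algebra.smul_def, mul_smul]
      rfl)
    (fun s b b' => by rw [map_add, smul_add, map_add])
    (fun c s b => by
      rw [psiFreeE_smul, smul_comm]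
      rfl)

/-- The map `S ⊗ B → (k ⊗ S) ⊗_S (S ⊗ B)`. -/
private def psiFreeF : (free (ring k S) B).M →ₗ[k]
    Rs (algebraMap k S) (free ((base k).bc S) (B.bc S)).M :=
  psiFreeLift (ring k S) B (psiFreeβ k S B : (ring k S).A →ₗ[k] B.A →ₗ[k] _)

/-- The same map as an additive map. -/
private def psiFreeA : (free (ring k S) B).M →+ (free ((base k).bc S) (B.bc S)).M :=
  (Rs.of (algebraMap k S)).comp (psiFreeF k S B).toAddMonoidHom

private theorem psiFreeA_T (s : S) (b : B.A) : psiFreeA k S B (psiFreeT (ring k S) B s b) =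
    s • psiFreeE k S B b := rfl

private theorem psiFreeE_deg {j : ℤ} {w : B.A} (hw : B.dg.IsDeg j w) :
    (free ((base k).bc S) (B.bc S)).dg.IsDeg (0 + j) (psiFreeE k S B w) :=
  Dg.tensor_deg ((base k).bc S).one_deg (DGA.ι_deg hw)

/-- `S ⊗ B`, with values in the free bimodule regarded as an `S`-module -/
private def psiFreeB : (B.bc S).A →ₗ[S] TS (free (ring k S) B) :=
  DGA.lift
    { toFun := fun b => TS.to _ (psiFreeT (ring k S) B (1 : S) b)
      map_zero' := by rw [map_zero, map_zero]
      map_add' := fun b b' => by rw [map_add, map_add] }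
    (fun c b => by
      change psiFreeT (ring k S) B (1 : S) (c • b) =
        (free (ring k S) B).l (algebraMap k S c) (psiFreeT (ring k S) B (1 : S) b)
      rw [psiFreeT_l, map_smul, ← LinearMap.smul_apply, ← map_smul]
      refine congrArg (fun z => psiFreeT (ring k S) B z b) ?_
      change c • (1 : S) = algebraMap k S c * (1 : S)
      rw [Algebra.smul_def])

private theorem psiFreeB_ι (b : B.A) : psiFreeB k S B (B.ι S b) =
    TS.to _ (psiFreeT (ring k S) B (1 : S) b) := by
  unfold psiFreeB
  rw [DGA.lift_ι]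
  rfl

/-- The map in the other direction. -/
private def psiFreeG : (free ((base k).bc S) (B.bc S)).M →ₗ[S] TS (free (ring k S) B) :=
  psiFreeLift ((base k).bc S) (B.bc S)
    (((LinearMap.lsmul S (TS (free (ring k S) B))).comp (bsc (k := k) (S := S))).compl₂
      (psiFreeB k S B))

private theorem psiFreeG_T (a : ((base k).bc S).A) (y : (B.bc S).A) :
    psiFreeG k S B (psiFreeT _ _ a y) = bsc a • psiFreeB k S B y := rfl

private theorem psiFreeG_E (b : B.A) : psiFreeG k S B (psiFreeE k S B b) =
    TS.to _ (psiFreeT (ring k S) B (1 : S) b) := by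
  rw [psiFreeE_apply, psiFreeG_T, bsc_one, one_smul, psiFreeB_ι]

private theorem psiFreeG_A (m : (free (ring k S) B).M) :
    psiFreeG k S B (psiFreeA k S B m) = m := by
  refine psiFreeT_ind (P := fun m => psiFreeG k S B (psiFreeA k S B m) = m) ?_ ?_ ?_ m
  · rw [map_zero, map_zero]
    rfl
  · intro x y hx hy
    rw [map_add, map_add, hx, hy]
    rfl
  · intro (s : S) b
    rw [psiFreeA_T, map_smul, psiFreeG_E]
    change psiFreeT (ring k S) B (s * 1 : S) b = psiFreeT (ring k S) B s b
    rw [mul_one]

private theorem psiFreeA_l (s : S) (m : (free (ring k S) B).M) :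
    psiFreeA k S B ((free (ring k S) B).l s m) = s • psiFreeA k S B m := by
  refine psiFreeT_ind (P := fun m => psiFreeA k S B ((free (ring k S) B).l s m) =
      s • psiFreeA k S B m) ?_ ?_ ?_ m
  · rw [map_zero, map_zero, smul_zero]
  · intro x y hx hy
    rw [map_add, map_add, map_add, smul_add, hx, hy]
  · intro (s' : S) b
    rw [psiFreeT_l]
    exact mul_smul s s' (psiFreeE k S B b)

private theorem psiFreeA_r (b : B.A) (m : (free (ring k S) B).M) :
    psiFreeA k S B ((free (ring k S) B).r b m) =
      (free ((base k).bc S) (B.bc S)).r (B.ι S b) (psiFreeA k S B m) := by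
  refine psiFreeT_ind (P := fun m => psiFreeA k S B ((free (ring k S) B).r b m) =
      (free ((base k).bc S) (B.bc S)).r (B.ι S b) (psiFreeA k S B m)) ?_ ?_ ?_ m
  · simp only [map_zero]
  · intro x y hx hy
    simp only [map_add, hx, hy]
  · intro (s : S) b'
    rw [psiFreeT_r, psiFreeA_T, psiFreeA_T, map_smul, psiFreeE_apply, psiFreeE_apply,
      psiFreeT_r, DGA.ι_mul]

private theorem psiFreeA_d (m : (free (ring k S) B).M) :
    (free ((base k).bc S) (B.bc S)).dg.d (psiFreeA k S B m) =
      psiFreeA k S B ((free (ring k S) B).dg.d m) := by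
  refine psiFreeT_ind (P := fun m => (free ((base k).bc S) (B.bc S)).dg.d
    (psiFreeA k S B m) = psiFreeA k S B ((free (ring k S) B).dg.d m)) ?_ ?_ ?_ m
  · simp only [map_zero]
  · intro x y hx hy
    simp only [map_add, hx, hy]
  · intro (s : S) b
    have h1 : (ring k S).dg.d s = 0 := rfl
    have h2 : (ring k S).dg.s s = s := Dg.conc_s (k := k) s
    rw [psiFreeT_d, h1, h2, map_zero, LinearMap.zero_apply, zero_add, psiFreeA_T, psiFreeA_T,
      map_smul, psiFreeE_apply, psiFreeT_d, psiFree_one_d, psiFree_one_s, map_zero,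
      LinearMap.zero_apply, zero_add, DGA.ι_d, psiFreeE_apply]

private theorem psiFreeA_B (y : (B.bc S).A) : psiFreeA k S B (psiFreeB k S B y) =
    psiFreeT _ _ ((base k).bc S).one y := by
  refine DGA.ι_ind (P := fun y => psiFreeA k S B (psiFreeB k S B y) =
    psiFreeT _ _ ((base k).bc S).one y) ?_ ?_ ?_ y
  · rw [map_zero, map_zero]
    exact map_zero (psiFreeA k S B)
  · intro x y hx hy
    rw [map_add, map_add, ← hx, ← hy]
    exact map_add (psiFreeA k S B) _ _
  · intro s b
    rw [map_smul, psiFreeB_ι, map_smul]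
    refine (psiFreeA_l k S B s (psiFreeT (ring k S) B (1 : S) b)).trans ?_
    rw [psiFreeA_T, one_smul, psiFreeE_apply]

private theorem psiFreeA_G (x : (free ((base k).bc S) (B.bc S)).M) :
    psiFreeA k S B (psiFreeG k S B x) = x := by
  refine psiFreeT_ind (P := fun x => psiFreeA k S B (psiFreeG k S B x) = x) ?_ ?_ ?_ x
  · rw [map_zero]
    exact map_zero (psiFreeA k S B)
  · intro x y hx hy
    rw [map_add]
    refine (map_add (psiFreeA k S B) _ _).trans ?_
    rw [hx, hy]
  · intro a y
    rw [psiFreeG_T]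
    refine (psiFreeA_l k S B (bsc a) (psiFreeB k S B y)).trans ?_
    rw [psiFreeA_B, ← LinearMap.smul_apply, ← map_smul, psiFree_one]

private theorem psiFreeF_deg {i j : ℤ} (s : S) (b : B.A) (hs : (ring k S).dg.IsDeg i s)
    (hb : B.dg.IsDeg j b) :
    ((free ((base k).bc S) (B.bc S)).dg.rs (algebraMap k S)).IsDeg (i + j)
      (psiFreeF k S B (psiFreeT (ring k S) B s b)) := by
  rcases Dg.conc_cases hs with h0 | h0
  · have h1 : (free ((base k).bc S) (B.bc S)).dg.IsDeg (0 + j) (s • psiFreeE k S B b) :=
      (psiFreeE_deg k S B hb).smul s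
    have h2 : psiFreeF k S B (psiFreeT (ring k S) B s b) =
      Rs.to (algebraMap k S) (s • psiFreeE k S B b) := rfl
    rw [h0, h2]
    exact Dg.rs_deg.2 h1
  · have h1 : psiFreeF k S B (psiFreeT (ring k S) B s b) = 0 := by
      rw [h0, map_zero, LinearMap.zero_apply, map_zero]
    rw [h1]
    exact Dg.IsDeg.zero _

private theorem psiFreeA_deg {i : ℤ} {m : (free (ring k S) B).M}
    (h : (free (ring k S) B).dg.IsDeg i m) :
    ((free ((base k).bc S) (B.bc S)).dg.rs (algebraMap k S)).IsDeg (i + 0)
      (psiFreeF k S B m) :=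
  Dg.tensor_degMap (X := (ring k S).dg) (Y := B.dg)
    (Z := (free ((base k).bc S) (B.bc S)).dg.rs (algebraMap k S)) (n := 0) (psiFreeF k S B)
    (fun i j v w hv hw => by
      rw [add_zero]
      exact psiFreeF_deg k S B v w hv hw) h

/-- The map of bimodules. -/
private def psiFreeφ : GMap 0 (free (ring k S) B) (psi (free ((base k).bc S) (B.bc S))) where
  f := psiFreeF k S B
  deg := fun h => psiFreeA_deg k S B h
  map_l := fun s m => by
    rw [ring_sp]
    exact psiFreeA_l k S B s m
  map_r := fun b m => psiFreeA_r k S B b m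

/-- `psi` sends the free module to the free bimodule.

`(free ((base k).bc S) (B.bc S)).M = (k ⊗ S) ⊗_S (S ⊗ B)` and `(free (ring k S) B).M = S ⊗ B`. The
map
from the second to the first is `s ⊗ b ↦ s • (one ⊗ B.ι S b)`; its inverse is
`a ⊗ (s • B.ι S b) ↦ (bsc a * s) ⊗ b`. (`BIso.of_bij`, compare `BC/BcFree.lean`.) -/
theorem psi_free : BIso (psi (free ((base k).bc S) (B.bc S))) (free (ring k S) B) := by
  refine (BIso.of_bij (psiFreeφ k S B) ?_ ?_).symm
  · refine LinearMap.ext fun m => ?_
    rw [GMap.dd_apply, LinearMap.zero_apply, sg_zero, one_smul, sub_eq_zero]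
    exact psiFreeA_d k S B m
  · exact Function.bijective_iff_has_inverse.2
      ⟨psiFreeG k S B, psiFreeG_A k S B, psiFreeA_G k S B⟩

theorem theta_free : BIso (theta (free (ring k S) B)) (free ((base k).bc S) (B.bc S)) :=
  ((thetaF k S B).biso (psi_free k S B).symm).trans (theta_psi _)

end Pool.Agent.MP_6e5bed_ag_UD
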