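import Pool.Agent.Lib.MP_6e5bed_ag_UD.Psi

set_option autoImplicit false
set_option linter.unusedVariables false

/-!
# MP_6e5bed_ag, universal domains: the functor `psi` and tensor products
-/

noncomputable section

namespace Pool.Agent.MP_6e5bed_ag_UD

open Pool.Agent.MP_6e5bed_ag_NC

attribute [local instance] Alg.iR Alg.iA Cf.iG Cf.iM Rs.iG Rs.iM TS.iG TS.iM

universe u

variable {k : Type u} [CommRing k] {S : Type u} [CommRing S] [Algebra k S] {B C : DGA k}

/-- A dg `B`-`C`-bimodule, extended to `S`. -/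
def Bim.up (S : Type u) [CommRing S] [Algebra k S] (P : Bim B C) : Bim (B.bc S) (C.bc S) :=
  (res (selfIso B).hom (selfIso C).hom P).cf (Algebra.ofId k S)

/-- the map `p ↦ 1 ⊗ p` -/
def Bim.upι (S : Type u) [CommRing S] [Algebra k S] (P : Bim B C) : P.M →+ (Bim.up S P).M :=
  (res (selfIso B).hom (selfIso C).hom P).ι (Algebra.ofId k S)

theorem Bim.upι_l (P : Bim B C) (b : B.A) (p : P.M) :
    (Bim.up S P).l (B.ι S b) (Bim.upι S P p) = Bim.upι S P (P.l b p) := by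
  refine (Bim.ι_l (f := Algebra.ofId k S) (M := res (selfIso B).hom (selfIso C).hom P) b p).trans ?_
  exact congrArg (fun z => Bim.upι S P (P.l z p)) (selfIso_ι B b)

theorem Bim.upι_r (P : Bim B C) (c : C.A) (p : P.M) :
    (Bim.up S P).r (C.ι S c) (Bim.upι S P p) = Bim.upι S P (P.r c p) := by
  refine (Bim.ι_r (f := Algebra.ofId k S) (M := res (selfIso B).hom (selfIso C).hom P) c p).trans ?_
  exact congrArg (fun z => Bim.upι S P (P.r z p)) (selfIso_ι C c)

private theorem PsiTb_upι_smul (P : Bim B C) (c : k) (p : P.M) :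
    Bim.upι S P (c • p) = algebraMap k S c • Bim.upι S P p :=
  Bim.ι_smul (f := Algebra.ofId k S) (M := res (selfIso B).hom (selfIso C).hom P) c p

private theorem PsiTb_upι_d (P : Bim B C) (p : P.M) :
    (Bim.up S P).dg.d (Bim.upι S P p) = Bim.upι S P (P.dg.d p) :=
  Bim.ι_d (f := Algebra.ofId k S) (M := res (selfIso B).hom (selfIso C).hom P) p

private theorem PsiTb_upι_deg (P : Bim B C) {n : ℤ} {p : P.M} (h : P.dg.IsDeg n p) :
    (Bim.up S P).dg.IsDeg n (Bim.upι S P p) :=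
  Bim.ι_deg (f := Algebra.ofId k S) (M := res (selfIso B).hom (selfIso C).hom P) h

private theorem PsiTb_upι_ind (P : Bim B C) {Q : (Bim.up S P).M → Prop} (h0 : Q 0)
    (hadd : ∀ x y, Q x → Q y → Q (x + y))
    (hι : ∀ (t : S) (p : P.M), Q (t • Bim.upι S P p)) (x : (Bim.up S P).M) : Q x :=
  Bim.ι_ind (f := Algebra.ofId k S) (M := res (selfIso B).hom (selfIso C).hom P) h0 hadd hι x

/-- from `X` to `psi X` -/
private def PsiTb_to (X : Bim ((base k).bc S) (B.bc S)) : X.M →+ (psi X).M := AddMonoidHom.id _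

/-- from `psi X` to `X` -/
private def PsiTb_of (X : Bim ((base k).bc S) (B.bc S)) : (psi X).M →+ X.M := AddMonoidHom.id _

private theorem PsiTb_to_of (X : Bim ((base k).bc S) (B.bc S)) (x : (psi X).M) :
    PsiTb_to X (PsiTb_of X x) = x := rfl

private theorem PsiTb_of_to (X : Bim ((base k).bc S) (B.bc S)) (x : X.M) :
    PsiTb_of X (PsiTb_to X x) = x := rfl

private theorem PsiTb_of_smul (X : Bim ((base k).bc S) (B.bc S)) (c : k) (x : (psi X).M) :
    PsiTb_of X (c • x) = algebraMap k S c • PsiTb_of X x := rfl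

private theorem PsiTb_to_smul (X : Bim ((base k).bc S) (B.bc S)) (c : k) (x : X.M) :
    PsiTb_to X (algebraMap k S c • x) = c • PsiTb_to X x := rfl

private theorem PsiTb_to_l (X : Bim ((base k).bc S) (B.bc S)) (s : S) (x : X.M) :
    (psi X).l s (PsiTb_to X x) = PsiTb_to X (s • x) := rfl

private theorem PsiTb_to_r (X : Bim ((base k).bc S) (B.bc S)) (b : B.A) (x : X.M) :
    (psi X).r b (PsiTb_to X x) = PsiTb_to X (X.r (B.ι S b) x) := rfl

private theorem PsiTb_to_d (X : Bim ((base k).bc S) (B.bc S)) (x : X.M) :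
    (psi X).dg.d (PsiTb_to X x) = PsiTb_to X (X.dg.d x) := rfl

private theorem PsiTb_to_s (X : Bim ((base k).bc S) (B.bc S)) (x : X.M) :
    (psi X).dg.s (PsiTb_to X x) = PsiTb_to X (X.dg.s x) :=
  Dg.rs_s (f := algebraMap k S) (X := X.dg) x

private theorem PsiTb_to_deg (X : Bim ((base k).bc S) (B.bc S)) {n : ℤ} {x : X.M} :
    (psi X).dg.IsDeg n (PsiTb_to X x) ↔ X.dg.IsDeg n x := Iff.rfl

/-- The bilinear map `(n, p) ↦ n ⊗ (1 ⊗ p)`. -/
private def PsiTb_β (N : Bim ((base k).bc S) (B.bc S)) (P : Bim B C) :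
    (psi N).M →ₗ[k] P.M →ₗ[k] (psi (tb N (Bim.up S P))).M :=
  LinearMap.mk₂ k (fun n p =>
      PsiTb_to (tb N (Bim.up S P)) (tm (PsiTb_of N n) (Bim.upι S P p)))
    (fun n n' p => by rw [map_add, tm_add_left, map_add])
    (fun c n p => by rw [PsiTb_of_smul, tm_smul_left, PsiTb_to_smul])
    (fun n p p' => by rw [map_add, tm_add_right, map_add])
    (fun c n p => by rw [PsiTb_upι_smul, tm_smul_right, PsiTb_to_smul])

private theorem PsiTb_β_apply (N : Bim ((base k).bc S) (B.bc S)) (P : Bim B C) (n : N.M)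
    (p : P.M) : PsiTb_β N P (PsiTb_to N n) p =
      PsiTb_to (tb N (Bim.up S P)) (tm n (Bim.upι S P p)) := rfl

private theorem PsiTb_β_bal (N : Bim ((base k).bc S) (B.bc S)) (P : Bim B C) (n : (psi N).M)
    (b : B.A) (p : P.M) : PsiTb_β N P ((psi N).r b n) p = PsiTb_β N P n (P.l b p) := by
  rw [← PsiTb_to_of N n, PsiTb_to_r, PsiTb_β_apply, PsiTb_β_apply, tm_r_l, Bim.upι_l]

/-- The map `n ⊗ p ↦ n ⊗ (1 ⊗ p)`. -/
private def PsiTb_g (N : Bim ((base k).bc S) (B.bc S)) (P : Bim B C) :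
    (tb (psi N) P).M →ₗ[k] (psi (tb N (Bim.up S P))).M :=
  tlift (PsiTb_β N P) (PsiTb_β_bal N P)

private theorem PsiTb_g_tm (N : Bim ((base k).bc S) (B.bc S)) (P : Bim B C) (n : N.M)
    (p : P.M) : PsiTb_g N P (tm (PsiTb_to N n) p) =
      PsiTb_to (tb N (Bim.up S P)) (tm n (Bim.upι S P p)) :=
  (tlift_tm (PsiTb_β N P) (PsiTb_β_bal N P) _ _).trans (PsiTb_β_apply N P n p)

private theorem PsiTb_ind {N : Bim ((base k).bc S) (B.bc S)} {P : Bim B C}
    {Q : (tb (psi N) P).M → Prop} (h0 : Q 0) (hadd : ∀ x y, Q x → Q y → Q (x + y))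
    (h : ∀ (n : N.M) (p : P.M), Q (tm (PsiTb_to N n) p))
    (x : (tb (psi N) P).M) : Q x := tb_ind h0 hadd (fun n p => h n p) x

private theorem PsiTb_l_tm (N : Bim ((base k).bc S) (B.bc S)) (P : Bim B C) (s : S) (n : N.M)
    (p : P.M) : (tb (psi N) P).l s (tm (PsiTb_to N n) p) = tm (PsiTb_to N (s • n)) p :=
  tb_l (M := psi N) (N := P) s (PsiTb_to N n) p

private theorem PsiTb_smul_tm (N : Bim ((base k).bc S) (B.bc S)) (P : Bim B C) (s : S) (n : N.M)
    (p : P.M) : s • TS.to (tb (psi N) P) (tm (PsiTb_to N n) p) =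
      TS.to (tb (psi N) P) (tm (PsiTb_to N (s • n)) p) := PsiTb_l_tm N P s n p

/-- The graded map. -/
private def PsiTb_φ (N : Bim ((base k).bc S) (B.bc S)) (P : Bim B C) :
    GMap 0 (tb (psi N) P) (psi (tb N (Bim.up S P))) where
  f := PsiTb_g N P
  deg := fun {i x} hx => tb_degMap (M := psi N) (N := P) (Z := (psi (tb N (Bim.up S P))).dg)
    (PsiTb_g N P) (fun {i j v w} hv hw => by
      rw [← PsiTb_to_of N v, PsiTb_g_tm, PsiTb_to_deg, add_zero]
      exact tb_deg (PsiTb_to_deg N |>.1 hv) (PsiTb_upι_deg P hw)) hx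
  map_l := fun (s : S) x => by
    rw [ring_sp]
    refine PsiTb_ind (Q := fun x => PsiTb_g N P ((tb (psi N) P).l s x) =
      (psi (tb N (Bim.up S P))).l s (PsiTb_g N P x)) ?_ ?_ ?_ x
    · simp only [map_zero]
    · intro x y hx hy
      simp only [map_add, hx, hy]
    · intro n p
      rw [PsiTb_l_tm, PsiTb_g_tm, PsiTb_g_tm, PsiTb_to_l, tm_smul_left]
  map_r := fun c x => by
    refine PsiTb_ind (Q := fun x => PsiTb_g N P ((tb (psi N) P).r c x) =
      (psi (tb N (Bim.up S P))).r c (PsiTb_g N P x)) ?_ ?_ ?_ x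
    · simp only [map_zero]
    · intro x y hx hy
      simp only [map_add, hx, hy]
    · intro n p
      rw [PsiTb_g_tm, PsiTb_to_r, tb_r, tb_r, PsiTb_g_tm, Bim.upι_r]

private theorem PsiTb_φ_d (N : Bim ((base k).bc S) (B.bc S)) (P : Bim B C) :
    (PsiTb_φ N P).dd = 0 := by
  refine LinearMap.ext (fun x => ?_)
  rw [GMap.dd_apply, LinearMap.zero_apply, sg_zero, one_smul, sub_eq_zero]
  refine PsiTb_ind (Q := fun x => (psi (tb N (Bim.up S P))).dg.d (PsiTb_g N P x) =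
    PsiTb_g N P ((tb (psi N) P).dg.d x)) ?_ ?_ ?_ x
  · simp only [map_zero]
  · intro x y hx hy
    simp only [map_add, hx, hy]
  · intro n p
    rw [tb_d, map_add, PsiTb_to_s, PsiTb_to_d, PsiTb_g_tm, PsiTb_g_tm, PsiTb_g_tm, PsiTb_to_d,
      tb_d, PsiTb_upι_d, map_add]

/-- The map `s ⊗ p ↦ s n ⊗ p`. -/
private def PsiTb_γ₁ (N : Bim ((base k).bc S) (B.bc S)) (P : Bim B C) (n : N.M) :
    (Bim.up S P).M →ₗ[S] TS (tb (psi N) P) :=
  Bim.lift (M := res (selfIso B).hom (selfIso C).hom P) (Algebra.ofId k S)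
    ((TS.to (tb (psi N) P)).comp (tmB (psi N) P (PsiTb_to N n)).toAddMonoidHom)
    (fun (c : k) (p : P.M) => by
      refine Eq.trans ?_ (PsiTb_smul_tm N P (algebraMap k S c) n p).symm
      have h2 : (tm (PsiTb_to N n) (c • p) : (tb (psi N) P).M) =
          tm (PsiTb_to N (algebraMap k S c • n)) p := by
        rw [tm_smul_right, PsiTb_to_smul, tm_smul_left]
      exact h2)

private theorem PsiTb_γ₁_ι (N : Bim ((base k).bc S) (B.bc S)) (P : Bim B C) (n : N.M) (p : P.M) :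
    PsiTb_γ₁ N P n (Bim.upι S P p) = TS.to (tb (psi N) P) (tm (PsiTb_to N n) p) :=
  Bim.lift_ι (f := Algebra.ofId k S) (M := res (selfIso B).hom (selfIso C).hom P) _ _ p

private theorem PsiTb_upι_ext (P : Bim B C) {Q : Type u} [AddCommGroup Q] [Module S Q]
    {φ ψ : (Bim.up S P).M →ₗ[S] Q} (h : ∀ p, φ (Bim.upι S P p) = ψ (Bim.upι S P p)) : φ = ψ :=
  Bim.ι_ext (f := Algebra.ofId k S) (M := res (selfIso B).hom (selfIso C).hom P) h

/-- The bilinear map `(n, s ⊗ p) ↦ s n ⊗ p`. -/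
private def PsiTb_γ (N : Bim ((base k).bc S) (B.bc S)) (P : Bim B C) :
    N.M →ₗ[S] (Bim.up S P).M →ₗ[S] TS (tb (psi N) P) where
  toFun := PsiTb_γ₁ N P
  map_add' := fun n n' => PsiTb_upι_ext P (fun p => by
    rw [LinearMap.add_apply, PsiTb_γ₁_ι, PsiTb_γ₁_ι, PsiTb_γ₁_ι, map_add, tm_add_left, map_add])
  map_smul' := fun s n => PsiTb_upι_ext P (fun p => by
    rw [RingHom.id_apply, LinearMap.smul_apply, PsiTb_γ₁_ι, PsiTb_γ₁_ι, PsiTb_smul_tm])

private theorem PsiTb_γ_ι (N : Bim ((base k).bc S) (B.bc S)) (P : Bim B C) (n : N.M) (p : P.M) :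
    PsiTb_γ N P n (Bim.upι S P p) = TS.to (tb (psi N) P) (tm (PsiTb_to N n) p) :=
  PsiTb_γ₁_ι N P n p

private theorem PsiTb_γ_bal (N : Bim ((base k).bc S) (B.bc S)) (P : Bim B C) (n : N.M)
    (b : (B.bc S).A) (y : (Bim.up S P).M) :
    PsiTb_γ N P (N.r b n) y = PsiTb_γ N P n ((Bim.up S P).l b y) := by
  refine DGA.ι_ind (P := fun b => PsiTb_γ N P (N.r b n) y =
    PsiTb_γ N P n ((Bim.up S P).l b y)) ?_ ?_ ?_ b
  · simp only [map_zero, LinearMap.zero_apply]
  · intro x y hx hy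
    simp only [map_add, LinearMap.add_apply, hx, hy]
  · intro s b
    simp only [map_smul, LinearMap.smul_apply]
    congr 1
    refine PsiTb_upι_ind P (Q := fun y => PsiTb_γ N P (N.r (B.ι S b) n) y =
      PsiTb_γ N P n ((Bim.up S P).l (B.ι S b) y)) ?_ ?_ ?_ y
    · simp only [map_zero]
    · intro x y hx hy
      simp only [map_add, hx, hy]
    · intro s p
      simp only [map_smul]
      congr 1
      rw [Bim.upι_l, PsiTb_γ_ι, PsiTb_γ_ι, ← PsiTb_to_r, tm_r_l]

/-- The inverse. -/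
private def PsiTb_G (N : Bim ((base k).bc S) (B.bc S)) (P : Bim B C) :
    (tb N (Bim.up S P)).M →ₗ[S] TS (tb (psi N) P) :=
  tlift (PsiTb_γ N P) (PsiTb_γ_bal N P)

private theorem PsiTb_G_tm (N : Bim ((base k).bc S) (B.bc S)) (P : Bim B C) (n : N.M)
    (y : (Bim.up S P).M) : PsiTb_G N P (tm n y) = PsiTb_γ N P n y :=
  tlift_tm (PsiTb_γ N P) (PsiTb_γ_bal N P) n y

private theorem PsiTb_G_g (N : Bim ((base k).bc S) (B.bc S)) (P : Bim B C)
    (x : (tb (psi N) P).M) :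
    PsiTb_G N P (PsiTb_of _ (PsiTb_g N P x)) = TS.to (tb (psi N) P) x := by
  refine PsiTb_ind (Q := fun x => PsiTb_G N P (PsiTb_of _ (PsiTb_g N P x)) =
    TS.to (tb (psi N) P) x) ?_ ?_ ?_ x
  · rw [map_zero, map_zero, map_zero, map_zero]
  · intro x y hx hy
    rw [map_add, map_add, map_add, map_add, hx, hy]
  · intro n p
    rw [PsiTb_g_tm, PsiTb_of_to, PsiTb_G_tm, PsiTb_γ_ι]

private theorem PsiTb_g_G (N : Bim ((base k).bc S) (B.bc S)) (P : Bim B C)
    (y : (tb N (Bim.up S P)).M) :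
    PsiTb_g N P (TS.of (tb (psi N) P) (PsiTb_G N P y)) = PsiTb_to _ y := by
  refine tb_ind (P := fun y => PsiTb_g N P (TS.of (tb (psi N) P) (PsiTb_G N P y)) =
    PsiTb_to _ y) ?_ ?_ ?_ y
  · rw [map_zero, map_zero, map_zero, map_zero]
  · intro x y hx hy
    rw [map_add, map_add, map_add, map_add, hx, hy]
  · intro n y
    refine PsiTb_upι_ind P (Q := fun y => PsiTb_g N P (TS.of (tb (psi N) P)
      (PsiTb_G N P (tm n y))) = PsiTb_to _ (tm n y)) ?_ ?_ ?_ y
    · rw [tm_zero_right, map_zero, map_zero, map_zero, map_zero]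
    · intro x y hx hy
      rw [tm_add_right, map_add, map_add, map_add, map_add, hx, hy]
    · intro s p
      rw [PsiTb_G_tm, map_smul, PsiTb_γ_ι, PsiTb_smul_tm, tm_smul_right, ← tm_smul_left]
      exact PsiTb_g_tm N P (s • n) p

/-- `N ⊗_{B_S} P_S = N ⊗_B P` as `S`-`C`-bimodules over `k`.

Proof: the map `tb (psi N) P → psi (tb N (Bim.up S P))`, `tm n p ↦ tm n (Bim.upι S P p)` (`tlift`,
balanced by `Bim.upι_l`). Inverse: by `Bim.lift` and `tlift` over `S` with values in the `S`-module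
`TS (tb (psi N) P)` (`theta`; `s • tm n p = tm (s • n) p` by `tb_l`). The model is
`BC/BcTb.lean`. -/
theorem psi_tb (N : Bim ((base k).bc S) (B.bc S)) (P : Bim B C) :
    BIso (psi (tb N (Bim.up S P))) (tb (psi N) P) :=
  (BIso.of_bij (PsiTb_φ N P) (PsiTb_φ_d N P) (Function.bijective_iff_has_inverse.2
    ⟨fun y => TS.of (tb (psi N) P) (PsiTb_G N P (PsiTb_of _ y)),
      fun x => PsiTb_G_g N P x, fun y => PsiTb_g_G N P y⟩)).symm

end Pool.Agent.MP_6e5bed_ag_UD
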