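import Pool.Agent.Lib.MP_6e5bed_ag_UD.PsiFree
import Pool.Agent.Lib.MP_6e5bed_ag_UD.PsiTb
import Pool.Agent.Lib.MP_6e5bed_ag_NC.KComp
import Pool.Agent.Lib.MP_6e5bed_ag_NC.KBoxB

set_option autoImplicit false
set_option linter.unusedVariables false

/-!
# MP_6e5bed_ag, universal domains: Grothendieck groups of dg modules over `S ⊗ B`
-/

noncomputable section

namespace Pool.Agent.MP_6e5bed_ag_UD

open Pool.Agent.MP_6e5bed_ag_NC

universe u

variable {k : Type u} [CommRing k] (S : Type u) [CommRing S] [Algebra k S] {B C : DGA k}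

/-- A class, extended to `S`. -/
def up (y : K0Q B C) : K0Q (B.bc S) (C.bc S) :=
  K0Q.cf (Algebra.ofId k S) (K0Q.res (selfIso B) (selfIso C) y)

variable (k B) in
/-- `[X] ↦ [psi X]` -/
def psiK : K0Q ((base k).bc S) (B.bc S) →ₗ[ℚ] K0Q (ring k S) B :=
  (psiF k S B).k0 ((psi_free k S B).symm.perf Perf.free)

theorem psiK_cls {X : Bim ((base k).bc S) (B.bc S)} (h : Perf X) :
    psiK k S B (cls X h) = cls (psi X)
      ((psiF k S B).perf ((psi_free k S B).symm.perf Perf.free) h) :=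
  DGFun.k0_cls _ _ h

variable (k B) in
/-- `[M] ↦ [theta M]` -/
def thetaK : K0Q (ring k S) B →ₗ[ℚ] K0Q ((base k).bc S) (B.bc S) :=
  (thetaF k S B).k0 ((theta_free k S B).symm.perf Perf.free)

theorem thetaK_psiK (x : K0Q ((base k).bc S) (B.bc S)) : thetaK k S B (psiK k S B x) = x := by
  have h : (thetaK k S B).comp (psiK k S B) = LinearMap.id := K0Q.hom_ext (fun M hM => by
    rw [LinearMap.comp_apply, psiK_cls, LinearMap.id_apply]
    exact (DGFun.k0_cls _ _ _).trans (K0Q.cls_iso (theta_psi M) _ _))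
  exact LinearMap.congr_fun h x

theorem psiK_thetaK (x : K0Q (ring k S) B) : psiK k S B (thetaK k S B x) = x := by
  have h : (psiK k S B).comp (thetaK k S B) = LinearMap.id := K0Q.hom_ext (fun M hM => by
    rw [LinearMap.comp_apply, LinearMap.id_apply]
    have h1 : thetaK k S B (cls M hM) = cls (theta M)
        ((thetaF k S B).perf ((theta_free k S B).symm.perf Perf.free) hM) := DGFun.k0_cls _ _ hM
    rw [h1, psiK_cls]
    exact K0Q.cls_iso (psi_theta M) _ _)
  exact LinearMap.congr_fun h x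

theorem psiK_bij : Function.Bijective (psiK k S B) :=
  Function.bijective_iff_has_inverse.2 ⟨thetaK k S B, thetaK_psiK S, psiK_thetaK S⟩

/-- `up` as a linear map. -/
private def psiKUp : K0Q B C →ₗ[ℚ] K0Q (B.bc S) (C.bc S) :=
  (K0Q.cf (Algebra.ofId k S)).comp (K0Q.res (selfIso B) (selfIso C))

private theorem psiKUp_perf {P : Bim B C} (h : Perf P) : Perf (Bim.up S P) :=
  (K0Q.res_perf (selfIso B) (selfIso C) h).cf

private theorem psiKUp_cls {P : Bim B C} (h : Perf P) :
    psiKUp S (cls P h) = cls (Bim.up S P) (psiKUp_perf S h) := by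
  rw [psiKUp, LinearMap.comp_apply, K0Q.res_cls, K0Q.cf_cls]
  rfl

/-- `psi_tb` on classes (bilinear extension as in `WW/LS.lean`, `lsExt_comp`, or `K0Q.ind₂`). -/
theorem psiK_comp (hB : Proper B) (v : K0Q ((base k).bc S) (B.bc S)) (y : K0Q B C) :
    psiK k S C (K0Q.comp (hB.bc S) v (up S y)) = K0Q.comp hB (psiK k S B v) y := by
  let β : K0Q ((base k).bc S) (B.bc S) →ₗ[ℚ] K0Q (B.bc S) (C.bc S) →ₗ[ℚ]
    K0Q ((base k).bc S) (C.bc S) := K0Q.comp (hB.bc S)
  let γ : K0Q (ring k S) B →ₗ[ℚ] K0Q B C →ₗ[ℚ] K0Q (ring k S) C := K0Q.comp hB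
  have h : (β.compl₂ (psiKUp (k := k) (B := B) (C := C) S)).compr₂ (psiK k S C) =
      γ.comp (psiK k S B) := by
    refine K0Q.hom_ext (fun M hM => K0Q.hom_ext (fun N hN => ?_))
    rw [LinearMap.compr₂_apply, LinearMap.compl₂_apply, LinearMap.comp_apply, psiK_cls,
      psiKUp_cls S hN]
    change psiK k S C (K0Q.comp (hB.bc S) (cls M hM) (cls (Bim.up S N) (psiKUp_perf S hN))) =
      K0Q.comp hB (cls (psi M) _) (cls N hN)
    rw [K0Q.comp_cls, psiK_cls, K0Q.comp_cls]
    exact K0Q.cls_iso (psi_tb M N) _ _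
  exact LinearMap.congr_fun₂ h v y

/-- `up` commutes with base change -/
theorem cf_up {T : Type u} [CommRing T] [Algebra k T] (f : S →ₐ[k] T) (y : K0Q B C) :
    K0Q.cf f (up S y) = up T y :=
  K0Q.cf_cf' (Algebra.ofId k S) f (Algebra.ofId k T) (fun r => f.commutes r) _

end Pool.Agent.MP_6e5bed_ag_UD
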