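import Pool.Agent.Lib.MP_6e5bed_ag_UD.JB

set_option autoImplicit false
set_option linter.unusedVariables false

/-!
# MP_6e5bed_ag, universal domains: the transfer for a finite extension of fields over `k`
-/

noncomputable section

namespace Pool.Agent.MP_6e5bed_ag_UD

open Pool.Agent.MP_6e5bed_ag_NC Pool.Agent.MP_6e5bed_ag_WW

attribute [local instance] Alg.iR Alg.iA Cf.iG Cf.iM Rs.iG Rs.iM

universe u

section tr

variable {k L L' : Type u} [Field k] [Field L] [Field L'] [Algebra k L] [Algebra k L']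
  {A B C : DGA k}

private theorem tr_fin (f : L →ₐ[k] L') (hf : f.toRingHom.Finite) :
    FiniteDimensional L (Rs f.toRingHom L') := by
  let _ : Algebra L L' := f.toRingHom.toAlgebra
  have h : Module.Finite L L' := hf
  let e : L' ≃ₗ[L] Rs f.toRingHom L' :=
    { toFun := fun x => x
      invFun := fun x => x
      map_add' := fun _ _ => rfl
      map_smul' := fun c x => by
        rw [Algebra.smul_def]
        rfl
      left_inv := fun _ => rfl
      right_inv := fun _ => rfl }
  exact Module.Finite.equiv e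

private theorem tr_pos (f : L →ₐ[k] L') (hf : f.toRingHom.Finite) :
    0 < Module.finrank L (Rs f.toRingHom L') := by
  have := tr_fin f hf
  have : Nontrivial (Rs f.toRingHom L') := inferInstanceAs (Nontrivial L')
  exact Module.finrank_pos

private theorem tr_perf (f : L →ₐ[k] L') (hf : f.toRingHom.Finite)
    {M : Bim (A.bc L') (B.bc L')} (h : Perf M) : Perf (M.rs f) := by
  have := tr_fin f hf
  refine (rsF f A B).perf ?_ h
  exact (rs_free f).symm.perf (Perf.qt _ Perf.free)

/-- The transfer. -/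
private def trK (f : L →ₐ[k] L') (hf : f.toRingHom.Finite) :
    K0Q (A.bc L') (B.bc L') →ₗ[ℚ] K0Q (A.bc L) (B.bc L) :=
  (rsF f A B).k0 (tr_perf f hf Perf.free)

private theorem trK_cls (f : L →ₐ[k] L') (hf : f.toRingHom.Finite)
    {M : Bim (A.bc L') (B.bc L')} (h : Perf M) :
    trK f hf (cls M h) = cls (M.rs f) (tr_perf f hf h) := DGFun.k0_cls _ _ h

private theorem trK_cf (f : L →ₐ[k] L') (hf : f.toRingHom.Finite)
    (x : K0Q (A.bc L) (B.bc L)) :
    trK f hf (K0Q.cf f x) = (Module.finrank L (Rs f.toRingHom L') : ℚ) • x := by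
  have := tr_fin f hf
  have h : (trK (A := A) (B := B) f hf).comp (K0Q.cf f) =
      (Module.finrank L (Rs f.toRingHom L') : ℚ) •
        (LinearMap.id : K0Q (A.bc L) (B.bc L) →ₗ[ℚ] _) :=
    K0Q.hom_ext (fun M hM => by
      rw [LinearMap.comp_apply, K0Q.cf_cls, trK_cls, LinearMap.smul_apply,
        LinearMap.id_apply, ← K0Q.cls_qt (Rs f.toRingHom L') hM (Perf.qt _ hM)]
      exact K0Q.cls_iso (rs_cf f M) _ _)
  exact LinearMap.congr_fun h x

/-- The projection formula for classes. -/
private theorem trK_comp (f : L →ₐ[k] L') (hf : f.toRingHom.Finite) (hB : Proper (B.bc L))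
    (hB' : Proper (B.bc L')) (x : K0Q (A.bc L') (B.bc L')) (z : K0Q (B.bc L) (C.bc L)) :
    trK f hf (K0Q.comp hB' x (K0Q.cf f z)) = K0Q.comp hB (trK f hf x) z := by
  have h : ((K0Q.comp (A := A.bc L') (C := C.bc L') hB').compl₂ (K0Q.cf f)).compr₂
      (trK f hf) = (K0Q.comp (A := A.bc L) (C := C.bc L) hB).comp (trK f hf) := by
    refine K0Q.hom_ext (fun M hM => K0Q.hom_ext (fun N hN => ?_))
    rw [LinearMap.compr₂_apply, LinearMap.compl₂_apply, LinearMap.comp_apply, K0Q.cf_cls,
      K0Q.comp_cls, trK_cls, trK_cls, K0Q.comp_cls]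
    exact K0Q.cls_iso (rs_tb f M N) _ _
  exact LinearMap.congr_fun₂ h x z

end tr

variable {k : Type u} [Field k] {T : DGA k} {ι : Type (u + 1)} {T' : ι → DGA k}
  (hp' : ∀ a, Proper (T' a)) (y : ∀ a, K0Q (T' a) T)

/-- A class over the field `L` which factors through the `y a` after a finite extension `L'` of `L`
factors through the `y a`: apply the transfer `(rsF f A B).k0` (`BC/Transfer.lean` with a general
`f : L →ₐ[k] L'` instead of `Algebra.ofId k L`: `rs_free`, `rs_cf`, `Perf.qt`, `K0Q.cls_qt` over the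
field `L`), the projection formula `rs_tb` and `up L' (y a) = cf f (up L (y a))` (`cf_up`), and divide
by the degree. -/
theorem mem_JB_of_finite {L L' : Type u} [Field L] [Field L'] [Algebra k L] [Algebra k L']
    (f : L →ₐ[k] L') (hf : f.toRingHom.Finite) (x : K0Q ((base k).bc L) (T.bc L))
    (hx : K0Q.cf f x ∈ JB hp' y L') : x ∈ JB hp' y L := by
  obtain ⟨s, v, hv⟩ := (mem_JB_iff hp' y _).1 hx
  have h1 := congrArg (trK f hf) hv
  rw [trK_cf, map_sum] at h1
  have h2 : ∀ a, trK f hf (K0Q.comp ((hp' a).bc L') (v a) (up L' (y a))) =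
      K0Q.comp ((hp' a).bc L) (trK f hf (v a)) (up L (y a)) := by
    intro a
    rw [← cf_up L f (y a)]
    exact trK_comp f hf ((hp' a).bc L) ((hp' a).bc L') (v a) (up L (y a))
  have h3 : (Module.finrank L (Rs f.toRingHom L') : ℚ) ≠ 0 :=
    Nat.cast_ne_zero.2 (tr_pos f hf).ne'
  have h4 : (Module.finrank L (Rs f.toRingHom L') : ℚ) • x ∈ JB hp' y L := by
    rw [← h1]
    refine Submodule.sum_mem _ (fun a _ => ?_)
    rw [h2]
    exact mem_JB hp' y a _
  have h5 := Submodule.smul_mem _ ((Module.finrank L (Rs f.toRingHom L') : ℚ)⁻¹) h4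
  rwa [smul_smul, inv_mul_cancel₀ h3, one_smul] at h5

end Pool.Agent.MP_6e5bed_ag_UD
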