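import Pool.Agent.Lib.MP_6e5bed_ag_WW.WDef

set_option autoImplicit false

/-!
# Universal domains (MP_6e5bed_ag)
-/

namespace Pool.Agent.MP_6e5bed_ag_Pn

open MulOpposite Pool.Agent.MP_6e5bed_ag_SP

universe u

section

variable {k : Type u} [Field k]

/-- The vector space `K_0(X_L)_ℚ` is finite dimensional. -/
def UFin (L : Type u) [Field L] [Algebra k L] {B : Type u} [Ring B] [Algebra k B]
    (X : DG k B) : Prop :=
  ∀ (E : DG k L), E.gr 0 = ⊤ → ∀ (V : Type (u + 1)) [AddCommGroup V] [Module ℚ V]
    (φ : ∀ {M : Type u} [AddCommGroup M] [Module k M] [Module L M] [Module Bᵐᵒᵖ M] (Z : Bm E X M),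
      Perf Z → V), IsK0 E X (fun Z h => φ Z h) → Module.Finite ℚ V

end

/-- The field `Ω` over `k` is algebraically closed and contains, for every `m`, `m` elements which are
algebraically independent over `k`; if `p` holds, it is sufficient that they are algebraically
independent over the prime field. -/
def UDom (p : Prop) (k Ω : Type u) [Field k] [Field Ω] [Algebra k Ω] : Prop :=
  IsAlgClosed Ω ∧ ((∀ m : ℕ, ∃ t : Fin m → Ω, AlgebraicIndependent k t) ∨
    p ∧ ∀ m : ℕ, ∃ t : Fin m → Ω, AlgebraicIndependent (⊥ : Subfield Ω) t)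

end Pool.Agent.MP_6e5bed_ag_Pn
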