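import Pool.Agent.Lib.MP_6e5bed_ag_UD.NDef
import Pool.Agent.Lib.MP_6e5bed_ag_UD.Nil
import Pool.Agent.Lib.MP_6e5bed_ag_WW.WRep

set_option autoImplicit false
set_option linter.unusedVariables false

/-!
# MP_6e5bed_ag, universal domains: `UNil` and `UFin` in terms of classes of the tower
-/

noncomputable section

namespace Pool.Agent.MP_6e5bed_ag_UD

open CategoryTheory MonoidalCategory MulOpposite Pool.Agent.MP_6e5bed_ag_NC
  Pool.Agent.MP_6e5bed_ag_WW
open Pool.Agent.MP_6e5bed_ag_Pn (IsAct UNil UFin)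
open Pool.Agent.MP_6e5bed_ag_SP (Cx DG Bm Rep RepB SmPr NCMot IsK0 exists_isTb IsRes IsTb isK0_cls)

universe u

variable {k : Type u} [Field k] {B : Type u} [Ring B] [Algebra k B] {X : DG k B} {B' : DGA k}

section

variable {C : Type (u + 1)} [Category.{u + 1} C] [MonoidalCategory C]
  [SymmetricCategory C] [Preadditive C] [MonoidalPreadditive C] [Linear ℚ C] (H : NCMot k C)
  (hX : SmPr X) (s : Rep X B')

/-- The nilpotence in terms of the classes of the tower. -/
theorem uNil_iff {f : H.U X hX ⟶ H.U X hX} {y : K0Q B' B'} (hp : Proper B')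
    (hf : ghom H hX hX s s y = f) (L : Type u) [Field L] [Algebra k L] :
    UNil H.toNCData L hX f ↔ ∀ x : K0Q (ring k L) B', x ∈ NU hp y (ring k L) := by
  subst hf
  constructor
  · intro h x
    obtain ⟨E, hE⟩ := exists_dgL k L
    obtain ⟨F, hF, hF'⟩ := exists_act H hX hX s s (repL E hE) hp
    obtain ⟨m, hm⟩ := h E hE _ (fun Z h => cls (Z.toBim (repL E hE) s)
      (h.to (Z.toRepB (repL E hE) s))) F (isK0_cls (repL E hE) s) hF x
    have h2 : F (ghom H hX hX s s y) = act hp y (ring k L) := LinearMap.ext fun z => hF' y z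
    rw [h2] at hm
    exact mem_NU.2 ⟨m, hm⟩
  · intro h1 E hE V _ _ φ F hφ hF v
    have h2 : ∀ v, F (ghom H hX hX s s y) (IsK0.equiv (φ := fun Z h => φ Z h) hφ
        (repL E hE) s v) = IsK0.equiv (φ := fun Z h => φ Z h) hφ (repL E hE) s
          (act hp y (ring k L) v) := fun v => act_comp H hX hX s s (repL E hE) hφ hφ hF hp v y
    have h3 : ∀ (m : ℕ) v, (F (ghom H hX hX s s y) ^ m) (IsK0.equiv (φ := fun Z h => φ Z h) hφ
        (repL E hE) s v) = IsK0.equiv (φ := fun Z h => φ Z h) hφ (repL E hE) s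
          ((act hp y (ring k L) ^ m) v) := by
      intro m v
      induction m with
      | zero => rfl
      | succ m ih =>
        rw [pow_succ', pow_succ', Module.End.mul_apply, Module.End.mul_apply, ih, h2]
    obtain ⟨m, hm⟩ := mem_NU.1 (h1 ((IsK0.equiv (φ := fun Z h => φ Z h) hφ
      (repL E hE) s).symm v))
    refine ⟨m, ?_⟩
    have h4 := h3 m ((IsK0.equiv (φ := fun Z h => φ Z h) hφ (repL E hE) s).symm v)
    rwa [LinearEquiv.apply_symm_apply, hm, map_zero] at h4

end

/-- The finiteness in terms of the classes of the tower. -/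
theorem uFin_iff (s : Rep X B') (L : Type u) [Field L] [Algebra k L] :
    UFin L X ↔ Module.Finite ℚ (K0Q (ring k L) B') := by
  constructor
  · intro h
    obtain ⟨E, hE⟩ := exists_dgL k L
    exact h E hE _ (fun Z h => cls (Z.toBim (repL E hE) s)
      (h.to (Z.toRepB (repL E hE) s))) (isK0_cls (repL E hE) s)
  · intro h E hE V _ _ φ hφ
    exact Module.Finite.equiv (IsK0.equiv (φ := fun Z h => φ Z h) hφ (repL E hE) s)

end Pool.Agent.MP_6e5bed_ag_UD
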