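import Pool.Agent.Lib.MP_6e5bed_ag_UD.NilAbs
import Pool.Agent.Lib.MP_6e5bed_ag_UD.URep

set_option autoImplicit false
set_option linter.unusedVariables false
set_option linter.unusedSectionVars false

/-!
# MP_6e5bed_ag, universal domains: the final theorems
-/

noncomputable section

namespace Pool.Agent.MP_6e5bed_ag_UD

open CategoryTheory MonoidalCategory MvPolynomial Pool.Agent.MP_6e5bed_ag
  Pool.Agent.MP_6e5bed_ag_Pn Pool.Agent.MP_6e5bed_ag_NC Pool.Agent.MP_6e5bed_ag_GG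
  Pool.Agent.MP_6e5bed_ag_WW
open Pool.Agent.MP_6e5bed_ag_PN hiding Ch
open Pool.Agent.MP_6e5bed_ag_SP (DG Rep RA repOf SmPr NCMot IsBc)

universe u

section core

variable {k : Type u} [Field k] {B : DGA k} {ι : Type (u + 1)} {B' : ι → DGA k}

/-- The core theorem for the fields `Ω` with `UDom`. -/
theorem core_dom (hB : CohD B) (hB' : ∀ a, CohD (B' a)) (hs : Smooth B)
    (hs' : ∀ a, Smooth (B' a)) (hp' : ∀ a, Proper (B' a)) (y : ∀ a, K0Q (B' a) B)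
    (Ω : Type u) [Field Ω] [Algebra k Ω] (hΩ : UDom (Finite ι) k Ω)
    (h : ∀ x : K0Q (ring k Ω) B, x ∈ JU (ring k Ω) hp' y) : K0Q.one hs ∈ JU B hp' y := by
  obtain ⟨hc, h1 | ⟨hf, h1⟩⟩ := hΩ
  · exact core_ud hB hB' hs hs' hp' y Ω h1 h
  · exact core_abs hB hB' hs hs' hp' y Ω h1 h

/-- The nilpotence theorem for the fields `Ω` with `UDom`. -/
theorem nil_dom (hB : CohD B) (hs : Smooth B) (hp : Proper B) (f : K0Q B B)
    (Ω : Type u) [Field Ω] [Algebra k Ω] (hΩ : UDom True k Ω)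
    (h : ∀ x : K0Q (ring k Ω) B, x ∈ NU hp f (ring k Ω)) : K0Q.one hs ∈ NU hp f B := by
  obtain ⟨hc, h1 | ⟨-, h1⟩⟩ := hΩ
  · exact nil_udC hB hs hp f Ω h1 h
  · exact nil_abs hB hs hp f Ω h1 h

theorem exists_dom (p : Prop) (k : Type u) [Field k] : ∃ (Ω : Type u) (_ : Field Ω)
    (_ : Algebra k Ω), UDom p k Ω := by
  obtain ⟨Ω, _, _, h1, h2⟩ := exists_ud k
  exact ⟨Ω, _, _, h1, Or.inl h2⟩

theorem dom_mono {p q : Prop} (hpq : p → q) {k Ω : Type u} [Field k] [Field Ω] [Algebra k Ω]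
    (h : UDom p k Ω) : UDom q k Ω := ⟨h.1, h.2.imp id fun h => ⟨hpq h.1, h.2⟩⟩

end core

variable {ν ν' : ℕ} {k : Type u} [Field k] {C : Type (u + 1)} [Category.{u + 1} C]
  [MonoidalCategory C] [SymmetricCategory C] [Preadditive C] [MonoidalPreadditive C] [Linear ℚ C]
  (H : NCMot k C)

section main

variable {Γ : Type u} [Ring Γ] [Algebra k Γ] [Algebra (MvPolynomial (Fin (ν + 1)) k) Γ]
  [IsScalarTower k (MvPolynomial (Fin (ν + 1)) k) Γ] {𝒢 : ℕ → Submodule k Γ} (h : IsGr ν 𝒢)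
  {T : Type u} [Ring T] [Algebra k T] {X : DG k T} (hX : IsRGam ν 𝒢 X) (sX : SmPr X)

include h hX

/-- The theorem for families. -/
theorem main_famU {ι : Type (u + 1)} {S : ι → Type u} [∀ a, Ring (S a)] [∀ a, Algebra k (S a)]
    {Y : ∀ a, DG k (S a)} (hY : ∀ a, CohAlg (Y a)) (sY : ∀ a, SmPr (Y a))
    (u : ∀ a, H.U (Y a) (sY a) ⟶ H.U X sX) :
    [∃ (t : Finset ι) (v : ∀ a, H.U X sX ⟶ H.U (Y a) (sY a)), ∑ a ∈ t, v a ≫ u a = 𝟙 _,
      ∀ (L : Type u) [Field L] [Algebra k L], UGen H.toNCData L sY sX u,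
      ∀ (L : Type u) [Field L] [Algebra k L], CenL ν k Γ L → UGen H.toNCData L sY sX u,
      ∃ (Ω : Type u) (_ : Field Ω) (_ : Algebra k Ω), UDom (Finite ι) k Ω ∧
        UGen H.toNCData Ω sY sX u].TFAE := by
  have h0 := main_fam H h hX sX hY sY u
  tfae_have 1 ↔ 2 := h0.out 0 1
  tfae_have 1 ↔ 3 := h0.out 0 2
  tfae_have 2 → 4 := by
    intro h2
    obtain ⟨Ω, _, _, hΩ⟩ := exists_dom (Finite ι) k
    exact ⟨Ω, _, _, hΩ, h2 Ω⟩
  tfae_have 4 → 1 := by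
    rintro ⟨Ω, _, _, hΩ, h4⟩
    obtain ⟨A, ⟨s⟩, hA⟩ := exists_rep h hX
    choose n A' hA' using fun a => exists_repA (hY a)
    have r : ∀ a, Rep (Y a) (TT (A' a)) := fun a => (hA' a).some
    have hs : Smooth (TT A) := sX.smooth s
    have hp : Proper (TT A) := sX.proper s
    have hs' : ∀ a, Smooth (TT (A' a)) := fun a => (sY a).smooth (r a)
    have hp' : ∀ a, Proper (TT (A' a)) := fun a => (sY a).proper (r a)
    have hc : CohD (TT A) := ⟨T, _, _, X, ⟨ν, Γ, _, _, _, ‹_›, 𝒢, h, hX⟩, ⟨s⟩⟩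
    have hc' : ∀ a, CohD (TT (A' a)) := fun a => ⟨S a, _, _, Y a, hY a, ⟨r a⟩⟩
    choose y hy using fun a => (ghom H (sY a) sX (r a) s).surjective (u a)
    exact (dec_iff H sX s sY r u hs hp hp' hy).2 (core_dom hc hc' hs hs' hp' y Ω hΩ
      ((uGen_iff H sX s sY r hp' hy Ω).1 h4))
  tfae_finish

/-- The criteria for Kimura-finiteness. -/
theorem main_kfU : [KimuraFinite (H.U X sX),
    ∃ (ι : Type (u + 1)) (S : ι → Type u) (_ : ∀ a, Ring (S a)) (_ : ∀ a, Algebra k (S a))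
      (Y : ∀ a, DG k (S a)) (sY : ∀ a, SmPr (Y a)) (u : ∀ a, H.U (Y a) (sY a) ⟶ H.U X sX),
      (∀ a, CohAlg (Y a)) ∧ (∀ a, KimuraFinite (H.U (Y a) (sY a))) ∧
      ∀ (L : Type u) [Field L] [Algebra k L], CenL ν k Γ L → UGen H.toNCData L sY sX u,
    ∃ (ι : Type (u + 1)) (S : ι → Type u) (_ : ∀ a, Ring (S a)) (_ : ∀ a, Algebra k (S a))
      (Y : ∀ a, DG k (S a)) (sY : ∀ a, SmPr (Y a)) (u : ∀ a, H.U (Y a) (sY a) ⟶ H.U X sX)
      (Ω : Type u) (_ : Field Ω) (_ : Algebra k Ω),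
      (∀ a, CohAlg (Y a)) ∧ (∀ a, KimuraFinite (H.U (Y a) (sY a))) ∧
      UDom (Finite ι) k Ω ∧ UGen H.toNCData Ω sY sX u].TFAE := by
  tfae_have 1 ↔ 2 := main_kf H h hX sX
  tfae_have 1 → 3 := by
    intro hK
    have hc : CohAlg X := ⟨ν, Γ, _, _, _, ‹_›, 𝒢, h, hX⟩
    obtain ⟨Ω, _, _, hΩ⟩ := exists_dom (Finite PUnit.{u + 2}) k
    have h5 : ∀ (L : Type u) [Field L] [Algebra k L], UGen H.toNCData L (Y := fun _ => X)
        (fun _ => sX) sX (fun _ : PUnit.{u + 2} => 𝟙 (H.U X sX)) := by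
      refine ((main_fam H h hX sX (fun _ => hc) (fun _ => sX) (fun _ : PUnit => 𝟙 _)).out 0 1).1 ?_
      refine ⟨{PUnit.unit}, fun _ => 𝟙 _, ?_⟩
      rw [Finset.sum_singleton, Category.comp_id]
    exact ⟨PUnit, fun _ => T, fun _ => inferInstance, fun _ => inferInstance, fun _ => X,
      fun _ => sX, fun _ => 𝟙 _, Ω, inferInstance, inferInstance, fun _ => hc, fun _ => hK, hΩ,
      h5 Ω⟩
  tfae_have 3 → 1 := by
    rintro ⟨ι, S, _, _, Y, sY, u, Ω, _, _, hY, hK, hΩ, hu⟩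
    have h5 : ∀ (L : Type u) [Field L] [Algebra k L], CenL ν k Γ L →
        UGen H.toNCData L sY sX u := by
      refine ((main_famU H h hX sX hY sY u).out 3 2).1 ?_
      exact ⟨Ω, inferInstance, inferInstance, hΩ, hu⟩
    exact main_kf_of H h hX sX hY sY u hK h5
  tfae_finish

/-- The nilpotence theorem. -/
theorem main_nil (f : End (H.U X sX)) :
    [IsNilpotent f, ∀ (L : Type u) [Field L] [Algebra k L], UNil H.toNCData L sX f,
      ∀ (L : Type u) [Field L] [Algebra k L], CenL ν k Γ L → UNil H.toNCData L sX f,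
      ∃ (Ω : Type u) (_ : Field Ω) (_ : Algebra k Ω), UDom True k Ω ∧
        UNil H.toNCData Ω sX f].TFAE := by
  obtain ⟨A, ⟨s⟩, hA⟩ := exists_rep h hX
  have hs : Smooth (TT A) := sX.smooth s
  have hp : Proper (TT A) := sX.proper s
  have hc : CohD (TT A) := ⟨T, _, _, X, ⟨ν, Γ, _, _, _, ‹_›, 𝒢, h, hX⟩, ⟨s⟩⟩
  obtain ⟨y, hy⟩ := (ghom H sX sX s s).surjective f
  have h1 : ∀ n : ℕ, ghom H sX sX s s ((act hp y (TT A) ^ n) (K0Q.one hs)) = f ^ n := by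
    intro n
    induction n with
    | zero => exact ghom_one H sX s hs hp
    | succ n ih =>
      rw [pow_succ', Module.End.mul_apply, pow_succ']
      refine Eq.trans (ghom_comp H sX sX sX s s s hp _ y) ?_
      rw [ih, hy]
      rfl
  have h2 : IsNilpotent f ↔ K0Q.one hs ∈ NU hp y (TT A) := by
    rw [mem_NU]
    refine exists_congr fun n => ?_
    rw [← h1 n]
    exact (ghom H sX sX s s).map_eq_zero_iff
  have h3 := fun (L : Type u) [Field L] [Algebra k L] => uNil_iff H sX s hp hy L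
  tfae_have 1 → 2 := by
    intro h4 L _ _
    obtain ⟨n, hn⟩ := mem_NU.1 (h2.1 h4)
    refine (h3 L).2 fun x => mem_NU.2 ⟨n, ?_⟩
    rw [← act_pow_one hs hp y x n, hn, map_zero]
  tfae_have 2 → 3 := fun h4 L _ _ _ => h4 L
  tfae_have 3 → 1 := by
    intro h4
    refine h2.2 (nil_C A hs hp y fun m g => ?_)
    exact cen_hyp (P := fun L _ _ => ∀ x : K0Q (ring k L) (TT A), x ∈ NU hp y (ring k L)) hA
      (fun L _ _ hL => (h3 L).1 (h4 L hL)) g
  tfae_have 2 → 4 := by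
    intro h4
    obtain ⟨Ω, _, _, hΩ⟩ := exists_dom True k
    exact ⟨Ω, _, _, hΩ, h4 Ω⟩
  tfae_have 4 → 1 := by
    rintro ⟨Ω, _, _, hΩ, h4⟩
    exact h2.2 (nil_dom hc hs hp y Ω hΩ ((h3 Ω).1 h4))
  tfae_finish

end main

section iso

variable {Γ Γ' : Type u} [Ring Γ] [Algebra k Γ] [Algebra (MvPolynomial (Fin (ν + 1)) k) Γ]
  [IsScalarTower k (MvPolynomial (Fin (ν + 1)) k) Γ]
  [Ring Γ'] [Algebra k Γ'] [Algebra (MvPolynomial (Fin (ν' + 1)) k) Γ']
  [IsScalarTower k (MvPolynomial (Fin (ν' + 1)) k) Γ'] {𝒢 : ℕ → Submodule k Γ}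
  {𝒢' : ℕ → Submodule k Γ'}

/-- The criteria for isomorphisms. -/
theorem main_isoU (h : IsGr ν 𝒢) (h' : IsGr ν' 𝒢') {T T' : Type u} [Ring T]
    [Algebra k T] [Ring T'] [Algebra k T'] {X : DG k T} {Y : DG k T'} (hX : IsRGam ν 𝒢 X)
    (hY : IsRGam ν' 𝒢' Y) (sX : SmPr X) (sY : SmPr Y) (u : H.U Y sY ⟶ H.U X sX) :
    [IsIso u, ∀ (L : Type u) [Field L] [Algebra k L], UBij H.toNCData L sY sX u,
      ∀ (L : Type u) [Field L] [Algebra k L], CenL ν k Γ L ∨ CenL ν' k Γ' L →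
        UBij H.toNCData L sY sX u,
      ∃ (Ω : Type u) (_ : Field Ω) (_ : Algebra k Ω), UDom True k Ω ∧
        UBij H.toNCData Ω sY sX u].TFAE := by
  have h0 := main_iso H h h' hX hY sX sY u
  obtain ⟨A, ⟨s⟩, hA⟩ := exists_rep h hX
  obtain ⟨A', ⟨r⟩, hA'⟩ := exists_rep h' hY
  have hs : Smooth (TT A) := sX.smooth s
  have hp : Proper (TT A) := sX.proper s
  have hs' : Smooth (TT A') := sY.smooth r
  have hp' : Proper (TT A') := sY.proper r
  have hc : CohD (TT A) := ⟨T, _, _, X, ⟨ν, Γ, _, _, _, ‹_›, 𝒢, h, hX⟩, ⟨s⟩⟩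
  have hc' : CohD (TT A') := ⟨T', _, _, Y, ⟨ν', Γ', _, _, _, ‹_›, 𝒢', h', hY⟩, ⟨r⟩⟩
  obtain ⟨y, hy⟩ := (ghom H sY sX r s).surjective u
  have key : ∀ v : K0Q (TT A) (TT A'), ghom H sX sY s r v ≫ u = 𝟙 _ ↔
      K0Q.comp hp' v y = K0Q.one hs := by
    intro v
    rw [← hy, ← ghom_comp H sX sY sX s r s hp', ← ghom_one H sX s hs hp]
    exact (ghom H sX sX s s).injective.eq_iff
  have key' : ∀ v : K0Q (TT A) (TT A'), u ≫ ghom H sX sY s r v = 𝟙 _ ↔
      K0Q.comp hp y v = K0Q.one hs' := by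
    intro v
    rw [← hy, ← ghom_comp H sY sX sY r s r hp, ← ghom_one H sY r hs' hp']
    exact (ghom H sY sY r r).injective.eq_iff
  have h2 := fun (L : Type u) [Field L] [Algebra k L] =>
    uBij_iff (y := y) H sY sX r s hp' hy L
  tfae_have 1 → 2 := by
    rintro ⟨⟨v, hv1, hv2⟩⟩ L _ _
    obtain ⟨v, rfl⟩ := (ghom H sX sY s r).surjective v
    rw [h2]
    refine Function.bijective_iff_has_inverse.2 ⟨fun x => K0Q.comp hp x v, fun z => ?_,
      fun x => ?_⟩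
    · change K0Q.comp hp (K0Q.comp hp' z y) v = z
      rw [K0Q.comp_assoc, (key' v).1 hv1, K0Q.comp_one hs' hp']
    · change K0Q.comp hp' (K0Q.comp hp x v) y = x
      rw [K0Q.comp_assoc, (key v).1 hv2, K0Q.comp_one hs hp]
  tfae_have 2 → 3 := fun h3 L _ _ _ => h3 L
  tfae_have 3 → 1 := h0.2
  tfae_have 2 → 4 := by
    intro h4
    obtain ⟨Ω, _, _, hΩ⟩ := exists_dom True k
    exact ⟨Ω, _, _, hΩ, h4 Ω⟩
  tfae_have 4 → 1 := by
    rintro ⟨Ω, _, _, hΩ, h4⟩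
    rw [h2] at h4
    have one : ∀ {B B' : DGA k} (hB : CohD B) (hB' : CohD B') (hs : Smooth B) (_ : Smooth B')
        (hp' : Proper B') (y : K0Q B' B),
        (∀ x : K0Q (ring k Ω) B, ∃ z, K0Q.comp hp' z y = x) → ∃ v : K0Q B B',
          K0Q.comp hp' v y = K0Q.one hs := by
      intro B B' hB hB' hs hs' hp' y hy
      have h3 := core_dom (ι := PUnit.{u + 2}) (B' := fun _ => B') hB (fun _ => hB') hs
        (fun _ => hs') (fun _ => hp') (fun _ => y) Ω (dom_mono (q := Finite PUnit.{u + 2}) (fun _ => inferInstance) hΩ)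
        (fun x => by
          obtain ⟨z, rfl⟩ := hy x
          exact mem_JU (T' := fun _ : PUnit => B') (fun _ => hp') (fun _ => y) PUnit.unit z)
      obtain ⟨t, v, hv⟩ := (mem_JU_iff (T' := fun _ : PUnit => B') (fun _ => hp')
        (fun _ => y) _).1 h3
      refine ⟨∑ a ∈ t, v a, ?_⟩
      rw [map_sum, LinearMap.sum_apply]
      exact hv
    obtain ⟨v, hv⟩ := one hc hc' hs hs' hp' y fun x => h4.2 x
    obtain ⟨w, hw⟩ := one hc' hc hs' hs hp v fun x => by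
      refine ⟨K0Q.comp hp' x y, h4.1 ?_⟩
      change K0Q.comp hp' (K0Q.comp hp (K0Q.comp hp' x y) v) y = K0Q.comp hp' x y
      rw [K0Q.comp_assoc, hv, K0Q.comp_one hs hp]
    have h3 : w = y := by
      have h4 : K0Q.comp hp' (K0Q.comp hp w v) y = K0Q.comp hp w (K0Q.comp hp' v y) :=
        K0Q.comp_assoc hp hp' w v y
      rw [hw, hv, K0Q.one_comp hs' hp', K0Q.comp_one hs hp] at h4
      exact h4.symm
    rw [h3] at hw
    exact ⟨⟨_, (key' v).2 hw, (key v).2 hv⟩⟩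
  tfae_finish

end iso

end Pool.Agent.MP_6e5bed_ag_UD
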